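import Pool.Agent.H109.GW.Stm

set_option autoImplicit false

/-! GW, task A1: the product formula for the generating functions of the tree of 3214. -/

namespace Pool.Agent.H109.GW

open Finset Pool.Agent.R121 Pool.Agent.R121.Fish

namespace A1

/-- the product over the inner blocks -/
noncomputable def Pr (bs : List ℕ) : PowerSeries ℤ := (bs.map thA).prod

/-- the power series analogue of `DA` -/
noncomputable def DP (h : List ℕ × ℕ → PowerSeries ℤ) : List ℕ → PowerSeries ℤ
  | [] => 0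
  | b :: bs => ∑ c ∈ Icc 2 b, h (c :: bs, b + 2 - c) + h (mrg bs, b + 1) + DP h bs

/-- the right side of the product formula -/
noncomputable def W : List ℕ × ℕ → PowerSeries ℤ
  | ([], _) => 0
  | (b :: bs, u) => Pr bs * gA ([b], u)

lemma coeff_gA (n : ℕ) (s : List ℕ × ℕ) : PowerSeries.coeff n (gA s) = (TA^[n] fun _ => 1) s := by
  unfold gA
  rw [PowerSeries.coeff_mk]

lemma coeff_DP (h : List ℕ × ℕ → PowerSeries ℤ) (n : ℕ) (l : List ℕ) :
    PowerSeries.coeff n (DP h l) = DA (fun s => PowerSeries.coeff n (h s)) l := by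
  induction l with
  | nil => simp [DP, DA]
  | cons b bs ih => simp only [DP, DA, map_add, map_sum, ih]

lemma eqA (b : ℕ) (bs : List ℕ) (u : ℕ) :
    gA (b :: bs, u) = 1 + PowerSeries.X * (gA (b :: bs, u) +
      ∑ a ∈ Ico 1 u, gA ((a + 1) :: psh (b - 1) bs, u - a) + DP gA (b :: bs)) := by
  ext n
  cases n with
  | zero =>
    rw [coeff_gA]
    simp
  | succ n =>
    have hf : (fun s => PowerSeries.coeff n (gA s)) = (TA^[n] fun _ => 1) := funext (coeff_gA n)
    rw [coeff_gA, Function.iterate_succ_apply', map_add, PowerSeries.coeff_one,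
      if_neg (Nat.succ_ne_zero n), zero_add, PowerSeries.coeff_succ_X_mul, map_add, map_add,
      map_sum, coeff_DP, hf]
    simp only [TA, coeff_gA]

lemma thA_zero : thA 0 = 1 := by
  unfold thA
  rw [if_pos rfl]

lemma Pr_cons (b : ℕ) (bs : List ℕ) : Pr (b :: bs) = thA b * Pr bs := by
  unfold Pr
  rw [List.map_cons, List.prod_cons]

lemma Pr_psh (b : ℕ) (bs : List ℕ) : Pr (psh b bs) = thA b * Pr bs := by
  unfold psh
  split_ifs with h
  · rw [h, thA_zero, one_mul]
  · exact Pr_cons b bs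

lemma FA_thA {b : ℕ} (hb : 1 ≤ b) : FA * thA b =
    (1 - PowerSeries.X) * gA ([b], 1) + PowerSeries.X * gA ([b + 1], 1) := by
  unfold thA
  rw [if_neg (by omega), ← mul_assoc, PowerSeries.mul_invOfUnit, one_mul]
  unfold FA
  simp

/-- the induction hypothesis -/
def IH (n : ℕ) : Prop := ∀ (b : ℕ) (bs : List ℕ) (u : ℕ), 1 ≤ b → 1 ≤ u → (∀ c ∈ bs, 1 ≤ c) →
  (PowerSeries.X : PowerSeries ℤ) ^ n ∣ gA (b :: bs, u) - W (b :: bs, u)

lemma psh_pos {b : ℕ} {bs : List ℕ} (h : ∀ c ∈ bs, 1 ≤ c) : ∀ c ∈ psh b bs, 1 ≤ c := by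
  intro c hc
  unfold psh at hc
  split_ifs at hc with h0
  · exact h c hc
  · rcases List.mem_cons.1 hc with rfl | h1
    · omega
    · exact h c h1

lemma DP_congr {n : ℕ} (h : IH n) : ∀ l : List ℕ, (∀ c ∈ l, 1 ≤ c) →
    (PowerSeries.X : PowerSeries ℤ) ^ n ∣ DP gA l - DP W l := by
  intro l
  induction l with
  | nil => intro _; simp [DP]
  | cons b bs ih =>
    intro hl
    have hbs : ∀ c ∈ bs, 1 ≤ c := fun c hc => hl c (List.mem_cons_of_mem _ hc)
    have h1 : (PowerSeries.X : PowerSeries ℤ) ^ n ∣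
        ∑ c ∈ Icc 2 b, (gA (c :: bs, b + 2 - c) - W (c :: bs, b + 2 - c)) := by
      refine Finset.dvd_sum fun c hc => ?_
      rw [Finset.mem_Icc] at hc
      exact h c bs _ (by omega) (by omega) hbs
    have h2 : (PowerSeries.X : PowerSeries ℤ) ^ n ∣ gA (mrg bs, b + 1) - W (mrg bs, b + 1) := by
      cases bs with
      | nil => exact h 1 [] _ le_rfl (by omega) (by simp)
      | cons b' bs' =>
        exact h (b' + 1) bs' _ (by omega) (by omega)
          (fun c hc => hbs c (List.mem_cons_of_mem _ hc))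
    have h3 := dvd_add (dvd_add h1 h2) (ih hbs)
    have e : DP gA (b :: bs) - DP W (b :: bs) =
        ∑ c ∈ Icc 2 b, (gA (c :: bs, b + 2 - c) - W (c :: bs, b + 2 - c)) +
          (gA (mrg bs, b + 1) - W (mrg bs, b + 1)) + (DP gA bs - DP W bs) := by
      simp only [DP, Finset.sum_sub_distrib]
      ring
    rw [e]
    exact h3

/-- `∑_a gA ([a + 1], u - a)` -/
noncomputable def GG (u : ℕ) : PowerSeries ℤ := ∑ a ∈ Ico 1 u, gA ([a + 1], u - a)

/-- `∑_{c=2}^b gA ([c], b + 2 - c) + gA ([1], b + 1)` -/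
noncomputable def SS (b : ℕ) : PowerSeries ℤ :=
  ∑ c ∈ Icc 2 b, gA ([c], b + 2 - c)

lemma a_sum {n : ℕ} (h : IH n) {b : ℕ} {bs : List ℕ} (hbs : ∀ c ∈ bs, 1 ≤ c) (u : ℕ) :
    (PowerSeries.X : PowerSeries ℤ) ^ n ∣
      ∑ a ∈ Ico 1 u, gA ((a + 1) :: psh (b - 1) bs, u - a) - thA (b - 1) * Pr bs * GG u := by
  have h1 : (PowerSeries.X : PowerSeries ℤ) ^ n ∣
      ∑ a ∈ Ico 1 u, (gA ((a + 1) :: psh (b - 1) bs, u - a) -
        W ((a + 1) :: psh (b - 1) bs, u - a)) := by
    refine Finset.dvd_sum fun a ha => ?_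
    rw [Finset.mem_Ico] at ha
    exact h (a + 1) _ _ (by omega) (by omega) (psh_pos hbs)
  have e : ∑ a ∈ Ico 1 u, W ((a + 1) :: psh (b - 1) bs, u - a) = thA (b - 1) * Pr bs * GG u := by
    unfold GG
    rw [Finset.mul_sum]
    refine Finset.sum_congr rfl fun a _ => ?_
    show Pr (psh (b - 1) bs) * gA ([a + 1], u - a) = _
    rw [Pr_psh]
  rwa [Finset.sum_sub_distrib, e] at h1

/-- single block, `u = 1` -/
lemma one_exact (b : ℕ) : (1 - PowerSeries.X) * gA ([b], 1) =
    1 + PowerSeries.X * (SS b + gA ([1], b + 1)) := by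
  have h1 := eqA b [] 1
  have h2 : DP gA [b] = SS b + gA ([1], b + 1) := by
    simp only [DP, mrg, SS, add_zero]
  rw [h2, Finset.Ico_self, Finset.sum_empty] at h1
  linear_combination h1

/-- single block -/
lemma single {n : ℕ} (h : IH n) (b u : ℕ) :
    ∃ q, (1 - PowerSeries.X) * gA ([b], u) = 1 + PowerSeries.X * (thA (b - 1) * GG u + SS b +
      gA ([1], b + 1)) + PowerSeries.X ^ (n + 1) * q := by
  have h1 := eqA b [] u
  have h2 : DP gA [b] = SS b + gA ([1], b + 1) := by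
    simp only [DP, mrg, SS, add_zero]
  obtain ⟨q, hq⟩ := a_sum h (b := b) (bs := []) (by simp) u
  have hP : Pr [] = 1 := by simp [Pr]
  rw [h2] at h1
  rw [hP] at hq
  refine ⟨q, ?_⟩
  rw [pow_succ]
  linear_combination h1 + PowerSeries.X * hq

/-- the differences -/
lemma single_diff {n : ℕ} (h : IH n) (b u : ℕ) :
    ∃ q, (1 - PowerSeries.X) * (gA ([b], u) - gA ([b], 1)) = PowerSeries.X * (thA (b - 1) * GG u) +
      PowerSeries.X ^ (n + 1) * q := by
  obtain ⟨q, hq⟩ := single h b u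
  refine ⟨q, ?_⟩
  linear_combination hq - one_exact b

lemma geo : (PowerSeries.mk 1 : PowerSeries ℤ) * (1 - PowerSeries.X) = 1 :=
  PowerSeries.mk_one_mul_one_sub_eq_one ℤ

/-- the relation (*) -/
lemma starr {n : ℕ} (h : IH n) {b' : ℕ} (hb' : 1 ≤ b') (b : ℕ) :
    ∃ q, thA b' * (1 + PowerSeries.X * gA ([1], b + 1)) =
      PowerSeries.X * gA ([b' + 1], b + 1) + (1 - PowerSeries.X) * gA ([b'], 1) +
        PowerSeries.X ^ (n + 1) * q := by
  obtain ⟨q1, hq1⟩ := single_diff h 1 (b + 1)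
  obtain ⟨q2, hq2⟩ := single_diff h (b' + 1) (b + 1)
  have h3 := FA_thA hb'
  have h4 : FA = 1 + PowerSeries.X * gA ([1], 1) := rfl
  rw [Nat.sub_self, thA_zero] at hq1
  rw [Nat.add_sub_cancel] at hq2
  rw [h4] at h3
  refine ⟨PowerSeries.mk 1 * (PowerSeries.X * (thA b' * q1 - q2)), ?_⟩
  have key : (1 - PowerSeries.X) * (thA b' * (1 + PowerSeries.X * gA ([1], b + 1)) -
      (PowerSeries.X * gA ([b' + 1], b + 1) + (1 - PowerSeries.X) * gA ([b'], 1))) =
      PowerSeries.X ^ (n + 1) * (PowerSeries.X * (thA b' * q1 - q2)) := by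
    linear_combination (thA b' * PowerSeries.X) * hq1 - PowerSeries.X * hq2 +
      (1 - PowerSeries.X) * h3
  linear_combination (PowerSeries.mk 1 : PowerSeries ℤ) * key -
    (thA b' * (1 + PowerSeries.X * gA ([1], b + 1)) -
      (PowerSeries.X * gA ([b' + 1], b + 1) + (1 - PowerSeries.X) * gA ([b'], 1))) * geo

theorem step {n : ℕ} (h : IH n) : IH (n + 1) := by
  intro b bs
  induction bs generalizing b with
  | nil =>
    intro u _ _ _
    have : W ([b], u) = gA ([b], u) := by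
      show Pr [] * gA ([b], u) = _
      simp [Pr]
    rw [this, sub_self]
    exact dvd_zero _
  | cons b' bs' ih =>
    intro u hb hu hbs
    have hb' : 1 ≤ b' := hbs b' List.mem_cons_self
    have hbs' : ∀ c ∈ bs', 1 ≤ c := fun c hc => hbs c (List.mem_cons_of_mem _ hc)
    -- the shorter list at `u = 1`
    obtain ⟨q1, hq1⟩ := ih b' 1 hb' le_rfl hbs'
    obtain ⟨q2, hq2⟩ := DP_congr h (b' :: bs') hbs
    have e1 := eqA b' bs' 1
    rw [Finset.Ico_self, Finset.sum_empty, add_zero] at e1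
    have hW1 : W (b' :: bs', 1) = Pr bs' * gA ([b'], 1) := rfl
    rw [hW1] at hq1
    -- the list itself
    obtain ⟨q3, hq3⟩ := DP_congr h (b :: b' :: bs')
      (fun c hc => by
        rcases List.mem_cons.1 hc with rfl | h1
        · exact hb
        · exact hbs c h1)
    obtain ⟨q4, hq4⟩ := a_sum h (b := b) hbs u
    obtain ⟨q5, hq5⟩ := h b (b' :: bs') u hb hu hbs
    have e2 := eqA b (b' :: bs') u
    have hW2 : W (b :: b' :: bs', u) = thA b' * Pr bs' * gA ([b], u) := by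
      show Pr (b' :: bs') * gA ([b], u) = _
      rw [Pr_cons]
    rw [hW2] at hq5 ⊢
    have hDW : DP W (b :: b' :: bs') = thA b' * Pr bs' * SS b + Pr bs' * gA ([b' + 1], b + 1) +
        DP W (b' :: bs') := by
      have h1 : DP W (b :: b' :: bs') = ∑ c ∈ Icc 2 b, W (c :: b' :: bs', b + 2 - c) +
        W (mrg (b' :: bs'), b + 1) + DP W (b' :: bs') := rfl
      rw [h1]
      congr 2
      unfold SS
      rw [Finset.mul_sum]
      refine Finset.sum_congr rfl fun c _ => ?_
      show Pr (b' :: bs') * gA ([c], b + 2 - c) = _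
      rw [Pr_cons]
    obtain ⟨q6, hq6⟩ := starr h hb' b
    obtain ⟨q7, hq7⟩ := single h b u
    rw [hDW] at hq3
    rw [Pr_cons] at hq4
    refine ⟨(1 - PowerSeries.X) * q1 - q2 + q3 + q4 + q5 - Pr bs' * q6 -
      thA b' * Pr bs' * q7, ?_⟩
    linear_combination e2 + PowerSeries.X * hq5 + PowerSeries.X * hq4 + PowerSeries.X * hq3 -
      PowerSeries.X * hq2 - e1 + (1 - PowerSeries.X) * hq1 - Pr bs' * hq6 - thA b' * Pr bs' * hq7

theorem all (n : ℕ) : IH n := by
  induction n with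
  | zero =>
    intro b bs u _ _ _
    rw [pow_zero]
    exact one_dvd _
  | succ n ih => exact step ih

end A1

/-- A1, the product formula -/
theorem t_A1 : S_A1 := by
  intro b bs u hb hu hbs
  show gA (b :: bs, u) = A1.Pr bs * gA ([b], u)
  rw [← sub_eq_zero]
  ext n
  have h := A1.all (n + 1) b bs u hb hu hbs
  rw [PowerSeries.X_pow_dvd_iff] at h
  have h1 := h n (Nat.lt_succ_self n)
  rw [map_zero]
  exact h1

end Pool.Agent.H109.GW
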