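import Pool.Agent.H109.GW.Stm

set_option autoImplicit false

/-! The quadratic equation of `Θ` from the product formula. -/

namespace Pool.Agent.H109.GW

open Finset

namespace A2

/-- `v(b, u)` -/
noncomputable def v (b u : ℕ) : PowerSeries ℤ := gA ([b], u)

/-- `G(u)` -/
noncomputable def G (u : ℕ) : PowerSeries ℤ := ∑ a ∈ Ico 1 u, v (a + 1) (u - a)

theorem gA_eq (b u : ℕ) : gA ([b], u) = 1 + PowerSeries.X * (gA ([b], u) +
    ∑ a ∈ Ico 1 u, gA ((a + 1) :: psh (b - 1) [], u - a) +
    (∑ c ∈ Icc 2 b, gA ([c], b + 2 - c) + gA ([1], b + 1))) := by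
  ext n
  cases n with
  | zero =>
    rw [map_add, PowerSeries.coeff_zero_X_mul, add_zero, PowerSeries.coeff_one, if_pos rfl]
    simp only [gA, PowerSeries.coeff_mk, Function.iterate_zero, id]
  | succ n =>
    rw [map_add, PowerSeries.coeff_one, if_neg (Nat.succ_ne_zero n), zero_add,
      PowerSeries.coeff_succ_X_mul, map_add, map_add, map_sum, map_add, map_sum]
    simp only [gA, PowerSeries.coeff_mk]
    rw [Function.iterate_succ_apply']
    simp only [TA, DA, mrg, add_zero]

theorem gA_psh (h : S_A1) (a b w : ℕ) (ha : 1 ≤ a) (hw : 1 ≤ w) :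
    gA (a :: psh b [], w) = thA b * v a w := by
  by_cases hb : b = 0
  · rw [hb]
    have h1 : psh 0 [] = [] := by simp [psh]
    have h2 : thA 0 = 1 := by simp [thA]
    rw [h1, h2, one_mul, v]
  · have h1 : psh b [] = [b] := by simp [psh, hb]
    rw [h1, h a [b] w ha hw (by simp; omega)]
    simp [v]

theorem sum_icc (n : ℕ) : ∑ c ∈ Icc 2 (n + 1), gA ([c], n + 1 + 2 - c) + gA ([1], n + 1 + 1) =
    ∑ p ∈ antidiagonal n, v (p.1 + 1) (p.2 + 2) := by
  rw [Finset.Nat.sum_antidiagonal_eq_sum_range_succ_mk, Finset.sum_range_succ']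
  have h1 : Icc 2 (n + 1) = Ico 2 (n + 2) := by
    ext c
    simp only [mem_Icc, mem_Ico]
    omega
  rw [h1, Finset.sum_Ico_eq_sum_range]
  have h2 : n + 2 - 2 = n := by omega
  rw [h2]
  congr 1
  refine sum_congr rfl fun k hk => ?_
  rw [mem_range] at hk
  unfold v
  have e1 : 2 + k = k + 1 + 1 := by omega
  have e2 : n + 1 + 2 - (k + 1 + 1) = n - (k + 1) + 2 := by omega
  rw [e1, e2]

theorem G_one : G 1 = 0 := by simp [G]

theorem G_succ (n : ℕ) : G (n + 2) = ∑ p ∈ antidiagonal n, v (p.1 + 2) (p.2 + 1) := by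
  unfold G
  rw [Finset.Nat.sum_antidiagonal_eq_sum_range_succ_mk, Finset.sum_Ico_eq_sum_range]
  have h2 : n + 2 - 1 = n.succ := by omega
  rw [h2]
  refine sum_congr rfl fun k hk => ?_
  rw [mem_range] at hk
  have e1 : 1 + k + 1 = k + 2 := by omega
  have e2 : n + 2 - (1 + k) = n - k + 1 := by omega
  rw [e1, e2]

theorem v_eq (h : S_A1) (n u : ℕ) : v (n + 1) u = 1 + PowerSeries.X * (v (n + 1) u +
    thA n * G u + ∑ p ∈ antidiagonal n, v (p.1 + 1) (p.2 + 2)) := by
  have h1 := gA_eq (n + 1) u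
  rw [sum_icc] at h1
  have h2 : ∑ a ∈ Ico 1 u, gA ((a + 1) :: psh (n + 1 - 1) [], u - a) = thA n * G u := by
    unfold G
    rw [mul_sum]
    refine sum_congr rfl fun a ha => ?_
    rw [mem_Ico] at ha
    rw [Nat.add_sub_cancel]
    exact gA_psh h (a + 1) n (u - a) (by omega) (by omega)
  rw [h2] at h1
  exact h1

theorem eqa (h : S_A1) (n : ℕ) : (1 - PowerSeries.X) * v (n + 1) 1 =
    1 + PowerSeries.X * ∑ p ∈ antidiagonal n, v (p.1 + 1) (p.2 + 2) := by
  have h1 := v_eq h n 1
  rw [G_one] at h1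
  linear_combination h1

theorem eqb (h : S_A1) (n u : ℕ) : (1 - PowerSeries.X) * v (n + 1) u =
    (1 - PowerSeries.X) * v (n + 1) 1 + PowerSeries.X * (thA n * G u) := by
  have h1 := v_eq h n u
  have h2 := eqa h n
  linear_combination h1 - h2

theorem FA_eq : FA = 1 + PowerSeries.X * v 1 1 := rfl

theorem FA_th (n : ℕ) : FA * thA (n + 1) =
    (1 - PowerSeries.X) * v (n + 1) 1 + PowerSeries.X * v (n + 2) 1 := by
  have h1 : FA * PowerSeries.invOfUnit FA 1 = 1 := by
    apply PowerSeries.mul_invOfUnit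
    rw [FA_eq, map_add, map_mul, PowerSeries.constantCoeff_X, zero_mul, add_zero, map_one]
    rfl
  unfold thA
  rw [if_neg (Nat.succ_ne_zero n), ← mul_assoc, h1, one_mul]
  rfl

/-- `Σ v_{b+1} ξ^b` -/
noncomputable def U : Rxi := PowerSeries.mk fun n => v (n + 1) 1
/-- `Σ v_{b+2} ξ^b` -/
noncomputable def U' : Rxi := PowerSeries.mk fun n => v (n + 2) 1
/-- `Σ G(u+2) ξ^u` -/
noncomputable def H : Rxi := PowerSeries.mk fun n => G (n + 2)
/-- `Σ th_{b+1} ξ^b` -/
noncomputable def Th' : Rxi := PowerSeries.mk fun n => thA (n + 1)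
/-- `1 / (1 - ξ)` -/
noncomputable def J : Rxi := PowerSeries.mk fun _ => 1

theorem J_mul : J * (1 - PowerSeries.X) = 1 := PowerSeries.mk_one_mul_one_sub_eq_one _

theorem U_eq : U = PowerSeries.C (v 1 1) + PowerSeries.X * U' := by
  ext1 n
  cases n with
  | zero =>
    rw [map_add, PowerSeries.coeff_zero_X_mul, add_zero, PowerSeries.coeff_zero_C]
    simp only [U, PowerSeries.coeff_mk]
  | succ n =>
    rw [map_add, PowerSeries.coeff_succ_X_mul, PowerSeries.coeff_C, if_neg (Nat.succ_ne_zero n),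
      zero_add]
    simp only [U, U', PowerSeries.coeff_mk]

theorem Th_eq : Th = 1 + PowerSeries.X * Th' := by
  ext1 n
  cases n with
  | zero =>
    rw [map_add, PowerSeries.coeff_zero_X_mul, add_zero, PowerSeries.coeff_one, if_pos rfl]
    simp only [Th, PowerSeries.coeff_mk]
    simp [thA]
  | succ n =>
    rw [map_add, PowerSeries.coeff_succ_X_mul, PowerSeries.coeff_one, if_neg (Nat.succ_ne_zero n),
      zero_add]
    simp only [Th, Th', PowerSeries.coeff_mk]

theorem H_eq : (PowerSeries.mk fun n => G (n + 1) : Rxi) = PowerSeries.X * H := by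
  ext1 n
  cases n with
  | zero =>
    rw [PowerSeries.coeff_zero_X_mul, PowerSeries.coeff_mk]
    exact G_one
  | succ n =>
    rw [PowerSeries.coeff_succ_X_mul, PowerSeries.coeff_mk]
    simp only [H, PowerSeries.coeff_mk]

theorem e1 : PowerSeries.C FA * Th' = PowerSeries.C (1 - PowerSeries.X) * U +
    PowerSeries.C PowerSeries.X * U' := by
  ext1 n
  rw [map_add, PowerSeries.coeff_C_mul, PowerSeries.coeff_C_mul, PowerSeries.coeff_C_mul]
  simp only [Th', U, U', PowerSeries.coeff_mk]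
  exact FA_th n

theorem e2 (h : S_A1) : PowerSeries.C (1 - PowerSeries.X) * H =
    PowerSeries.C (1 - PowerSeries.X) * (U' * J) + PowerSeries.C PowerSeries.X *
      (Th' * (PowerSeries.mk fun n => G (n + 1) : Rxi)) := by
  ext1 n
  rw [map_add, PowerSeries.coeff_C_mul, PowerSeries.coeff_C_mul, PowerSeries.coeff_C_mul,
    PowerSeries.coeff_mul, PowerSeries.coeff_mul]
  simp only [Th', U', H, J, PowerSeries.coeff_mk]
  rw [G_succ, mul_sum, mul_sum, mul_sum, ← sum_add_distrib]
  refine sum_congr rfl fun p _ => ?_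
  have h1 := eqb h (p.1 + 1) (p.2 + 1)
  linear_combination h1

theorem e3 (h : S_A1) : PowerSeries.C (1 - PowerSeries.X) * (PowerSeries.C (1 - PowerSeries.X) * U) =
    PowerSeries.C (1 - PowerSeries.X) * J +
      PowerSeries.C PowerSeries.X * (PowerSeries.C (1 - PowerSeries.X) * (U * J)) +
      PowerSeries.C PowerSeries.X * (PowerSeries.C PowerSeries.X * (Th * H)) := by
  ext1 n
  rw [map_add, map_add, PowerSeries.coeff_C_mul, PowerSeries.coeff_C_mul, PowerSeries.coeff_C_mul,
    PowerSeries.coeff_C_mul, PowerSeries.coeff_C_mul, PowerSeries.coeff_C_mul,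
    PowerSeries.coeff_C_mul, PowerSeries.coeff_mul, PowerSeries.coeff_mul]
  simp only [Th, U, H, J, PowerSeries.coeff_mk]
  rw [eqa h n, mul_add, add_assoc, mul_one]
  congr 1
  rw [← mul_assoc, mul_comm (1 - PowerSeries.X) PowerSeries.X, mul_assoc, ← mul_add]
  congr 1
  rw [mul_sum, mul_sum, mul_sum, ← sum_add_distrib]
  refine sum_congr rfl fun p _ => ?_
  have h1 := eqb h p.1 (p.2 + 2)
  linear_combination h1

end A2

open A2 in
theorem t_A2 (h : S_A1) : S_A2 := by
  have hz : (PowerSeries.C (1 - PowerSeries.X) : Rxi) = 1 - zz := by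
    rw [map_sub, map_one, zz]
  have hz' : (PowerSeries.C PowerSeries.X : Rxi) = zz := rfl
  have h1 := e1
  have h2 := e2 h
  have h3 := e3 h
  rw [H_eq] at h2
  rw [hz, hz'] at h1 h2 h3
  have hF : (PowerSeries.C FA : Rxi) = 1 + zz * PowerSeries.C (v 1 1) := by
    rw [FA_eq, map_add, map_mul, map_one, zz]
  have hU := U_eq
  have hT := Th_eq
  have hJ := J_mul
  -- the three equations
  have E1 : PowerSeries.C FA * Th = 1 + (PowerSeries.X * (1 - zz) + zz) * U := by
    linear_combination PowerSeries.C FA * hT + PowerSeries.X * h1 + hF - zz * hU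
  have E2 : PowerSeries.X * (1 - PowerSeries.X) * H * (1 - zz * Th) =
      (1 - zz) * (U - PowerSeries.C (v 1 1)) := by
    linear_combination PowerSeries.X * (1 - PowerSeries.X) * h2 -
      PowerSeries.X * (1 - PowerSeries.X) * zz * H * hT +
      (1 - zz) * PowerSeries.X * U' * hJ - (1 - zz) * hU
  have E3 : (1 - zz) ^ 2 * U * (1 - PowerSeries.X) = (1 - zz) + zz * (1 - zz) * U +
      zz ^ 2 * Th * H * (1 - PowerSeries.X) := by
    linear_combination (1 - PowerSeries.X) * h3 + ((1 - zz) + zz * (1 - zz) * U) * hJ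
  have key : (1 - zz) * (PowerSeries.C FA * (1 - PowerSeries.X) * Th *
    (zz * (PowerSeries.X * (1 - zz) + zz) * Th - (PowerSeries.X * (1 - zz) + zz ^ 2)) +
    PowerSeries.X * (1 - zz)) = 0 := by
    linear_combination (-((PowerSeries.X * (1 - zz) + zz) * PowerSeries.X * (1 - zz * Th))) * E3 -
      (PowerSeries.X * (1 - zz) + zz) * zz ^ 2 * Th * E2 -
      (1 - zz) * (PowerSeries.X * (1 - zz * Th) * ((1 - zz) * (1 - PowerSeries.X) - zz) -
        zz ^ 2 * Th) * E1 -
      (1 - zz) * (PowerSeries.X * (1 - zz) + zz) * zz * Th * hF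
  have hne : (1 - zz : Rxi) ≠ 0 := by
    intro h0
    have h4 := congrArg (fun f : Rxi => PowerSeries.constantCoeff (PowerSeries.constantCoeff f)) h0
    simp only [zz, map_sub, map_one, map_zero, PowerSeries.constantCoeff_C,
      PowerSeries.constantCoeff_X, sub_zero] at h4
    exact one_ne_zero h4
  exact (mul_eq_zero.1 key).resolve_left hne

end Pool.Agent.H109.GW
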