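import Pool.Agent.H109.GW.Stm

set_option autoImplicit false

namespace Pool.Agent.H109.GW

open Finset Pool.Agent.R121 Pool.Agent.R121.Fish

lemma constCoeff_FA : PowerSeries.constantCoeff FA = 1 := by
  simp [FA]

lemma constCoeff_FC : PowerSeries.constantCoeff FC = 1 := by
  simp [FC]

lemma up_X : up PowerSeries.X = PowerSeries.X := by
  simp [up]

theorem t_A3 (h1 : S_ev) (h2 : S_A2) : S_FEA := by
  obtain ⟨Φ, e1, e2, e3⟩ := h1
  unfold S_FEA FE
  refine ⟨Φ (PowerSeries.C FA * Th), ?_, ?_⟩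
  · rw [e3, map_mul, PowerSeries.constantCoeff_C]
    have : PowerSeries.constantCoeff Th = 1 := by
      rw [Th, ← PowerSeries.coeff_zero_eq_constantCoeff_apply, PowerSeries.coeff_mk]
      simp [thA]
    rw [this, mul_one]
  · have h3 := congrArg Φ h2
    simp only [map_add, map_sub, map_mul, map_one, map_pow, map_zero, zz, e1, up_X] at h3
    rw [map_mul, e1]
    generalize hw : (1 - PowerSeries.X) * Φ PowerSeries.X = w at *
    generalize Φ Th = T at *
    generalize hξ : Φ PowerSeries.X = ξ at *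
    have h4 : up FA * (1 - PowerSeries.X - w) * T *
        (PowerSeries.X * (w + PowerSeries.X) * T - (w + PowerSeries.X ^ 2)) +
        w * (1 - PowerSeries.X) = 0 := by
      rw [← hw]
      linear_combination (1 - PowerSeries.X) * h3
    rw [e2] at h4
    have h5 : (PowerSeries.X : Rx) ≠ 0 := PowerSeries.X_ne_zero
    apply mul_left_cancel₀ h5
    linear_combination up FA * h4

theorem t_FEC (h1 : S_C1a) (h2 : S_C1b) (h3 : S_C2a) (h4 : S_C2b) : S_FEC := by
  have h5 : PowerSeries.constantCoeff (at1 (pp 0)) = 1 := by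
    rw [h2.1, constCoeff_FC]
  obtain ⟨y, hy⟩ := h3 pp h5 h1
  have := h4 pp y h5 hy h2.2
  rw [h2.1] at this
  exact this

theorem t_AC (hu : S_uniq) (ha : S_FEA) (hc : S_FEC) (n : ℕ) :
    (TA^[n] fun _ => 1) ([1], 1) = ((TC^[n] fun _ => 1) ([], 1, true) : ℤ) := by
  have h := hu FA FC constCoeff_FA constCoeff_FC ha hc
  have h2 := congrArg (PowerSeries.coeff (n + 1)) h
  simpa [FA, FC, gA, gC, PowerSeries.coeff_succ_X_mul, PowerSeries.coeff_one] using h2

end Pool.Agent.H109.GW
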