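import Pool.Agent.H109.GW.Stm

set_option autoImplicit false

/-! The block trees `TA` and `TB` have equal numbers of nodes at each depth. -/

namespace Pool.Agent.H109.GW

open Finset

namespace AB

/-- number of descendants in the tree `TA` -/
def Av (m : ℕ) (s : List ℕ × ℕ) : ℤ := (TA^[m] fun _ => 1) s

/-- number of descendants in the tree `TB` -/
def Bv (m : ℕ) (s : List ℕ × ℕ × Bool) : ℤ := (TB^[m] fun _ => 1) s

lemma Av_succ (m : ℕ) (s : List ℕ × ℕ) : Av (m + 1) s = TA (Av m) s := by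
  unfold Av
  rw [Function.iterate_succ_apply']

lemma Bv_succ (m : ℕ) (s : List ℕ × ℕ × Bool) : Bv (m + 1) s = TB (Bv m) s := by
  unfold Bv
  rw [Function.iterate_succ_apply']

lemma Av_zero (s : List ℕ × ℕ) : Av 0 s = 1 := rfl

lemma Bv_zero (s : List ℕ × ℕ × Bool) : Bv 0 s = 1 := rfl

lemma TA_cons (f : List ℕ × ℕ → ℤ) (b : ℕ) (bs : List ℕ) (u : ℕ) :
    TA f (b :: bs, u) = f (b :: bs, u) + ∑ a ∈ Ico 1 u, f ((a + 1) :: psh (b - 1) bs, u - a) +
      DA f (b :: bs) := rfl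

lemma DA_cons (f : List ℕ × ℕ → ℤ) (b : ℕ) (bs : List ℕ) :
    DA f (b :: bs) = ∑ c ∈ Icc 2 b, f (c :: bs, b + 2 - c) + f (mrg bs, b + 1) + DA f bs := rfl

lemma TB_false (f : List ℕ × ℕ × Bool → ℤ) (b : ℕ) (bs : List ℕ) (u : ℕ) :
    TB f (b :: bs, u, false) =
      ∑ a ∈ range (u - 1), f ((a + 1) :: psh (b - 1) bs, u - a, false) +
      f (psh (u - 1) (psh (b - 1) bs), 1, true) + DB f 0 (b :: bs) := rfl

lemma TB_true (f : List ℕ × ℕ × Bool → ℤ) (bs : List ℕ) (u : ℕ) :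
    TB f (bs, u, true) = ∑ a ∈ range (u - 1), f ((a + 1) :: bs, u - a, false) +
      f (psh (u - 1) bs, 1, true) + f (bs, 2, true) + DB f 1 bs := by
  cases bs <;> rfl

/-- all entries are positive -/
def Pos (l : List ℕ) : Prop := ∀ c ∈ l, 1 ≤ c

lemma Pos.head {b : ℕ} {l : List ℕ} (h : Pos (b :: l)) : 1 ≤ b := h b (by simp)

lemma Pos.tail {b : ℕ} {l : List ℕ} (h : Pos (b :: l)) : Pos l :=
  fun c hc => h c (List.mem_cons_of_mem _ hc)

lemma pos_cons {b : ℕ} {l : List ℕ} (hb : 1 ≤ b) (h : Pos l) : Pos (b :: l) := by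
  intro c hc
  rcases List.mem_cons.1 hc with rfl | hc
  · exact hb
  · exact h c hc

lemma psh_pos {b : ℕ} (l : List ℕ) (hb : 1 ≤ b) : psh b l = b :: l := by
  unfold psh
  rw [if_neg (by omega)]

lemma psh_zero (l : List ℕ) : psh 0 l = l := rfl

lemma pos_psh (b : ℕ) {l : List ℕ} (h : Pos l) : Pos (psh b l) := by
  unfold psh
  split_ifs with hb
  · exact h
  · exact pos_cons (by omega) h

/-- the difference `D` -/
def Dm (m b : ℕ) (g : List ℕ) : ℤ := Av m ((b + 1) :: g, 1) - Av m (1 :: b :: g, 1)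

def SD (m : ℕ) : List ℕ → ℤ
  | [] => 0
  | b :: g => Dm m b g + SD m g

lemma A_diff (m b : ℕ) (g : List ℕ) (v : ℕ) (hb : 1 ≤ b) :
    Av (m + 1) ((b + 1) :: g, v) - Av (m + 1) (1 :: b :: g, v) =
      (Av m ((b + 1) :: g, v) - Av m (1 :: b :: g, v)) +
      (DA (Av m) ((b + 1) :: g) - DA (Av m) (1 :: b :: g)) := by
  rw [Av_succ, Av_succ, TA_cons, TA_cons, Nat.add_sub_cancel, psh_pos g hb, Nat.sub_self, psh_zero]
  ring

lemma D_all (m : ℕ) : ∀ (b : ℕ) (g : List ℕ) (v : ℕ), 1 ≤ b →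
    Av m ((b + 1) :: g, v) - Av m (1 :: b :: g, v) = Dm m b g := by
  induction m with
  | zero =>
    intro b g v _
    unfold Dm
    simp only [Av_zero]
  | succ m ih =>
    intro b g v hb
    unfold Dm
    rw [A_diff m b g v hb, A_diff m b g 1 hb, ih b g v hb, ih b g 1 hb]

/-- the first difference -/
def HD (m : ℕ) : List ℕ → ℤ
  | [] => 0
  | b :: g => Dm m b g

lemma HD_add (m : ℕ) (g : List ℕ) : HD m g + SD m g.tail = SD m g := by
  cases g with
  | nil => simp [HD, SD]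
  | cons b g => rfl

lemma mrg_eq (m : ℕ) (g : List ℕ) (v : ℕ) (hg : Pos g) :
    Av m (mrg g, v) = Av m (1 :: g, v) + HD m g := by
  cases g with
  | nil => simp [HD, mrg]
  | cons b g =>
    show Av m ((b + 1) :: g, v) = Av m (1 :: b :: g, v) + Dm m b g
    rw [← D_all m b g v hg.head]
    ring

lemma sum_head (F : ℕ → ℤ) (b : ℕ) (hb : 1 ≤ b) :
    ∑ c ∈ Icc 1 b, F c = F 1 + ∑ c ∈ Icc 2 b, F c := by
  induction b, hb using Nat.le_induction with
  | base => simp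
  | succ b hb ih =>
    rw [Finset.sum_Icc_succ_top (by omega), Finset.sum_Icc_succ_top (by omega), ih]
    ring

/-- `DB` for `Av` -/
def DBA (m e : ℕ) : List ℕ → ℤ
  | [] => 0
  | b :: bs => ∑ c ∈ Icc 1 b, Av m (c :: bs, b + 2 + e - c) + DBA m e bs

lemma R_step (m b : ℕ) (g : List ℕ) (hb : 1 ≤ b) (hg : Pos g) :
    Dm (m + 1) b g = Dm m b g + (∑ c ∈ Icc 1 b, Av m (c :: g, b + 2 + 1 - c) -
      ∑ c ∈ Icc 1 b, Av m (c :: g, b + 2 + 0 - c)) := by
  have h1 : Dm (m + 1) b g = Dm m b g + (DA (Av m) ((b + 1) :: g) - DA (Av m) (1 :: b :: g)) := by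
    unfold Dm
    rw [A_diff m b g 1 hb]
  rw [h1, DA_cons, DA_cons, DA_cons, sum_head _ b hb, sum_head _ b hb,
    Finset.sum_Icc_succ_top (by omega)]
  have e1 : ∑ c ∈ Icc 2 1, Av m (c :: b :: g, 1 + 2 - c) = 0 := by simp
  rw [e1, mrg_eq m g _ hg, mrg_eq m g _ hg]
  have e2 : mrg (b :: g) = (b + 1) :: g := rfl
  rw [e2]
  have e3 : ∑ c ∈ Icc 2 b, Av m (c :: g, b + 1 + 2 - c) = ∑ c ∈ Icc 2 b, Av m (c :: g, b + 2 + 1 - c) :=
    rfl
  have e4 : b + 1 + 2 - (b + 1) = 1 + 1 := by omega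
  have e5 : b + 2 + 1 - 1 = b + 1 + 1 := by omega
  have e6 : b + 2 + 0 - 1 = b + 1 := by omega
  have e7 : ∑ c ∈ Icc 2 b, Av m (c :: g, b + 2 + 0 - c) = ∑ c ∈ Icc 2 b, Av m (c :: g, b + 2 - c) := rfl
  rw [e3, e4, e5, e6, e7]
  ring

lemma SD_succ (m : ℕ) : ∀ bs : List ℕ, Pos bs → SD (m + 1) bs = SD m bs + DBA m 1 bs - DBA m 0 bs := by
  intro bs
  induction bs with
  | nil => intro _; simp [SD, DBA]
  | cons b g ih =>
    intro h
    show Dm (m + 1) b g + SD (m + 1) g = Dm m b g + SD m g +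
      (∑ c ∈ Icc 1 b, Av m (c :: g, b + 2 + 1 - c) + DBA m 1 g) -
      (∑ c ∈ Icc 1 b, Av m (c :: g, b + 2 + 0 - c) + DBA m 0 g)
    rw [R_step m b g h.head h.tail, ih h.tail]
    ring

lemma star_eq (m : ℕ) : ∀ (bs : List ℕ) (b : ℕ), Pos bs → 1 ≤ b →
    DA (Av m) (b :: bs) - DBA m 0 (b :: bs) = SD m bs := by
  intro bs
  induction bs with
  | nil =>
    intro b h hb
    rw [DA_cons]
    show _ - (∑ c ∈ Icc 1 b, Av m ([c], b + 2 + 0 - c) + 0) = 0
    rw [sum_head _ b hb]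
    have e1 : DA (Av m) [] = 0 := rfl
    have e2 : mrg [] = [1] := rfl
    have e6 : b + 2 + 0 - 1 = b + 1 := by omega
    have e7 : ∑ c ∈ Icc 2 b, Av m ([c], b + 2 + 0 - c) = ∑ c ∈ Icc 2 b, Av m ([c], b + 2 - c) := rfl
    rw [e1, e2, e6, e7]
    ring
  | cons b' g ih =>
    intro b h hb
    rw [DA_cons]
    show _ - (∑ c ∈ Icc 1 b, Av m (c :: b' :: g, b + 2 + 0 - c) + DBA m 0 (b' :: g)) =
      Dm m b' g + SD m g
    rw [← ih b' h.tail h.head, sum_head _ b hb, mrg_eq m _ _ h]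
    have e6 : b + 2 + 0 - 1 = b + 1 := by omega
    have e7 : ∑ c ∈ Icc 2 b, Av m (c :: b' :: g, b + 2 + 0 - c) =
      ∑ c ∈ Icc 2 b, Av m (c :: b' :: g, b + 2 - c) := rfl
    have e8 : HD m (b' :: g) = Dm m b' g := rfl
    rw [e6, e7, e8]
    ring

/-- the induction hypothesis -/
structure Hyp (m : ℕ) : Prop where
  N : ∀ (b : ℕ) (bs : List ℕ) (u : ℕ), 1 ≤ b → Pos bs → 1 ≤ u →
    Bv m (b :: bs, u, false) = Av m (b :: bs, u)
  S : ∀ (g : List ℕ) (u : ℕ), Pos g → 1 ≤ u → Bv m (g, u, true) = Av m (mrg g, u) + SD m g.tail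

lemma DB_eq {m : ℕ} (H : Hyp m) (e : ℕ) : ∀ l : List ℕ, Pos l → DB (Bv m) e l = DBA m e l := by
  intro l
  induction l with
  | nil => intro _; rfl
  | cons b bs ih =>
    intro h
    show ∑ c ∈ Icc 1 b, Bv m (c :: bs, b + 2 + e - c, false) + DB (Bv m) e bs =
      ∑ c ∈ Icc 1 b, Av m (c :: bs, b + 2 + e - c) + DBA m e bs
    rw [ih h.tail]
    congr 1
    apply Finset.sum_congr rfl
    intro c hc
    rw [Finset.mem_Icc] at hc
    exact H.N c bs _ hc.1 h.tail (by omega)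

lemma shift {m : ℕ} (H : Hyp m) (W : List ℕ) (hW : Pos W) (u : ℕ) (hu : 1 ≤ u) :
    ∑ a ∈ range (u - 1), Bv m ((a + 1) :: W, u - a, false) + Bv m (psh (u - 1) W, 1, true) =
      ∑ a ∈ Ico 1 u, Av m ((a + 1) :: W, u - a) + Av m (1 :: W, u) + SD m W := by
  obtain ⟨k, rfl⟩ : ∃ k, u = k + 1 := ⟨u - 1, by omega⟩
  rw [Nat.add_sub_cancel]
  cases k with
  | zero =>
    rw [psh_zero, H.S W 1 hW le_rfl, mrg_eq m W 1 hW, ← HD_add m W]
    simp
    ring
  | succ k =>
    rw [psh_pos W (by omega : 1 ≤ k + 1), H.S _ 1 (pos_cons (by omega) hW) le_rfl]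
    have e1 : ∑ a ∈ range (k + 1), Bv m ((a + 1) :: W, k + 1 + 1 - a, false) =
        ∑ a ∈ range (k + 1), Av m ((a + 1) :: W, k + 1 + 1 - a) := by
      apply Finset.sum_congr rfl
      intro a ha
      rw [Finset.mem_range] at ha
      exact H.N _ _ _ (by omega) hW (by omega)
    rw [e1]
    have e2 := Finset.sum_range_succ (fun a => Av m ((a + 1) :: W, k + 1 + 1 - a)) (k + 1)
    have e3 : ∑ a ∈ range (k + 1 + 1), Av m ((a + 1) :: W, k + 1 + 1 - a) =
        Av m (1 :: W, k + 1 + 1) + ∑ a ∈ Ico 1 (k + 1 + 1), Av m ((a + 1) :: W, k + 1 + 1 - a) := by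
      rw [Finset.range_eq_Ico, Finset.sum_eq_sum_Ico_succ_bot (by omega)]
      rfl
    have e4 : mrg ((k + 1) :: W) = (k + 1 + 1) :: W := rfl
    have e5 : ((k + 1) :: W).tail = W := rfl
    have e6 : k + 1 + 1 - (k + 1) = 1 := by omega
    rw [e4, e5]
    rw [e3] at e2
    simp only [e6] at e2
    linarith

lemma hyp_zero : Hyp 0 := by
  have h : ∀ l : List ℕ, SD 0 l = 0 := by
    intro l
    induction l with
    | nil => rfl
    | cons b g ih =>
      show Dm 0 b g + SD 0 g = 0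
      rw [ih]
      unfold Dm
      simp only [Av_zero]
      norm_num
  refine ⟨fun _ _ _ _ _ _ => rfl, fun g u _ _ => ?_⟩
  rw [h, Bv_zero, Av_zero]
  norm_num

lemma hyp_succ {m : ℕ} (H : Hyp m) : Hyp (m + 1) := by
  constructor
  · intro b bs u hb hbs hu
    rw [Bv_succ, Av_succ, TB_false, TA_cons, shift H _ (pos_psh _ hbs) u hu,
      DB_eq H 0 _ (pos_cons hb hbs)]
    have h1 := star_eq m bs b hbs hb
    obtain ⟨k, rfl⟩ : ∃ k, b = k + 1 := ⟨b - 1, by omega⟩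
    rw [Nat.add_sub_cancel]
    cases k with
    | zero =>
      rw [psh_zero]
      simp only [Nat.zero_add] at h1 ⊢
      linarith
    | succ k =>
      rw [psh_pos bs (by omega : 1 ≤ k + 1)]
      have h2 := D_all m (k + 1) bs u (by omega)
      have h3 : SD m ((k + 1) :: bs) = Dm m (k + 1) bs + SD m bs := rfl
      linarith
  · intro g u hg hu
    rw [Bv_succ, Av_succ, TB_true, shift H g hg u hu, DB_eq H 1 _ hg, H.S g 2 hg (by omega)]
    cases g with
    | nil =>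
      show _ = TA (Av m) ([1], u) + 0
      rw [TA_cons, DA_cons, Nat.sub_self, psh_zero]
      have e1 : DA (Av m) [] = 0 := rfl
      have e2 : mrg [] = [1] := rfl
      have e3 : DBA m 1 [] = 0 := rfl
      have e4 : SD m [] = 0 := rfl
      have e5 : ([] : List ℕ).tail = [] := rfl
      rw [e1, e2, e3, e5, e4]
      simp
      ring
    | cons b bs =>
      show _ = TA (Av m) ((b + 1) :: bs, u) + SD (m + 1) bs
      have hb := hg.head
      have hbs := hg.tail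
      rw [TA_cons, DA_cons, Nat.add_sub_cancel, psh_pos bs hb, SD_succ m bs hbs,
        Finset.sum_Icc_succ_top (by omega), mrg_eq m bs _ hbs]
      have e1 : mrg (b :: bs) = (b + 1) :: bs := rfl
      have e2 : (b :: bs).tail = bs := rfl
      have e3 : DBA m 1 (b :: bs) = ∑ c ∈ Icc 1 b, Av m (c :: bs, b + 2 + 1 - c) + DBA m 1 bs := rfl
      have e4 : SD m (b :: bs) = Dm m b bs + SD m bs := rfl
      have e5 : b + 1 + 2 - (b + 1) = 2 := by omega
      have e6 : b + 2 + 1 - 1 = b + 1 + 1 := by omega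
      have e7 : ∑ c ∈ Icc 2 b, Av m (c :: bs, b + 1 + 2 - c) =
        ∑ c ∈ Icc 2 b, Av m (c :: bs, b + 2 + 1 - c) := rfl
      rw [e1, e2, e3, e4, e5, e7, sum_head _ b hb, e6]
      have h2 := D_all m b bs u hb
      have h5 : DA (Av m) bs - DBA m 0 bs + HD m bs = SD m bs := by
        cases bs with
        | nil => simp [DA, DBA, HD, SD]
        | cons b' g' =>
          rw [star_eq m g' b' hbs.tail hbs.head]
          show SD m g' + Dm m b' g' = Dm m b' g' + SD m g'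
          ring
      linarith

lemma hyp_all (m : ℕ) : Hyp m := by
  induction m with
  | zero => exact hyp_zero
  | succ m ih => exact hyp_succ ih

end AB

theorem t_AB : S_AB := by
  intro n
  have h := (AB.hyp_all n).S [] 1 (fun c hc => absurd hc (by simp)) le_rfl
  have h2 : AB.Bv n ([], 1, true) = AB.Av n ([1], 1) := by
    rw [h]
    show AB.Av n ([1], 1) + 0 = _
    ring
  exact h2.symm

end Pool.Agent.H109.GW
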