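import Pool.Agent.H109.GW.Stm

set_option autoImplicit false

/-! First passage decomposition of the tree of 4132. -/

namespace Pool.Agent.H109.GW

open Finset Pool.Agent.R121 Pool.Agent.R121.Fish

namespace C1a

section gen

variable {R : Type} [CommRing R] {R' : Type} [CommRing R']

theorem DC_congr {f g : List ℕ × ℕ × Bool → R} (h : ∀ w u b, 1 ≤ u → f (w, u, b) = g (w, u, b)) :
    ∀ (w : List ℕ) (t : ℕ), 1 ≤ t → DC f t w = DC g t w
  | [], _, _ => rfl
  | k :: w, t, ht => by
    simp only [DC]
    rw [DC_congr h w (k + t) (by omega)]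
    congr 1
    exact Finset.sum_congr rfl fun c _ => h _ _ _ (by omega)

theorem TC_congr {f g : List ℕ × ℕ × Bool → R} (h : ∀ w u b, 1 ≤ u → f (w, u, b) = g (w, u, b)) :
    ∀ s, TC f s = TC g s := by
  rintro ⟨w, u, b⟩
  have h1 : ∑ u2 ∈ Icc 2 u, f (w, u2, false) = ∑ u2 ∈ Icc 2 u, g (w, u2, false) := by
    refine Finset.sum_congr rfl fun c hc => h _ _ _ ?_
    have := (Finset.mem_Icc.1 hc).1
    omega
  cases b
  · simp only [TC]
    rw [h1, h _ _ _ le_rfl, DC_congr h w (u + 1) (by omega)]
  · simp only [TC]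
    rw [h1, h _ _ _ le_rfl, h w (u + 1) true (by omega), DC_congr h w (u + 2) (by omega)]

theorem DC_map (φ : R →+ R') (f : List ℕ × ℕ × Bool → R) :
    ∀ (w : List ℕ) (t : ℕ), φ (DC f t w) = DC (fun s => φ (f s)) t w
  | [], _ => map_zero φ
  | k :: w, t => by
    simp only [DC, map_add, map_sum]
    rw [DC_map φ f w (k + t)]

theorem TC_map (φ : R →+ R') (f : List ℕ × ℕ × Bool → R) :
    ∀ s, φ (TC f s) = TC (fun s => φ (f s)) s := by
  rintro ⟨w, u, b⟩
  cases b
  · simp only [TC, map_add, map_sum, DC_map]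
  · simp only [TC, map_add, map_sum, DC_map]

theorem DC_add (f g : List ℕ × ℕ × Bool → R) :
    ∀ (w : List ℕ) (t : ℕ), DC (fun s => f s + g s) t w = DC f t w + DC g t w
  | [], _ => by simp [DC]
  | k :: w, t => by
    simp only [DC]
    rw [DC_add f g w (k + t), Finset.sum_add_distrib]
    ring

theorem TC_add (f g : List ℕ × ℕ × Bool → R) :
    ∀ s, TC (fun s => f s + g s) s = TC f s + TC g s := by
  rintro ⟨w, u, b⟩
  cases b
  · simp only [TC, DC_add, Finset.sum_add_distrib]
    ring
  · simp only [TC, DC_add, Finset.sum_add_distrib]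
    ring

theorem DC_zero : ∀ (w : List ℕ) (t : ℕ), DC (fun _ => (0 : R)) t w = 0
  | [], _ => rfl
  | k :: w, t => by
    simp only [DC]
    rw [DC_zero w (k + t)]
    simp

theorem TC_zero : ∀ s, TC (fun _ => (0 : R)) s = 0 := by
  rintro ⟨w, u, b⟩
  cases b
  · simp [TC, DC_zero]
  · simp [TC, DC_zero]

theorem TC_sum {ι : Type} (S : Finset ι) (F : ι → List ℕ × ℕ × Bool → R) (s) :
    TC (fun s => ∑ i ∈ S, F i s) s = ∑ i ∈ S, TC (F i) s := by
  classical
  induction S using Finset.induction_on with
  | empty => simp [TC_zero]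
  | insert a S ha ih =>
    simp only [Finset.sum_insert ha]
    rw [TC_add, ih]

theorem TC_mul (a : R) (f : List ℕ × ℕ × Bool → R) (s) :
    TC (fun s => a * f s) s = a * TC f s :=
  (TC_map (AddMonoidHom.mulLeft a) f s).symm

/-- state with a new bottom group -/
def app (h : ℕ) (s : List ℕ × ℕ × Bool) : List ℕ × ℕ × Bool := (s.1 ++ [h], s.2.1, s.2.2)

theorem psh_app (b h : ℕ) (w : List ℕ) : psh b (w ++ [h]) = psh b w ++ [h] := by
  unfold psh
  split_ifs <;> rfl

theorem DC_app (f : List ℕ × ℕ × Bool → R) (h : ℕ) : ∀ (w : List ℕ) (t : ℕ),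
    DC f t (w ++ [h]) = DC (fun s => f (app h s)) t w +
      ∑ c ∈ Icc 1 h, f ([], h - c + (w.sum + t), false)
  | [], t => by simp [DC]
  | k :: w, t => by
    simp only [DC, List.cons_append]
    rw [DC_app f h w (k + t), List.sum_cons, show w.sum + (k + t) = k + w.sum + t by ring]
    exact (add_assoc _ _ _).symm

/-- number of the sites different from the top site -/
def nn (s : List ℕ × ℕ × Bool) : ℕ := s.1.sum + (if s.2.2 then 1 else 0) + s.2.1 - 1

theorem TC_app (f : List ℕ × ℕ × Bool → R) (h : ℕ) (w : List ℕ) (u : ℕ) (b : Bool) (hu : 1 ≤ u) :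
    TC f (app h (w, u, b)) = TC (fun s => f (app h s)) (w, u, b) +
      ∑ c ∈ Icc 1 h, f ([], h - c + (nn (w, u, b) + 2), false) := by
  cases b
  · have e : nn (w, u, false) + 2 = w.sum + (u + 1) := by
      simp only [nn]
      simp
      omega
    rw [e]
    simp only [TC, app]
    rw [DC_app, psh_app]
    simp only [app]
    ring
  · have e : nn (w, u, true) + 2 = w.sum + (u + 2) := by
      simp only [nn]
      simp
      omega
    rw [e]
    simp only [TC, app]
    rw [DC_app, psh_app]
    simp only [app]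
    ring

end gen

theorem wt_eq (s : List ℕ × ℕ × Bool) : wt s = Polynomial.X ^ nn s := rfl

/-- LEMMA 2 -/
theorem bot (u n : ℕ) (hu : 1 ≤ u) :
    (TC^[n] wt) ([], u, false) = (TC^[n] wt) (psh (u - 1) [], 1, false) := by
  rcases Nat.eq_or_lt_of_le hu with h1 | h1
  · rw [← h1]
    rfl
  · have e : psh (u - 1) [] = [u - 1] := by
      unfold psh
      rw [if_neg (by omega)]
    cases n with
    | zero =>
      simp only [Function.iterate_zero, id]
      rw [wt_eq, wt_eq, e]
      congr 1
      simp [nn]
    | succ n =>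
      rw [Function.iterate_succ_apply']
      generalize TC^[n] wt = f
      rw [e]
      simp only [TC, DC]
      rw [e]
      have e1 : psh (1 - 1) [u - 1] = [u - 1] := rfl
      rw [e1]
      have e2 : ∑ c ∈ Icc 1 (u - 1), f ([], u - 1 - c + (1 + 1), false) =
          ∑ u2 ∈ Icc 2 u, f ([], u2, false) := by
        refine Finset.sum_nbij' (fun c => u + 1 - c) (fun c => u + 1 - c) ?_ ?_ ?_ ?_ ?_
        · intro c hc
          rw [Finset.mem_Icc] at hc ⊢
          omega
        · intro c hc
          rw [Finset.mem_Icc] at hc ⊢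
          omega
        · intro c hc
          rw [Finset.mem_Icc] at hc
          omega
        · intro c hc
          rw [Finset.mem_Icc] at hc
          omega
        · intro c hc
          rw [Finset.mem_Icc] at hc
          rw [show u - 1 - c + (1 + 1) = u + 1 - c by omega]
      rw [e2]
      simp
      ring

/-- the functional `x ^ m ↦ g m` -/
noncomputable def phi (g : ℕ → Polynomial ℤ) : Polynomial ℤ →+ Polynomial ℤ where
  toFun p := p.sum fun m c => (c : Polynomial ℤ) * g m
  map_zero' := Polynomial.sum_zero_index _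
  map_add' p q := Polynomial.sum_add_index p q _ (fun i => by simp) fun i b c => by
    push_cast
    ring

theorem phi_pow (g : ℕ → Polynomial ℤ) (m : ℕ) : phi g (Polynomial.X ^ m) = g m := by
  change (Polynomial.X ^ m : Polynomial ℤ).sum (fun m c => (c : Polynomial ℤ) * g m) = g m
  rw [← Polynomial.monomial_one_right_eq_X_pow, Polynomial.sum_monomial_index]
  · simp
  · simp

/-- the sum over the sites of the bottom group -/
noncomputable def gg (h j m : ℕ) : Polynomial ℤ :=
  ∑ l ∈ Icc (m + 1) (m + h), PowerSeries.coeff j (pp l)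

theorem low (h n m : ℕ) :
    ∑ c ∈ Icc 1 h, (TC^[n] wt) ([], h - c + (m + 2), false) = gg h n m := by
  unfold gg
  refine Finset.sum_nbij' (fun c => m + h + 1 - c) (fun c => m + h + 1 - c) ?_ ?_ ?_ ?_ ?_
  · intro c hc
    rw [Finset.mem_Icc] at hc ⊢
    omega
  · intro c hc
    rw [Finset.mem_Icc] at hc ⊢
    omega
  · intro c hc
    rw [Finset.mem_Icc] at hc
    omega
  · intro c hc
    rw [Finset.mem_Icc] at hc
    omega
  · intro c hc
    rw [Finset.mem_Icc] at hc
    rw [bot _ n (by omega), show h - c + (m + 2) - 1 = m + h + 1 - c by omega]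
    unfold pp gx
    rw [PowerSeries.coeff_mk]

theorem main (h : ℕ) : ∀ (n : ℕ) (w : List ℕ) (u : ℕ) (b : Bool), 1 ≤ u →
    (TC^[n + 1] wt) (app h (w, u, b)) = Polynomial.X ^ h * (TC^[n + 1] wt) (w, u, b) +
      ∑ p ∈ antidiagonal n, phi (gg h p.2) ((TC^[p.1] wt) (w, u, b)) := by
  have zero : ∀ (w : List ℕ) (u : ℕ) (b : Bool), 1 ≤ u →
      wt (app h (w, u, b)) = Polynomial.X ^ h * wt (w, u, b) := by
    intro w u b hu
    rw [wt_eq, wt_eq, ← pow_add]
    congr 1
    cases b
    · simp [nn, app]
      omega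
    · simp [nn, app]
      omega
  intro n
  induction n with
  | zero =>
    intro w u b hu
    simp only [Function.iterate_succ_apply', Function.iterate_zero, id]
    rw [TC_app _ _ _ _ _ hu, TC_congr (g := fun s => Polynomial.X ^ h * wt s) zero, TC_mul]
    have := low h 0 (nn (w, u, b))
    simp only [Function.iterate_zero, id] at this
    rw [this]
    rw [show (antidiagonal 0 : Finset (ℕ × ℕ)) = {(0, 0)} from rfl, Finset.sum_singleton]
    simp only [Function.iterate_zero, id]
    rw [wt_eq, phi_pow]
  | succ n ih =>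
    intro w u b hu
    rw [Function.iterate_succ_apply', TC_app _ _ _ _ _ hu,
      TC_congr (g := fun s => Polynomial.X ^ h * (TC^[n + 1] wt) s +
        ∑ p ∈ antidiagonal n, phi (gg h p.2) ((TC^[p.1] wt) s)) ih, TC_add, TC_mul, TC_sum,
      low, Finset.Nat.sum_antidiagonal_succ]
    simp only [Function.iterate_zero, id]
    rw [wt_eq (w, u, b), phi_pow]
    rw [← Function.iterate_succ_apply' TC (n + 1) wt]
    have e : ∀ p : ℕ × ℕ, TC (fun s => phi (gg h p.2) ((TC^[p.1] wt) s)) (w, u, b) =
        phi (gg h p.2) ((TC^[p.1 + 1] wt) (w, u, b)) := by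
      intro p
      rw [Function.iterate_succ_apply', TC_map]
    rw [Finset.sum_congr rfl fun p _ => e p]
    ring

end C1a

open C1a in
theorem t_C1a : S_C1a := by
  intro h
  rcases Nat.eq_zero_or_pos h with h0 | h0
  · subst h0
    have e0 : star (pp 0) (fun m => ∑ j ∈ Icc (m + 1) (m + 0), pp j) = 0 := by
      ext n : 1
      simp [star, Polynomial.sum]
    rw [e0]
    simp
  · ext n : 1
    have e1 : xx ^ h = PowerSeries.C (Polynomial.X ^ h) := by
      unfold xx
      rw [map_pow]
    have e2 : psh h [] = [h] := by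
      unfold psh
      rw [if_neg (by omega)]
    rw [map_add, e1, PowerSeries.coeff_C_mul]
    have e3 : PowerSeries.coeff n (pp h) = (TC^[n] wt) (app h ([], 1, false)) := by
      unfold pp gx
      rw [PowerSeries.coeff_mk, e2]
      rfl
    have e4 : ∀ n, PowerSeries.coeff n (pp 0) = (TC^[n] wt) ([], 1, false) := by
      intro n
      unfold pp gx
      rw [PowerSeries.coeff_mk]
      rfl
    rw [e3, e4]
    cases n with
    | zero =>
      simp only [Function.iterate_zero, id, PowerSeries.coeff_zero_X_mul]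
      rw [wt_eq, wt_eq, add_zero, ← pow_add]
      simp [nn, app]
    | succ n =>
      rw [PowerSeries.coeff_succ_X_mul, main h n [] 1 false le_rfl]
      congr 1
      unfold star
      rw [PowerSeries.coeff_mk]
      refine Finset.sum_congr rfl fun p _ => ?_
      rw [e4]
      simp only [map_sum]
      rfl

end Pool.Agent.H109.GW
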