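import Pool.Agent.H109.GW.Stm

set_option autoImplicit false

/-! The recursion on the root branch of the tree of 4132. -/

namespace Pool.Agent.H109.GW

open Finset Pool.Agent.R121 Pool.Agent.R121.Fish

namespace C1b

section

variable {R : Type} [CommRing R]

theorem map_DC {S : Type} [CommRing S] (φ : R →+* S) (f : List ℕ × ℕ × Bool → R) (w : List ℕ) :
    ∀ t : ℕ, φ (DC f t w) = DC (fun s => φ (f s)) t w := by
  induction w with
  | nil =>
    intro t
    exact map_zero φ
  | cons g w ih =>
    intro t
    simp only [DC, map_add, map_sum, ih]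

theorem map_TC {S : Type} [CommRing S] (φ : R →+* S) (f : List ℕ × ℕ × Bool → R)
    (s : List ℕ × ℕ × Bool) : φ (TC f s) = TC (fun s => φ (f s)) s := by
  obtain ⟨w, u, b⟩ := s
  cases b with
  | false => simp only [TC, map_add, map_sum, map_DC]
  | true => simp only [TC, map_add, map_sum, map_DC]

theorem map_iter {S : Type} [CommRing S] (φ : R →+* S) (f : List ℕ × ℕ × Bool → R) (n : ℕ) :
    ∀ s : List ℕ × ℕ × Bool, φ ((TC^[n] f) s) = (TC^[n] fun s => φ (f s)) s := by
  induction n with
  | zero =>
    intro s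
    rfl
  | succ n ih =>
    intro s
    rw [Function.iterate_succ_apply', Function.iterate_succ_apply', map_TC]
    congr 1
    funext t
    exact ih t

/-- the root -/
theorem TC_root (f : List ℕ × ℕ × Bool → R) : TC f ([], 1, false) = f ([], 1, true) := by
  have h1 : Icc 2 1 = (∅ : Finset ℕ) := by decide
  have h2 : psh (1 - 1) [] = [] := rfl
  simp only [TC, DC, h1, h2, sum_empty, zero_add, add_zero]

theorem sum_flip (F : ℕ → R) (h : ℕ) : ∑ c ∈ Icc 1 h, F (h - c + 2) = ∑ u ∈ Icc 2 (h + 1), F u := by
  refine Finset.sum_nbij' (fun c => h - c + 2) (fun u => h + 2 - u) ?_ ?_ ?_ ?_ ?_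
  · intro c hc
    rw [mem_Icc] at hc ⊢
    omega
  · intro u hu
    rw [mem_Icc] at hu ⊢
    omega
  · intro c hc
    rw [mem_Icc] at hc
    omega
  · intro u hu
    rw [mem_Icc] at hu
    omega
  · intro c _
    rfl

/-- the two nodes have the same children -/
theorem TC_same (f : List ℕ × ℕ × Bool → R) (h : ℕ) :
    TC f ([], h + 1, false) = TC f (psh h [], 1, false) := by
  rcases Nat.eq_zero_or_pos h with rfl | hh
  · rfl
  · have h1 : Icc 2 1 = (∅ : Finset ℕ) := by decide
    have h2 : psh h [] = [h] := if_neg (by omega)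
    have h3 : psh (1 - 1) [h] = [h] := rfl
    rw [h2]
    simp only [TC, DC, h1, h3, sum_empty, zero_add, add_zero, Nat.add_sub_cancel, h2,
      Nat.reduceAdd]
    rw [sum_flip (fun u => f ([], u, false)) h]
    ring

theorem TC_diff (f : List ℕ × ℕ × Bool → R) (u : ℕ) :
    TC f ([], u, true) = TC f ([], u, false) + f ([], u + 1, true) := by
  simp only [TC, DC, add_zero]

end

theorem wt_true (u : ℕ) : wt ([], u + 1, true) = Polynomial.X ^ (u + 1) := by
  unfold wt
  congr 1
  simp

theorem wt_false (u : ℕ) : wt ([], u + 1, false) = Polynomial.X ^ u := by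
  unfold wt
  congr 1
  simp

theorem wt_psh (h : ℕ) : wt (psh h [], 1, false) = Polynomial.X ^ h := by
  unfold wt psh
  congr 1
  by_cases hh : h = 0
  · simp [hh]
  · simp [hh]

/-- `gx ([], h + 1, false) = pp h` -/
theorem gx_pp (h : ℕ) : gx ([], h + 1, false) = pp h := by
  unfold pp gx
  ext1 n
  rw [PowerSeries.coeff_mk, PowerSeries.coeff_mk]
  cases n with
  | zero =>
    rw [Function.iterate_zero, id_eq, wt_false, wt_psh]
  | succ n =>
    rw [Function.iterate_succ_apply', TC_same]

theorem gx_root : pp 0 = 1 + PowerSeries.X * gx ([], 1, true) := by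
  rw [← gx_pp 0]
  unfold gx
  ext1 n
  cases n with
  | zero =>
    rw [PowerSeries.coeff_mk, Function.iterate_zero, id_eq, wt_false]
    simp
  | succ n =>
    rw [PowerSeries.coeff_mk, map_add, PowerSeries.coeff_succ_X_mul, PowerSeries.coeff_mk,
      Function.iterate_succ_apply', TC_root, PowerSeries.coeff_one, if_neg (Nat.succ_ne_zero n),
      zero_add]

theorem xx_pow (k : ℕ) : xx ^ k = PowerSeries.C (Polynomial.X ^ k) := by
  unfold xx
  rw [map_pow]

theorem Q_rec (k : ℕ) : gx ([], k + 1, true) =
    ((xx - 1) * xx ^ k + pp k) + PowerSeries.X * gx ([], k + 2, true) := by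
  rw [← gx_pp k]
  have e : (xx - 1) * xx ^ k =
      PowerSeries.C (Polynomial.X ^ (k + 1) - Polynomial.X ^ k : Polynomial ℤ) := by
    rw [sub_mul, one_mul, ← pow_succ', xx_pow, xx_pow, map_sub]
  rw [e]
  unfold gx
  ext1 n
  cases n with
  | zero =>
    rw [map_add, map_add, PowerSeries.coeff_mk, PowerSeries.coeff_mk, Function.iterate_zero,
      id_eq, wt_true, wt_false, PowerSeries.coeff_zero_X_mul, PowerSeries.coeff_zero_C]
    ring
  | succ n =>
    rw [map_add, map_add, PowerSeries.coeff_mk, PowerSeries.coeff_mk,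
      PowerSeries.coeff_succ_X_mul, PowerSeries.coeff_mk, Function.iterate_succ_apply', TC_diff,
      PowerSeries.coeff_C, if_neg (Nat.succ_ne_zero n), zero_add]

/-- a chain of equations -/
theorem chain (Q a : ℕ → Rx) (h : ∀ k, Q k = a k + PowerSeries.X * Q (k + 1)) (n : ℕ) :
    ∀ j, PowerSeries.coeff n (Q j) = ∑ k ∈ range (n + 1), PowerSeries.coeff (n - k) (a (j + k)) := by
  induction n with
  | zero =>
    intro j
    rw [h j, map_add, PowerSeries.coeff_zero_X_mul, add_zero, zero_add, sum_range_one]
    rfl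
  | succ n ih =>
    intro j
    rw [h j, map_add, PowerSeries.coeff_succ_X_mul, ih (j + 1), sum_range_succ' _ (n + 1),
      add_comm]
    congr 1
    refine sum_congr rfl fun k _ => ?_
    rw [Nat.add_sub_add_right, add_assoc, add_comm 1 k]

theorem chain0 (Q a : ℕ → Rx) (h : ∀ k, Q k = a k + PowerSeries.X * Q (k + 1)) :
    Q 0 = dsum a := by
  ext1 n
  unfold dsum
  rw [PowerSeries.coeff_mk, chain Q a h n 0]
  refine sum_congr rfl fun k _ => ?_
  rw [zero_add]

theorem dsum_add (a b : ℕ → Rx) : dsum (fun k => a k + b k) = dsum a + dsum b := by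
  ext1 n
  unfold dsum
  rw [map_add, PowerSeries.coeff_mk, PowerSeries.coeff_mk, PowerSeries.coeff_mk,
    ← sum_add_distrib]
  refine sum_congr rfl fun k _ => ?_
  rw [map_add]

theorem dsum_geo : (1 - PowerSeries.X * xx) * dsum (fun k => (xx - 1) * xx ^ k) = xx - 1 := by
  have e : ∀ k, (xx - 1) * xx ^ k =
      PowerSeries.C ((Polynomial.X - 1) * Polynomial.X ^ k : Polynomial ℤ) := by
    intro k
    rw [map_mul, map_sub, map_one, xx_pow]
    rfl
  have hc : ∀ n, PowerSeries.coeff n (dsum (fun k => (xx - 1) * xx ^ k)) =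
      (Polynomial.X - 1) * Polynomial.X ^ n := by
    intro n
    unfold dsum
    rw [PowerSeries.coeff_mk, sum_eq_single n]
    · show PowerSeries.coeff (n - n) ((xx - 1) * xx ^ n) = _
      rw [e, Nat.sub_self, PowerSeries.coeff_zero_C]
    · intro k hk hkn
      rw [mem_range] at hk
      show PowerSeries.coeff (n - k) ((xx - 1) * xx ^ k) = 0
      rw [e, PowerSeries.coeff_C, if_neg (by omega)]
    · intro hn
      exact absurd (mem_range.2 (Nat.lt_succ_self n)) hn
  ext1 n
  rw [sub_mul, one_mul, mul_assoc]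
  cases n with
  | zero =>
    rw [map_sub, PowerSeries.coeff_zero_X_mul, hc, sub_zero, pow_zero, mul_one]
    unfold xx
    rw [map_sub, PowerSeries.coeff_zero_C]
    simp
  | succ n =>
    rw [map_sub, PowerSeries.coeff_succ_X_mul, hc]
    unfold xx
    rw [PowerSeries.coeff_C_mul]
    have := hc n
    unfold xx at this
    rw [this, map_sub, PowerSeries.coeff_C, if_neg (Nat.succ_ne_zero n), PowerSeries.coeff_one,
      if_neg (Nat.succ_ne_zero n)]
    ring

end C1b

open C1b in
theorem t_C1b : S_C1b := by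
  constructor
  · rw [← gx_pp 0]
    unfold at1 FC gx gC
    ext1 n
    rw [PowerSeries.coeff_map, PowerSeries.coeff_mk]
    have hw : (fun s => (Polynomial.evalRingHom (1 : ℤ)) (wt s)) = fun _ => (1 : ℤ) := by
      funext s
      unfold wt
      rw [Polynomial.coe_evalRingHom, Polynomial.eval_pow, Polynomial.eval_X, one_pow]
    rw [map_iter, hw, zero_add]
    cases n with
    | zero =>
      simp
    | succ n =>
      rw [Function.iterate_succ_apply', TC_root, map_add, PowerSeries.coeff_succ_X_mul,
        PowerSeries.coeff_mk, PowerSeries.coeff_one, if_neg (Nat.succ_ne_zero n), zero_add]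
  · have h1 := chain0 (fun k => gx ([], k + 1, true)) (fun k => (xx - 1) * xx ^ k + pp k) Q_rec
    rw [dsum_add] at h1
    have h2 := gx_root
    have h3 := dsum_geo
    simp only [zero_add] at h1
    rw [h2, h1]
    linear_combination PowerSeries.X * h3

end Pool.Agent.H109.GW
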