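import Pool.Agent.H109.GW.Stm

set_option autoImplicit false

/-! The kernel formula (job C2a). -/

namespace Pool.Agent.H109.GW.C2a

open Finset Pool.Agent.H109.GW

variable {R S : Type} [CommRing R] [CommRing S]

/-- the coefficient of `x ^ m` -/
noncomputable def A (R : Type) [CommRing R] (a : Rx) (m : ℕ) : PowerSeries R :=
  PowerSeries.mk fun i => (((PowerSeries.coeff i a).coeff m : ℤ) : R)

/-- a bound for the degrees -/
noncomputable def bnd (a : Rx) (n : ℕ) : ℕ := ∑ i ∈ range (n + 1), ((PowerSeries.coeff i a).natDegree + 1)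

theorem lt_bnd (a : Rx) (n i : ℕ) (h : i ≤ n) : (PowerSeries.coeff i a).natDegree < bnd a n := by
  have h1 : (PowerSeries.coeff i a).natDegree + 1 ≤ bnd a n :=
    single_le_sum (f := fun i => (PowerSeries.coeff i a).natDegree + 1) (fun _ _ => Nat.zero_le _)
      (mem_range.2 (Nat.lt_succ_of_le h))
  omega

theorem coeff_st (a : Rx) (P : ℕ → PowerSeries R) (n M : ℕ)
    (hM : ∀ i, i ≤ n → (PowerSeries.coeff i a).natDegree < M) :
    PowerSeries.coeff n (star a P) = PowerSeries.coeff n (∑ m ∈ range M, A R a m * P m) := by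
  rw [star, PowerSeries.coeff_mk, map_sum]
  simp only [PowerSeries.coeff_mul]
  rw [sum_comm]
  refine sum_congr rfl fun p hp => ?_
  have hp1 : p.1 ≤ n := by
    have := mem_antidiagonal.1 hp
    omega
  rw [Polynomial.sum_over_range' _ (fun m => by simp) M (hM p.1 hp1)]
  refine sum_congr rfl fun m _ => ?_
  rw [A, PowerSeries.coeff_mk]

theorem st_mul (a : Rx) (c : PowerSeries R) (P : ℕ → PowerSeries R) :
    star a (fun m => c * P m) = c * star a P := by
  ext n
  have hM := lt_bnd a n
  rw [coeff_st a _ n (bnd a n) hM, PowerSeries.coeff_mul]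
  have h1 : ∀ p ∈ antidiagonal n, PowerSeries.coeff p.1 c * PowerSeries.coeff p.2 (star a P) =
      PowerSeries.coeff p.1 c * PowerSeries.coeff p.2 (∑ m ∈ range (bnd a n), A R a m * P m) := by
    intro p hp
    have hp1 : p.2 ≤ n := by
      have := mem_antidiagonal.1 hp
      omega
    rw [coeff_st a P p.2 (bnd a n) fun i hi => hM i (hi.trans hp1)]
  rw [sum_congr rfl h1, ← PowerSeries.coeff_mul, mul_sum]
  congr 1
  refine sum_congr rfl fun m _ => ?_
  ring

theorem st_sub (a : Rx) (P Q : ℕ → PowerSeries R) :
    star a (fun m => P m - Q m) = star a P - star a Q := by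
  ext n
  have hM := lt_bnd a n
  rw [map_sub, coeff_st a _ n (bnd a n) hM, coeff_st a _ n (bnd a n) hM,
    coeff_st a _ n (bnd a n) hM, ← map_sub, ← sum_sub_distrib]
  congr 1
  refine sum_congr rfl fun m _ => ?_
  ring

theorem st_add (a : Rx) (P Q : ℕ → PowerSeries R) :
    star a (fun m => P m + Q m) = star a P + star a Q := by
  ext n
  have hM := lt_bnd a n
  rw [map_add, coeff_st a _ n (bnd a n) hM, coeff_st a _ n (bnd a n) hM,
    coeff_st a _ n (bnd a n) hM, ← map_add, ← sum_add_distrib]
  congr 1
  refine sum_congr rfl fun m _ => ?_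
  ring

theorem st_map (φ : R →+* S) (a : Rx) (P : ℕ → PowerSeries R) :
    PowerSeries.map φ (star a P) = star a (fun m => PowerSeries.map φ (P m)) := by
  ext n
  have hM := lt_bnd a n
  rw [PowerSeries.coeff_map, coeff_st a _ n (bnd a n) hM, coeff_st a _ n (bnd a n) hM,
    ← PowerSeries.coeff_map, map_sum]
  congr 1
  refine sum_congr rfl fun m _ => ?_
  rw [map_mul]
  congr 1
  ext i
  rw [PowerSeries.coeff_map, A, A, PowerSeries.coeff_mk, PowerSeries.coeff_mk, map_intCast]

theorem st_xx (a : Rx) : star a (fun m => xx ^ m) = a := by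
  ext1 n
  have hM := lt_bnd a n
  rw [coeff_st a _ n (bnd a n) hM, map_sum]
  have h1 : ∀ m ∈ range (bnd a n), PowerSeries.coeff n (A (Polynomial ℤ) a m * xx ^ m) =
      Polynomial.C ((PowerSeries.coeff n a).coeff m) * Polynomial.X ^ m := by
    intro m _
    rw [xx, ← map_pow, PowerSeries.coeff_mul_C, A, PowerSeries.coeff_mk, eq_intCast]
  rw [sum_congr rfl h1, ← Polynomial.as_sum_range_C_mul_X_pow' _ (hM n le_rfl)]

theorem uniq (a : Rx) (P : ℕ → PowerSeries R) (h0 : P 0 = 0)
    (h : ∀ k, P (k + 1) - P k = PowerSeries.X * star a (fun m => P (m + k + 1))) : ∀ k, P k = 0 := by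
  have key : ∀ n k l, l < n → PowerSeries.coeff l (P k) = 0 := by
    intro n
    induction n with
    | zero => intro k l hl; omega
    | succ n ih =>
      intro k
      induction k with
      | zero => intro l _; rw [h0, map_zero]
      | succ k ihk =>
        intro l hl
        have h1 : PowerSeries.coeff l (P (k + 1)) = PowerSeries.coeff l (P k) +
            PowerSeries.coeff l (PowerSeries.X * star a (fun m => P (m + k + 1))) := by
          rw [← map_add, ← h k]
          congr 1
          ring
        rw [h1, ihk l hl, zero_add]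
        rcases l with _ | l
        · exact PowerSeries.coeff_zero_X_mul _
        · rw [PowerSeries.coeff_succ_X_mul, star, PowerSeries.coeff_mk]
          refine sum_eq_zero fun p hp => ?_
          have hp1 : p.2 < n := by
            have := mem_antidiagonal.1 hp
            omega
          rw [Polynomial.sum]
          refine sum_eq_zero fun m _ => ?_
          rw [ih _ _ hp1, mul_zero]
  intro k
  ext l
  rw [key (l + 1) k l (Nat.lt_succ_self l), map_zero]

end Pool.Agent.H109.GW.C2a

namespace Pool.Agent.H109.GW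

open Finset C2a

theorem t_C2a : S_C2a := by
  intro p hF hp
  set a : Rx := p 0 with ha
  -- the recursion
  have hrec : ∀ k, p (k + 1) - p k = (xx - 1) * xx ^ k * a + PowerSeries.X * star a (fun m => p (m + k + 1)) := by
    intro k
    have h1 : star a (fun m => ∑ j ∈ Icc (m + 1) (m + (k + 1)), p j) =
        star a (fun m => ∑ j ∈ Icc (m + 1) (m + k), p j) + star a (fun m => p (m + k + 1)) := by
      rw [← st_add]
      congr 1
      funext m
      rw [← add_assoc, sum_Icc_succ_top (by omega)]
    have h2 := hp (k + 1)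
    have h3 := hp k
    rw [h1] at h2
    rw [h2]
    conv_lhs => rw [h3]
    ring
  -- the values at `1`
  set e : ℕ → PowerSeries ℤ := fun k => at1 (p k) with he
  set F : PowerSeries ℤ := at1 a with hFd
  have hxx : at1 xx = 1 := by
    rw [at1, xx, PowerSeries.map_C]
    simp
  have hX : at1 PowerSeries.X = PowerSeries.X := by
    rw [at1, PowerSeries.map_X]
  have herec : ∀ k, e (k + 1) - e k = PowerSeries.X * star a (fun m => e (m + k + 1)) := by
    intro k
    have h1 : at1 (star a fun m => p (m + k + 1)) = star a (fun m => e (m + k + 1)) := st_map _ _ _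
    show at1 (p (k + 1)) - at1 (p k) = _
    rw [← map_sub, hrec k, map_add, map_mul, map_mul, map_mul, map_sub, hxx, map_one, sub_self,
      zero_mul, zero_mul, zero_add, hX, h1]
  have he0 : e 0 = F := rfl
  obtain ⟨G, hG⟩ : ∃ G : PowerSeries ℤ, F * G = 1 :=
    ⟨PowerSeries.invOfUnit F 1, PowerSeries.mul_invOfUnit F 1 (by rw [hF]; rfl)⟩
  have hprop : ∀ k, F * e (k + 1) - e 1 * e k = 0 := by
    refine uniq a (fun k => F * e (k + 1) - e 1 * e k) ?_ ?_
    · show F * e (0 + 1) - e 1 * e 0 = 0
      rw [he0, zero_add]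
      ring
    · intro k
      show F * e (k + 1 + 1) - e 1 * e (k + 1) - (F * e (k + 1) - e 1 * e k) =
        PowerSeries.X * star a (fun m => F * e (m + k + 1 + 1) - e 1 * e (m + k + 1))
      rw [st_sub, st_mul, st_mul]
      have h1 := herec k
      have h2 := herec (k + 1)
      have h3 : (fun m => e (m + (k + 1) + 1)) = fun m => e (m + k + 1 + 1) := by
        funext m
        rw [← add_assoc m k 1]
      rw [h3] at h2
      linear_combination F * h2 - e 1 * h1
  set y : PowerSeries ℤ := G * e 1 with hy
  have hgeo : ∀ k, e k = F * y ^ k := by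
    intro k
    induction k with
    | zero => rw [he0, pow_zero, mul_one]
    | succ k ih =>
      have h1 := hprop k
      have h2 : e (k + 1) = (F * G) * e (k + 1) := by rw [hG, one_mul]
      rw [h2]
      calc F * G * e (k + 1) = G * (F * e (k + 1)) := by ring
        _ = G * (e 1 * e k) := by rw [sub_eq_zero.1 h1]
        _ = y * e k := by rw [hy]; ring
        _ = F * y ^ (k + 1) := by rw [ih]; ring
  have hyeq : y - 1 = PowerSeries.X * star a (fun m => y ^ (m + 1)) := by
    have h1 := herec 0
    have h2 : (fun m => e (m + 0 + 1)) = fun m => F * y ^ (m + 1) := by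
      funext m
      rw [hgeo, add_zero]
    rw [h2, st_mul, hgeo, hgeo, pow_zero, zero_add, pow_one] at h1
    calc y - 1 = (F * G) * (y - 1) := by rw [hG, one_mul]
      _ = G * (F * y - F * 1) := by ring
      _ = G * (PowerSeries.X * (F * star a fun m => y ^ (m + 1))) := by rw [h1]
      _ = (F * G) * (PowerSeries.X * star a (fun m => y ^ (m + 1))) := by ring
      _ = _ := by rw [hG, one_mul]
  -- in `ℤ[x]⟦z⟧`
  set Y : Rx := up y with hYd
  have hYeq : Y - 1 = PowerSeries.X * star a (fun m => Y ^ (m + 1)) := by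
    have h1 : up (star a (fun m => y ^ (m + 1))) = star a (fun m => Y ^ (m + 1)) := by
      have h2 : up (star a (fun m => y ^ (m + 1))) = star a (fun m => up (y ^ (m + 1))) := st_map _ _ _
      rw [h2]
      congr 1
      funext m
      rw [map_pow]
    have hX' : up PowerSeries.X = PowerSeries.X := by rw [up, PowerSeries.map_X]
    rw [← h1, hYd, ← hX', ← map_mul, ← hyeq, map_sub, map_one]
  refine ⟨y, fun k => ?_⟩
  set K : Rx := xx - 1 - PowerSeries.X * xx * a with hK
  have hfin := uniq a (fun k => K * p k - a * (K * Y ^ k + (xx - 1) * (xx ^ k - Y ^ k))) (by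
      show K * p 0 - a * (K * Y ^ 0 + (xx - 1) * (xx ^ 0 - Y ^ 0)) = 0
      rw [← ha]
      ring) (by
      intro k
      show K * p (k + 1) - a * (K * Y ^ (k + 1) + (xx - 1) * (xx ^ (k + 1) - Y ^ (k + 1))) -
          (K * p k - a * (K * Y ^ k + (xx - 1) * (xx ^ k - Y ^ k))) =
        PowerSeries.X * star a (fun m => K * p (m + k + 1) -
          a * (K * Y ^ (m + k + 1) + (xx - 1) * (xx ^ (m + k + 1) - Y ^ (m + k + 1))))
      have h1 : (fun m => K * p (m + k + 1) -
          a * (K * Y ^ (m + k + 1) + (xx - 1) * (xx ^ (m + k + 1) - Y ^ (m + k + 1)))) =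
          fun m => K * p (m + k + 1) -
            ((a * (K - (xx - 1)) * Y ^ k) * Y ^ (m + 1) + (a * (xx - 1) * xx ^ (k + 1)) * xx ^ m) := by
        funext m
        ring
      rw [h1, st_sub, st_add, st_mul, st_mul, st_mul, st_xx]
      have h2 := hrec k
      linear_combination K * h2 - (a * (K - (xx - 1)) * Y ^ k) * hYeq + a * (xx - 1) * xx ^ k * hK) k
  exact sub_eq_zero.1 hfin

end Pool.Agent.H109.GW
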