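import Pool.Agent.H109.GW.Stm

set_option autoImplicit false

/-! Project GW (MP_e853da_co), C2b: elimination of `y`. -/

namespace Pool.Agent.H109.GW.C2b

open Finset

/-- truncation of `dsum` -/
theorem coeff_dsum (p : ℕ → Rx) (n N : ℕ) (h : n < N) :
    PowerSeries.coeff n (dsum p) =
      PowerSeries.coeff n (∑ k ∈ range N, PowerSeries.X ^ k * p k) := by
  unfold dsum
  rw [PowerSeries.coeff_mk, map_sum]
  have h1 : ∀ k ∈ range N, PowerSeries.coeff n (PowerSeries.X ^ k * p k) =
      if k ≤ n then PowerSeries.coeff (n - k) (p k) else 0 := fun k _ =>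
    PowerSeries.coeff_X_pow_mul' (p k) k n
  rw [Finset.sum_congr rfl h1, ← Finset.sum_filter]
  refine Finset.sum_congr ?_ fun _ _ => rfl
  ext k
  simp only [mem_range, mem_filter]
  omega

theorem coeff_mul_dsum (c : Rx) (p : ℕ → Rx) (n N : ℕ) (h : n < N) :
    PowerSeries.coeff n (c * dsum p) =
      PowerSeries.coeff n (c * ∑ k ∈ range N, PowerSeries.X ^ k * p k) := by
  rw [PowerSeries.coeff_mul, PowerSeries.coeff_mul]
  refine Finset.sum_congr rfl fun q hq => ?_
  have h1 := mem_antidiagonal.mp hq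
  rw [coeff_dsum p q.2 N (by omega)]

theorem mul_dsum (c : Rx) (p : ℕ → Rx) : c * dsum p = dsum (fun k => c * p k) := by
  ext1 n
  rw [coeff_mul_dsum c p n (n + 1) (Nat.lt_succ_self n),
    coeff_dsum (fun k => c * p k) n (n + 1) (Nat.lt_succ_self n), Finset.mul_sum]
  refine congrArg (fun s : Rx => PowerSeries.coeff n s) (Finset.sum_congr rfl fun k _ => ?_)
  exact mul_left_comm _ _ _

theorem dsum_add (p q : ℕ → Rx) : dsum (fun k => p k + q k) = dsum p + dsum q := by
  ext1 n
  unfold dsum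
  rw [map_add, PowerSeries.coeff_mk, PowerSeries.coeff_mk, PowerSeries.coeff_mk,
    ← Finset.sum_add_distrib]
  exact Finset.sum_congr rfl fun k _ => by rw [map_add]

theorem geom (c : Rx) : (1 - PowerSeries.X * c) * dsum (fun k => c ^ k) = 1 := by
  ext1 n
  rw [coeff_mul_dsum _ _ n (n + 1) (Nat.lt_succ_self n)]
  have h1 : ∑ k ∈ range (n + 1), (PowerSeries.X : Rx) ^ k * c ^ k =
      ∑ k ∈ range (n + 1), (PowerSeries.X * c) ^ k :=
    Finset.sum_congr rfl fun k _ => (mul_pow _ _ _).symm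
  rw [h1, mul_neg_geom_sum, map_sub, mul_pow, PowerSeries.coeff_X_pow_mul',
    if_neg (by omega), sub_zero]

theorem at1_X : at1 PowerSeries.X = PowerSeries.X := PowerSeries.map_X _

theorem up_X : up PowerSeries.X = PowerSeries.X := PowerSeries.map_X _

theorem at1_xx : at1 xx = 1 := by
  unfold at1 xx
  rw [PowerSeries.map_C]
  simp

theorem at1_up (y : PowerSeries ℤ) : at1 (up y) = y := by
  ext n
  unfold at1 up
  rw [PowerSeries.coeff_map, PowerSeries.coeff_map]
  simp

/-- the first equation -/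
theorem eq1 (z x K Y a D GY Gx : Rx)
    (hK : K * D = a * (K * GY + (x - 1) * (Gx - GY)))
    (hGY : (1 - z * Y) * GY = 1) (hGx : (1 - z * x) * Gx = 1)
    (h2 : (1 - z * x) * a = 1 - z + z * (1 - z * x) * D) :
    K * a * (1 - z * x) * (1 - z * Y) =
      K * (1 - z) * (1 - z * Y) + z * a * (K * (1 - z * x) + (x - 1) * z * (x - Y)) := by
  linear_combination K * (1 - z * Y) * h2 + z * (1 - z * x) * (1 - z * Y) * hK +
    z * a * (K - (x - 1)) * (1 - z * x) * hGY + z * a * (x - 1) * (1 - z * Y) * hGx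

end Pool.Agent.H109.GW.C2b

namespace Pool.Agent.H109.GW

open Finset

theorem t_C2b : S_C2b := by
  intro p y hF hp h2
  obtain ⟨a, ha⟩ : ∃ a, a = p 0 := ⟨_, rfl⟩
  obtain ⟨K, hKdef⟩ : ∃ K : Rx, K = xx - 1 - PowerSeries.X * xx * a := ⟨_, rfl⟩
  rw [← ha] at hF h2 ⊢
  have hp' : ∀ h, K * p h = a * (K * up y ^ h + (xx - 1) * (xx ^ h - up y ^ h)) := by
    intro h
    rw [hKdef, ha]
    exact hp h
  -- the geometric sums
  have hK : K * dsum p = a * (K * dsum (fun k => up y ^ k) +
      (xx - 1) * (dsum (fun k => xx ^ k) - dsum (fun k => up y ^ k))) := by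
    have e1 : K * dsum p = dsum (fun k => (a * (K - (xx - 1))) * up y ^ k +
        (a * (xx - 1)) * xx ^ k) := by
      rw [C2b.mul_dsum]
      refine congrArg dsum (funext fun k => ?_)
      rw [hp' k]
      ring
    rw [e1, C2b.dsum_add, ← C2b.mul_dsum, ← C2b.mul_dsum]
    ring
  have e1 := C2b.eq1 PowerSeries.X xx K (up y) a (dsum p) (dsum fun k => up y ^ k)
    (dsum fun k => xx ^ k) hK (C2b.geom _) (C2b.geom _) h2
  -- at `x = 1`
  obtain ⟨F, hFdef⟩ : ∃ F, F = at1 a := ⟨_, rfl⟩
  rw [← hFdef] at hF ⊢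
  have hKF : at1 K = -(PowerSeries.X * F) := by
    rw [hKdef, map_sub, map_sub, map_mul, map_mul, C2b.at1_X, C2b.at1_xx, map_one, hFdef]
    ring
  have e2 := congrArg at1 e1
  simp only [map_mul, map_sub, map_add, map_one, C2b.at1_X, C2b.at1_xx, C2b.at1_up, hKF,
    ← hFdef] at e2
  have e3 : (PowerSeries.X * F * (1 - PowerSeries.X)) *
      (F * (1 - PowerSeries.X * y) - (1 - PowerSeries.X * y) - PowerSeries.X * F) = 0 := by
    linear_combination -e2
  have hX : (PowerSeries.X : PowerSeries ℤ) ≠ 0 := PowerSeries.X_ne_zero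
  have hF0 : F ≠ 0 := by
    rintro rfl
    simp at hF
  have h1X : (1 - PowerSeries.X : PowerSeries ℤ) ≠ 0 := by
    intro h
    have := congrArg PowerSeries.constantCoeff h
    simp at this
  have e4 := (mul_eq_zero.mp e3).resolve_left (mul_ne_zero (mul_ne_zero hX hF0) h1X)
  -- lift to `ℤ[x]⟦z⟧`
  have e5 := congrArg up e4
  simp only [map_mul, map_sub, map_one, map_zero, C2b.up_X] at e5
  have e6 : PowerSeries.X * (K * (a * (1 - PowerSeries.X * xx) - (1 - PowerSeries.X) * up F)) =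
      PowerSeries.X * (a * (xx - 1) * (up F * (PowerSeries.X * xx + PowerSeries.X - 1) + 1 -
        PowerSeries.X * xx)) := by
    linear_combination (up F - 1) * e1 - (K * a * (1 - PowerSeries.X * xx) -
      K * (1 - PowerSeries.X) - PowerSeries.X * a * (xx - 1)) * e5
  have e7 := mul_left_cancel₀ (PowerSeries.X_ne_zero : (PowerSeries.X : Rx) ≠ 0) e6
  refine ⟨a, hFdef.symm, ?_⟩
  rw [hKdef] at e7
  linear_combination -e7

end Pool.Agent.H109.GW
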