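import Pool.Graph.R_seed8.R121.Fish.Tree

set_option autoImplicit false

/-! Fishburn permutations avoiding 3214, 4213, 4132: statements of the project (MP_e853da_co). -/

namespace Pool.Agent.H109.GW

open Finset Pool.Agent.R121 Pool.Agent.R121.Fish

attribute [local instance 10] Classical.propDecidable

/-! ### permutations -/

/-- avoids 3214 -/
def AvA {n : ℕ} (τ : Equiv.Perm (Fin n)) : Prop :=
  ∀ i j k l : Fin n, i < j → j < k → k < l →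
    ¬ ((τ k : ℕ) < τ j ∧ (τ j : ℕ) < τ i ∧ (τ i : ℕ) < τ l)

/-- avoids 4213 -/
def AvB {n : ℕ} (τ : Equiv.Perm (Fin n)) : Prop :=
  ∀ i j k l : Fin n, i < j → j < k → k < l →
    ¬ ((τ k : ℕ) < τ j ∧ (τ j : ℕ) < τ l ∧ (τ l : ℕ) < τ i)

/-- avoids 4132 -/
def AvC {n : ℕ} (τ : Equiv.Perm (Fin n)) : Prop :=
  ∀ i j k l : Fin n, i < j → j < k → k < l →
    ¬ ((τ j : ℕ) < τ l ∧ (τ l : ℕ) < τ k ∧ (τ k : ℕ) < τ i)

def VA (n : ℕ) (τ : Equiv.Perm (Fin n)) : Prop := Fsh τ ∧ AvA τ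
def VB (n : ℕ) (τ : Equiv.Perm (Fin n)) : Prop := Fsh τ ∧ AvB τ
def VC (n : ℕ) (τ : Equiv.Perm (Fin n)) : Prop := Fsh τ ∧ AvC τ

/-- the site `u` (= number of smaller elements) closes a 3214 -/
def PA {n : ℕ} (τ : Equiv.Perm (Fin n)) (u : ℕ) : Prop :=
  ∃ i j k : Fin n, i < j ∧ j < k ∧ (τ k : ℕ) < τ j ∧ (τ j : ℕ) < τ i ∧ (τ i : ℕ) < u

def PB {n : ℕ} (τ : Equiv.Perm (Fin n)) (u : ℕ) : Prop :=
  ∃ i j k : Fin n, i < j ∧ j < k ∧ (τ k : ℕ) < τ j ∧ (τ j : ℕ) < u ∧ u ≤ (τ i : ℕ)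

def PC {n : ℕ} (τ : Equiv.Perm (Fin n)) (u : ℕ) : Prop :=
  ∃ i j k : Fin n, i < j ∧ j < k ∧ (τ j : ℕ) < u ∧ u ≤ (τ k : ℕ) ∧ (τ k : ℕ) < τ i

/-- forbidden sites -/
def BA (n : ℕ) (τ : Equiv.Perm (Fin n)) (u : ℕ) : Prop := FB τ u ∨ PA τ u
def BB (n : ℕ) (τ : Equiv.Perm (Fin n)) (u : ℕ) : Prop := FB τ u ∨ PB τ u
def BC (n : ℕ) (τ : Equiv.Perm (Fin n)) (u : ℕ) : Prop := FB τ u ∨ PC τ u

/-- appending `x` kills the (old) site `y ≥ x` -/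
def KA {n : ℕ} (τ : Equiv.Perm (Fin n)) (x y : ℕ) : Prop :=
  ∃ i j : Fin n, i < j ∧ x ≤ (τ j : ℕ) ∧ (τ j : ℕ) < τ i ∧ (τ i : ℕ) < y

def KB {n : ℕ} (τ : Equiv.Perm (Fin n)) (x y : ℕ) : Prop :=
  ∃ i j : Fin n, i < j ∧ x ≤ (τ j : ℕ) ∧ (τ j : ℕ) < y ∧ y ≤ (τ i : ℕ)

/-- appending `r ≥ y` kills the site `y` -/
def KC {n : ℕ} (τ : Equiv.Perm (Fin n)) (y r : ℕ) : Prop :=
  ∃ i j : Fin n, i < j ∧ (τ j : ℕ) < y ∧ r ≤ (τ i : ℕ)

/-- X1A -/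
def S_XA1 : Prop :=
  (∀ (n : ℕ) (v : Fin (n + 1)) (τ : Equiv.Perm (Fin n)),
    VA (n + 1) (snocP v τ) ↔ VA n τ ∧ ¬ BA n τ v) ∧
  (∀ (m : ℕ) (v : Fin (m + 2)) (τ : Equiv.Perm (Fin (m + 1))), (v : ℕ) ∈ act BA m τ →
    ∀ w, w ∈ act BA (m + 1) (snocP v τ) ↔
      (w ∈ act BA m τ ∧ w < v ∧ w ≠ τ (Fin.last m)) ∨ w = v ∨
      ∃ u ∈ act BA m τ, (v : ℕ) ≤ u ∧ ¬ KA τ v u ∧ w = u + 1) ∧
  (∀ (n : ℕ) (v : Fin (n + 1)) (τ : Equiv.Perm (Fin n)) (x y : ℕ), x ≤ y → y ≤ n + 1 →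
    (KA (snocP v τ) x y ↔ (y ≤ v ∧ KA τ x y) ∨ (x ≤ v ∧ (v : ℕ) < y ∧ (KA τ x (y - 1) ∨ v + 2 ≤ y)) ∨
      ((v : ℕ) < x ∧ KA τ (x - 1) (y - 1)))) ∧
  (∀ (m : ℕ) (τ : Equiv.Perm (Fin (m + 1))), VA (m + 1) τ →
    (τ (Fin.last m) : ℕ) ∈ act BA m τ ∧
    ∀ x y, (τ (Fin.last m) : ℕ) < x → y ∈ act BA m τ → ¬ KA τ x y)

/-- X1B -/
def S_XB1 : Prop :=
  (∀ (n : ℕ) (v : Fin (n + 1)) (τ : Equiv.Perm (Fin n)),
    VB (n + 1) (snocP v τ) ↔ VB n τ ∧ ¬ BB n τ v) ∧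
  (∀ (m : ℕ) (v : Fin (m + 2)) (τ : Equiv.Perm (Fin (m + 1))), (v : ℕ) ∈ act BB m τ →
    ∀ w, w ∈ act BB (m + 1) (snocP v τ) ↔
      (w ∈ act BB m τ ∧ w < v ∧ w ≠ τ (Fin.last m)) ∨ w = v ∨
      ∃ u ∈ act BB m τ, (v : ℕ) ≤ u ∧ ¬ KB τ v u ∧ w = u + 1) ∧
  (∀ (n : ℕ) (v : Fin (n + 1)) (τ : Equiv.Perm (Fin n)) (x y : ℕ), x ≤ y → y ≤ n + 1 →
    (KB (snocP v τ) x y ↔ (y ≤ v ∧ KB τ x y) ∨ (x ≤ v ∧ (v : ℕ) < y ∧ (KB τ x (y - 1) ∨ y < n + 1)) ∨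
      ((v : ℕ) < x ∧ KB τ (x - 1) (y - 1)))) ∧
  (∀ (m : ℕ) (τ : Equiv.Perm (Fin (m + 1))), VB (m + 1) τ →
    (τ (Fin.last m) : ℕ) ∈ act BB m τ ∧
    ∀ x y, (τ (Fin.last m) : ℕ) < x → y ∈ act BB m τ → ¬ KB τ x y)

/-- X1C -/
def S_XC1 : Prop :=
  (∀ (n : ℕ) (v : Fin (n + 1)) (τ : Equiv.Perm (Fin n)),
    VC (n + 1) (snocP v τ) ↔ VC n τ ∧ ¬ BC n τ v) ∧
  (∀ (m : ℕ) (v : Fin (m + 2)) (τ : Equiv.Perm (Fin (m + 1))), (v : ℕ) ∈ act BC m τ →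
    ∀ w, w ∈ act BC (m + 1) (snocP v τ) ↔
      (w ∈ act BC m τ ∧ w ≤ v ∧ ¬ KC τ w v ∧ (w < v → w ≠ τ (Fin.last m))) ∨
      ∃ u ∈ act BC m τ, (v : ℕ) ≤ u ∧ w = u + 1) ∧
  (∀ (n : ℕ) (v : Fin (n + 1)) (τ : Equiv.Perm (Fin n)) (y q : ℕ), y ≤ q → q ≤ n + 1 →
    (KC (snocP v τ) y q ↔ (q ≤ v ∧ KC τ y q) ∨ (y ≤ v ∧ (v : ℕ) < q ∧ KC τ y (q - 1)) ∨
      ((v : ℕ) < y ∧ (q < n + 1 ∨ KC τ (y - 1) (q - 1))))) ∧
  (∀ (m : ℕ) (τ : Equiv.Perm (Fin (m + 1))) (y q : ℕ), y ∈ act BC m τ →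
    y ≤ τ (Fin.last m) → (τ (Fin.last m) : ℕ) ≤ q → ¬ KC τ y q) ∧
  (∀ (m : ℕ) (τ : Equiv.Perm (Fin (m + 1))) (y q : ℕ), (τ (Fin.last m) : ℕ) < y → y ≤ q →
    q < m + 1 → KC τ y q)

/-! ### block trees -/

/-- append a block (none if empty); the head of the list is the block nearest to the last value -/
def psh (b : ℕ) (bs : List ℕ) : List ℕ := if b = 0 then bs else b :: bs

def mrg : List ℕ → List ℕ
  | [] => [1]
  | b :: bs => (b + 1) :: bs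

def DA (f : List ℕ × ℕ → ℤ) : List ℕ → ℤ
  | [] => 0
  | b :: bs => ∑ c ∈ Icc 2 b, f (c :: bs, b + 2 - c) + f (mrg bs, b + 1) + DA f bs

/-- the tree of 3214 -/
def TA (f : List ℕ × ℕ → ℤ) : List ℕ × ℕ → ℤ
  | ([], _) => 0
  | (b :: bs, u) => f (b :: bs, u) + ∑ a ∈ Ico 1 u, f ((a + 1) :: psh (b - 1) bs, u - a) +
      DA f (b :: bs)

def DB (f : List ℕ × ℕ × Bool → ℤ) (e : ℕ) : List ℕ → ℤ
  | [] => 0
  | b :: bs => ∑ c ∈ Icc 1 b, f (c :: bs, b + 2 + e - c, false) + DB f e bs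

/-- the tree of 4213 -/
def TB (f : List ℕ × ℕ × Bool → ℤ) : List ℕ × ℕ × Bool → ℤ
  | ([], _, false) => 0
  | (b :: bs, u, false) => ∑ a ∈ range (u - 1), f ((a + 1) :: psh (b - 1) bs, u - a, false) +
      f (psh (u - 1) (psh (b - 1) bs), 1, true) + DB f 0 (b :: bs)
  | (bs, u, true) => ∑ a ∈ range (u - 1), f ((a + 1) :: bs, u - a, false) +
      f (psh (u - 1) bs, 1, true) + f (bs, 2, true) + DB f 1 bs

def DC {R : Type} [CommRing R] (f : List ℕ × ℕ × Bool → R) (t : ℕ) : List ℕ → R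
  | [] => 0
  | g :: w => ∑ c ∈ Icc 1 g, f (w, g - c + t, false) + DC f (g + t) w

/-- the tree of 4132 -/
def TC {R : Type} [CommRing R] (f : List ℕ × ℕ × Bool → R) : List ℕ × ℕ × Bool → R
  | (w, u, false) => ∑ u2 ∈ Icc 2 u, f (w, u2, false) + f (psh (u - 1) w, 1, true) + DC f (u + 1) w
  | (w, u, true) => ∑ u2 ∈ Icc 2 u, f (w, u2, false) + f (psh (u - 1) w, 1, true) +
      f (w, u + 1, true) + DC f (u + 2) w


/-- site trees = block trees -/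
def S_XA : Prop := ∀ n, cardV VA n = (TA^[n] fun _ => 1) ([1], 1)
def S_XB : Prop := ∀ n, cardV VB n = (TB^[n] fun _ => 1) ([], 1, true)
def S_XC : Prop := ∀ n, cardV VC n = ((TC^[n] fun _ => 1) ([], 1, true) : ℤ)

/-- the two block trees have the same number of nodes at every depth -/
def S_AB : Prop := ∀ n, (TA^[n] fun _ => 1) ([1], 1) = (TB^[n] fun _ => 1) ([], 1, true)

/-! ### generating functions -/

/-- generating function of the descendants of a node of the tree of 3214 -/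
noncomputable def gA (s : List ℕ × ℕ) : PowerSeries ℤ := PowerSeries.mk fun n => (TA^[n] fun _ => 1) s

noncomputable def gC (s : List ℕ × ℕ × Bool) : PowerSeries ℤ :=
  PowerSeries.mk fun n => ((TC^[n] fun _ => 1) s : ℤ)

noncomputable def FA : PowerSeries ℤ := 1 + PowerSeries.X * gA ([1], 1)
noncomputable def FC : PowerSeries ℤ := 1 + PowerSeries.X * gC ([], 1, true)

/-- the ring `ℤ[x]⟦z⟧` -/
abbrev Rx : Type := PowerSeries (Polynomial ℤ)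

/-- `x` -/
noncomputable def xx : Rx := PowerSeries.C Polynomial.X
/-- `ℤ⟦z⟧ → ℤ[x]⟦z⟧` -/
noncomputable def up : PowerSeries ℤ →+* Rx := PowerSeries.map Polynomial.C
/-- `x ↦ 1` -/
noncomputable def at1 : Rx →+* PowerSeries ℤ := PowerSeries.map (Polynomial.evalRingHom 1)

/-- the functional equation -/
def FE (F : PowerSeries ℤ) : Prop := ∃ a : Rx, at1 a = F ∧
  PowerSeries.X * xx * (1 - PowerSeries.X * xx) * a ^ 2 -
    up F * (1 - PowerSeries.X * xx) * (xx - 1 + PowerSeries.X) * a +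
    up F * (1 - PowerSeries.X) * (xx - 1) = 0

/-- UNIQ -/
def S_uniq : Prop := ∀ F G : PowerSeries ℤ, PowerSeries.constantCoeff F = 1 →
  PowerSeries.constantCoeff G = 1 → FE F → FE G → F = G

/-- the factor of an inner block; `thA 0 = 1` -/
noncomputable def thA (b : ℕ) : PowerSeries ℤ := if b = 0 then 1 else
  PowerSeries.invOfUnit FA 1 *
    ((1 - PowerSeries.X) * gA ([b], 1) + PowerSeries.X * gA ([b + 1], 1))

/-- A1, the product formula -/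
def S_A1 : Prop := ∀ (b : ℕ) (bs : List ℕ) (u : ℕ), 1 ≤ b → 1 ≤ u → (∀ c ∈ bs, 1 ≤ c) →
  gA (b :: bs, u) = (bs.map thA).prod * gA ([b], u)

/-- `ℤ⟦z⟧⟦ξ⟧` -/
abbrev Rxi : Type := PowerSeries (PowerSeries ℤ)
noncomputable def zz : Rxi := PowerSeries.C PowerSeries.X
noncomputable def Th : Rxi := PowerSeries.mk fun b => thA b

/-- A2, the quadratic equation of `Θ` -/
def S_A2 : Prop :=
  PowerSeries.C FA * (1 - PowerSeries.X) * Th *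
    (zz * (PowerSeries.X * (1 - zz) + zz) * Th - (PowerSeries.X * (1 - zz) + zz ^ 2)) +
    PowerSeries.X * (1 - zz) = 0

/-- A3, evaluation at `ξ = z (x - 1) / (1 - z)` -/
def S_ev : Prop := ∃ Φ : Rxi →+* Rx, (∀ f, Φ (PowerSeries.C f) = up f) ∧
  (1 - PowerSeries.X) * Φ PowerSeries.X = PowerSeries.X * (xx - 1) ∧
  ∀ f, at1 (Φ f) = PowerSeries.constantCoeff f

def S_FEA : Prop := FE FA

/-! the tree of 4132 -/

/-- weight: `x` to the number of the sites different from the top site -/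
noncomputable def wt (s : List ℕ × ℕ × Bool) : Polynomial ℤ :=
  Polynomial.X ^ (s.1.sum + (if s.2.2 then 1 else 0) + s.2.1 - 1)

noncomputable def gx (s : List ℕ × ℕ × Bool) : Rx := PowerSeries.mk fun n => (TC^[n] wt) s

noncomputable def pp (h : ℕ) : Rx := gx (psh h [], 1, false)

/-- `∑ a_m P_m` where `a = ∑ a_m x ^ m` -/
noncomputable def star {R : Type} [CommRing R] (a : Rx) (P : ℕ → PowerSeries R) : PowerSeries R :=
  PowerSeries.mk fun n => ∑ p ∈ antidiagonal n,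
    (PowerSeries.coeff p.1 a).sum fun m c => (c : R) * PowerSeries.coeff p.2 (P m)

/-- C1a, first passage -/
def S_C1a : Prop := ∀ h, pp h = xx ^ h * pp 0 +
  PowerSeries.X * star (pp 0) (fun m => ∑ j ∈ Icc (m + 1) (m + h), pp j)

/-- `∑ z ^ k p_k` -/
noncomputable def dsum (p : ℕ → Rx) : Rx :=
  PowerSeries.mk fun n => ∑ k ∈ range (n + 1), PowerSeries.coeff (n - k) (p k)

/-- C1b -/
def S_C1b : Prop := at1 (pp 0) = FC ∧
  (1 - PowerSeries.X * xx) * pp 0 =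
    1 - PowerSeries.X + PowerSeries.X * (1 - PowerSeries.X * xx) * dsum pp

/-- C2a, the kernel method -/
def S_C2a : Prop := ∀ (p : ℕ → Rx), PowerSeries.constantCoeff (at1 (p 0)) = 1 →
  (∀ h, p h = xx ^ h * p 0 +
    PowerSeries.X * star (p 0) (fun m => ∑ j ∈ Icc (m + 1) (m + h), p j)) →
  ∃ y : PowerSeries ℤ, ∀ h, (xx - 1 - PowerSeries.X * xx * p 0) * p h =
    p 0 * ((xx - 1 - PowerSeries.X * xx * p 0) * up y ^ h + (xx - 1) * (xx ^ h - up y ^ h))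

/-- C2b -/
def S_C2b : Prop := ∀ (p : ℕ → Rx) (y : PowerSeries ℤ),
  PowerSeries.constantCoeff (at1 (p 0)) = 1 →
  (∀ h, (xx - 1 - PowerSeries.X * xx * p 0) * p h =
    p 0 * ((xx - 1 - PowerSeries.X * xx * p 0) * up y ^ h + (xx - 1) * (xx ^ h - up y ^ h))) →
  (1 - PowerSeries.X * xx) * p 0 =
    1 - PowerSeries.X + PowerSeries.X * (1 - PowerSeries.X * xx) * dsum p →
  FE (at1 (p 0))

def S_FEC : Prop := FE FC

end Pool.Agent.H109.GW
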