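import Pool.Agent.H109.GW.Stm

set_option autoImplicit false

/-! Fishburn permutations avoiding 3214: the tree of the sites is the block tree. -/

namespace Pool.Agent.H109.GW

open Finset Pool.Agent.R121 Pool.Agent.R121.Fish

attribute [local instance 10] Classical.propDecidable

namespace XA2

/-- the number of the active sites above the block which contains the `k`-th site -/
def bdf : ℕ → List ℕ → ℕ → ℕ
  | u, [], _ => u
  | u, b :: bs, k => if k < u + b then u else bdf (u + b) bs k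

/-- the child for the sites in the blocks -/
def nxt : ℕ → List ℕ → ℕ → List ℕ × ℕ
  | _, [], _ => ([], 0)
  | s, b :: bs, k => if k < s + b then
      (if s + b - k = 1 then (mrg bs, b + 1) else ((s + b - k) :: bs, b + 2 - (s + b - k)))
      else nxt (s + b) bs k

/-- the child -/
def ch (s : List ℕ × ℕ) (k : ℕ) : List ℕ × ℕ :=
  if k < s.2 then
    (if k + 1 = s.2 then s else ((s.2 - k) :: psh (s.1.headI - 1) s.1.tail, k + 1))
  else nxt s.2 s.1 k

lemma bdf_shift (L : List ℕ) : ∀ t k p : ℕ, bdf (t + p) L (k + p) = bdf t L k + p := by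
  induction L with
  | nil => intro t k p; rfl
  | cons b bs ih =>
    intro t k p
    simp only [bdf]
    have h := ih (t + b) k p
    rw [show t + b + p = t + p + b by omega] at h
    rw [h]
    split_ifs <;> omega

lemma bdf_ge (L : List ℕ) : ∀ t k : ℕ, t ≤ bdf t L k := by
  induction L with
  | nil => intro t k; exact le_rfl
  | cons b bs ih =>
    intro t k
    simp only [bdf]
    have h := ih (t + b) k
    split_ifs <;> omega

lemma psh_sum (c : ℕ) (bs : List ℕ) : (psh c bs).sum = c + bs.sum := by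
  unfold psh
  split_ifs with h
  · rw [h]; simp
  · simp

lemma mrg_sum (bs : List ℕ) : (mrg bs).sum = bs.sum + 1 := by
  cases bs with
  | nil => simp [mrg]
  | cons b bs => simp [mrg]; omega

lemma dec (L : List ℕ) : ∀ s0 k : ℕ, s0 ≤ k → k < s0 + L.sum → ∃ (b' : ℕ) (bs' : List ℕ) (s : ℕ),
    s0 ≤ s ∧ s ≤ k ∧ k < s + b' ∧ (∀ y ∈ bs', y ∈ L) ∧ s + b' + bs'.sum = s0 + L.sum ∧
    nxt s0 L k = (if s + b' - k = 1 then (mrg bs', b' + 1) else
      ((s + b' - k) :: bs', b' + 2 - (s + b' - k))) ∧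
    ∀ k', s ≤ k' → bdf s0 L k' = bdf s (b' :: bs') k' := by
  induction L with
  | nil =>
    intro s0 k h1 h2
    simp at h2
    omega
  | cons b bs ih =>
    intro s0 k h1 h2
    rw [List.sum_cons] at h2
    by_cases h3 : k < s0 + b
    · refine ⟨b, bs, s0, le_rfl, h1, h3, fun y hy => List.mem_cons_of_mem _ hy, ?_, ?_, ?_⟩
      · rw [List.sum_cons]; omega
      · rw [nxt, if_pos h3]
      · intro k' _
        rfl
    · obtain ⟨b', bs', s, e1, e2, e3, e4, e5, e6, e7⟩ := ih (s0 + b) k (by omega) (by omega)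
      refine ⟨b', bs', s, by omega, e2, e3, fun y hy => List.mem_cons_of_mem _ (e4 y hy), ?_, ?_, ?_⟩
      · rw [List.sum_cons]; omega
      · rw [nxt, if_neg h3, e6]
      · intro k' hk'
        rw [← e7 k' hk', bdf, if_neg (by omega)]

/-! ### the sum -/

lemma sum_nxt (f : List ℕ × ℕ → ℤ) (L : List ℕ) : (∀ y ∈ L, 1 ≤ y) → ∀ u : ℕ,
    ∑ x ∈ range L.sum, f (nxt u L (u + x)) = DA f L := by
  induction L with
  | nil => intro _ u; simp [DA]
  | cons b bs ih =>
    intro hpos u
    have hb : 1 ≤ b := hpos b (by simp)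
    have hbs : ∀ y ∈ bs, 1 ≤ y := fun y hy => hpos y (by simp [hy])
    rw [List.sum_cons, Finset.sum_range_add, DA]
    have h2 : ∑ x ∈ range bs.sum, f (nxt u (b :: bs) (u + (b + x))) = DA f bs := by
      rw [← ih hbs (u + b)]
      refine Finset.sum_congr rfl fun x _ => ?_
      rw [nxt, if_neg (by omega), show u + (b + x) = u + b + x by omega]
    rw [h2]
    have h1 : ∑ x ∈ range b, f (nxt u (b :: bs) (u + x)) =
        ∑ c ∈ Icc 2 b, f (c :: bs, b + 2 - c) + f (mrg bs, b + 1) := by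
      rw [← Finset.sum_range_reflect, Finset.range_eq_Ico,
        Finset.sum_eq_sum_Ico_succ_bot (by omega : 0 < b)]
      have e1 : f (nxt u (b :: bs) (u + (b - 1 - 0))) = f (mrg bs, b + 1) := by
        rw [nxt, if_pos (by omega), if_pos (by omega)]
      have e2 : ∑ x ∈ Ico (0 + 1) b, f (nxt u (b :: bs) (u + (b - 1 - x))) =
          ∑ c ∈ Icc 2 b, f (c :: bs, b + 2 - c) := by
        have e3 : Icc 2 b = Ico (0 + 1 + 1) (b + 1) := by
          ext z; simp only [mem_Icc, mem_Ico]; omega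
        rw [e3, ← Finset.sum_Ico_add' (fun c => f (c :: bs, b + 2 - c)) (0 + 1) b 1]
        refine Finset.sum_congr rfl fun x hx => ?_
        rw [mem_Ico] at hx
        rw [nxt, if_pos (by omega), if_neg (by omega)]
        have e4 : u + b - (u + (b - 1 - x)) = x + 1 := by omega
        rw [e4]
      rw [e1, e2, add_comm]
    rw [h1]

lemma sum_ch (f : List ℕ × ℕ → ℤ) (b : ℕ) (bs : List ℕ) (u : ℕ) (hpos : ∀ y ∈ b :: bs, 1 ≤ y)
    (hu : 1 ≤ u) :
    ∑ k ∈ range ((b :: bs).sum + u), f (ch (b :: bs, u) k) = TA f (b :: bs, u) := by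
  rw [add_comm, Finset.sum_range_add, TA]
  have h2 : ∑ x ∈ range (b :: bs).sum, f (ch (b :: bs, u) (u + x)) = DA f (b :: bs) := by
    rw [← sum_nxt f (b :: bs) hpos u]
    refine Finset.sum_congr rfl fun x _ => ?_
    rw [ch, if_neg (by simp)]
  rw [h2]
  have h1 : ∑ x ∈ range u, f (ch (b :: bs, u) x) =
      f (b :: bs, u) + ∑ a ∈ Ico 1 u, f ((a + 1) :: psh (b - 1) bs, u - a) := by
    rw [← Finset.sum_range_reflect, Finset.range_eq_Ico,
      Finset.sum_eq_sum_Ico_succ_bot (by omega : 0 < u)]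
    have e1 : f (ch (b :: bs, u) (u - 1 - 0)) = f (b :: bs, u) := by
      rw [ch, if_pos (by simp only; omega), if_pos (by simp only; omega)]
    have e2 : ∑ x ∈ Ico (0 + 1) u, f (ch (b :: bs, u) (u - 1 - x)) =
        ∑ a ∈ Ico 1 u, f ((a + 1) :: psh (b - 1) bs, u - a) := by
      refine Finset.sum_congr rfl fun x hx => ?_
      rw [mem_Ico] at hx
      rw [ch, if_pos (by simp only; omega), if_neg (by simp only; omega)]
      simp only [List.headI, List.tail]
      rw [show u - (u - 1 - x) = x + 1 by omega, show u - 1 - x + 1 = u - x by omega]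
    rw [e1, e2]
  rw [h1]

/-! ### ranks -/

lemma cnt (A : Finset ℕ) {t : ℕ} (ht : t ≤ A.card) :
    (A.filter fun w => ab A w < t).card = t := by
  have h1 : (A.filter fun w => ab A w < t).image (ab A) = range t := by
    ext z
    simp only [mem_image, mem_filter, mem_range]
    constructor
    · rintro ⟨x, ⟨_, h2⟩, rfl⟩
      exact h2
    · intro hz
      have h3 : z ∈ A.image (ab A) := by
        rw [(sum_ab A).2.1, mem_range]
        omega
      obtain ⟨x, hx, rfl⟩ := mem_image.1 h3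
      exact ⟨x, ⟨hx, hz⟩, rfl⟩
  have h2 := congrArg Finset.card h1
  rw [card_range, card_image_of_injOn] at h2
  · exact h2
  · intro x hx y hy hxy
    have hx' := mem_filter.1 (mem_coe.1 hx)
    have hy' := mem_filter.1 (mem_coe.1 hy)
    exact (sum_ab A).1 (mem_coe.2 hx'.1) (mem_coe.2 hy'.1) hxy

lemma ab_newS_low {S B : Finset ℕ} {r : ℕ} (hS : ∀ x ∈ S, x < r) (hr : r ∈ B) {x : ℕ} (hx : x < r) :
    ab (newS S B r) x = ab S x + (ab B r + 2) := by
  have h1 : (newS S B r).filter (fun w => x < w) = newS (S.filter fun w => x < w) B r := by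
    ext w
    simp only [mem_filter, mem_newS]
    constructor
    · rintro ⟨h1 | h1 | h1, h2⟩
      · exact Or.inl ⟨h1, h2⟩
      · exact Or.inr (Or.inl h1)
      · exact Or.inr (Or.inr h1)
    · rintro (h1 | h1 | ⟨u, h1, h2, h3⟩)
      · exact ⟨Or.inl h1.1, h1.2⟩
      · exact ⟨Or.inr (Or.inl h1), by omega⟩
      · exact ⟨Or.inr (Or.inr ⟨u, h1, h2, h3⟩), by omega⟩
  have h2 : ab (newS S B r) x = (newS (S.filter fun w => x < w) B r).card := by
    rw [← h1]; rfl
  rw [h2, card_newS (fun y hy => hS y (mem_filter.1 hy).1) hr]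
  rfl

lemma ab_split {A : Finset ℕ} {r : ℕ} (hr : r ∈ A) {x : ℕ} (hx : x < r) :
    ab A x = ab (A.filter fun w => w < r) x + (ab A r + 1) := by
  rw [← card_up hr]
  unfold ab
  rw [← card_union_of_disjoint]
  · congr 1
    ext w
    simp only [mem_filter, mem_union]
    constructor
    · rintro ⟨h1, h2⟩
      by_cases h3 : w < r
      · exact Or.inl ⟨⟨h1, h3⟩, h2⟩
      · exact Or.inr ⟨h1, by omega⟩
    · rintro (⟨⟨h1, h2⟩, h3⟩ | ⟨h1, h2⟩)
      · exact ⟨h1, h3⟩
      · exact ⟨h1, by omega⟩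
  · rw [Finset.disjoint_left]
    intro w
    simp only [mem_filter]
    rintro ⟨⟨_, h2⟩, _⟩ ⟨_, h4⟩
    omega

lemma ab_erase {T : Finset ℕ} {v x : ℕ} (hv : v ∈ T) :
    ab (T.erase v) x + (if x < v then 1 else 0) = ab T x := by
  unfold ab
  rw [filter_erase]
  split_ifs with h
  · exact card_erase_add_one (mem_filter.2 ⟨hv, h⟩)
  · rw [erase_eq_of_notMem]
    · rfl
    · intro h2
      exact h (mem_filter.1 h2).2

lemma mem_psh {c y : ℕ} {bs : List ℕ} (h : y ∈ psh c bs) : (y = c ∧ 1 ≤ c) ∨ y ∈ bs := by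
  unfold psh at h
  split_ifs at h with h1
  · exact Or.inr h
  · rcases List.mem_cons.1 h with h2 | h2
    · exact Or.inl ⟨h2, by omega⟩
    · exact Or.inr h2

lemma mem_mrg {y : ℕ} {bs : List ℕ} (h : y ∈ mrg bs) : 1 ≤ y ∨ y ∈ bs := by
  cases bs with
  | nil => simp [mrg] at h; omega
  | cons b bs =>
    rw [mrg] at h
    rcases List.mem_cons.1 h with h2 | h2
    · left; omega
    · right; exact List.mem_cons_of_mem _ h2

/-! ### the step -/

structure RepA (A : Finset ℕ) (v0 : ℕ) (K : ℕ → ℕ → Prop) (s : List ℕ × ℕ) : Prop where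
  pos : ∀ y ∈ s.1, 1 ≤ y
  upos : 1 ≤ s.2
  hd : ∃ b bs, s.1 = b :: bs ∧ (bs = [] ∨ 2 ≤ b)
  abv : ab A v0 = s.2
  card : A.card = s.1.sum + s.2
  rel : ∀ x ∈ A, ∀ y ∈ A, x ≤ y → x ≤ v0 → (K x y ↔ ab A y + 1 < bdf s.2 s.1 (ab A x))

/-- the case of a site above the last value -/
lemma step_hi {A A' : Finset ℕ} {v0 r : ℕ} {K K' : ℕ → ℕ → Prop} {b : ℕ} {bs : List ℕ} {u : ℕ}
    (h : RepA A v0 K (b :: bs, u)) (hv0 : v0 ∈ A) (h4 : ∀ x y, v0 < x → y ∈ A → ¬ K x y)
    (hr : r ∈ A)
    (hA' : ∀ w, w ∈ A' ↔ (w ∈ A ∧ w < r ∧ w ≠ v0) ∨ w = r ∨ ∃ u ∈ A, r ≤ u ∧ ¬ K r u ∧ w = u + 1)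
    (hK' : ∀ x ∈ A', ∀ y ∈ A', x ≤ y → (K' x y ↔ (y ≤ r ∧ K x y) ∨
      (x ≤ r ∧ r < y ∧ (K x (y - 1) ∨ r + 2 ≤ y)) ∨ (r < x ∧ K (x - 1) (y - 1))))
    (hrv : v0 < r) : RepA A' r K' (ch (b :: bs, u) (ab A r)) := by
  obtain ⟨pos, upos, hd, abv, card, rel⟩ := h
  simp only at pos upos hd abv card rel
  obtain ⟨b1, bs1, hd1, hd2⟩ := hd
  simp only [List.cons.injEq] at hd1
  obtain ⟨rfl, rfl⟩ := hd1
  have hb1 : 1 ≤ b := pos b (by simp)
  have hku : ab A r < u := by
    rw [← abv]
    exact ab_lt hr hrv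
  set k := ab A r with hk
  set T := A.filter fun w => w < r with hT
  have hA2 : A' = newS (T.erase v0) A r := by
    ext w
    rw [hA', mem_newS]
    simp only [mem_erase, hT, mem_filter]
    constructor
    · rintro (⟨h1, h2, h3⟩ | h1 | ⟨y, h1, h2, _, h3⟩)
      · exact Or.inl ⟨h3, h1, h2⟩
      · exact Or.inr (Or.inl h1)
      · exact Or.inr (Or.inr ⟨y, h1, h2, h3⟩)
    · rintro (⟨h1, h2, h3⟩ | h1 | ⟨y, h1, h2, h3⟩)
      · exact Or.inl ⟨h2, h3, h1⟩
      · exact Or.inr (Or.inl h1)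
      · exact Or.inr (Or.inr ⟨y, h1, h2, h4 r y hrv h1, h3⟩)
  have hv0T : v0 ∈ T := mem_filter.2 ⟨hv0, hrv⟩
  have hSlt : ∀ x ∈ T.erase v0, x < r := fun x hx => (mem_filter.1 (mem_erase.1 hx).2).2
  have hTc : T.card + 1 + k = A.card := card_below hr
  have hTe : (T.erase v0).card + 1 = T.card := card_erase_add_one hv0T
  have e1 : ∀ y, r ≤ y → ab A' (y + 1) = ab A y := by
    intro y hy
    rw [hA2, ab_newS_hi hSlt hy]
  have e2 : ab A' r = k + 1 := by
    rw [hA2, ab_newS_v hSlt hr]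
  have e3 : ∀ x, v0 < x → x < r → ab A' x = ab A x + 1 := by
    intro x h1 h2
    have h3 := ab_erase (x := x) hv0T
    rw [if_neg (by omega)] at h3
    rw [hA2, ab_newS_low hSlt hr h2, ab_split hr h2, ← h3]
    omega
  have e4 : ∀ x, x < v0 → ab A' x = ab A x := by
    intro x h1
    have h3 := ab_erase (x := x) hv0T
    rw [if_pos h1] at h3
    rw [hA2, ab_newS_low hSlt hr (by omega), ab_split hr (show x < r by omega), ← h3]
    omega
  have e5 : A'.card = A.card := by
    rw [hA2, card_newS hSlt hr]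
    omega
  -- the elements of the new set
  have hmem : ∀ w ∈ A', (w ∈ A ∧ w < v0) ∨ (w ∈ A ∧ v0 < w ∧ w < r) ∨ w = r ∨
      ∃ y ∈ A, r ≤ y ∧ w = y + 1 := by
    intro w hw
    rcases (hA' w).1 hw with ⟨h1, h2, h3⟩ | h1 | ⟨y, h1, h2, _, h3⟩
    · rcases Nat.lt_or_ge w v0 with h5 | h5
      · exact Or.inl ⟨h1, h5⟩
      · exact Or.inr (Or.inl ⟨h1, by omega, h2⟩)
    · exact Or.inr (Or.inr (Or.inl h1))
    · exact Or.inr (Or.inr (Or.inr ⟨y, h1, h2, h3⟩))
  have habA : ∀ x ∈ A, x < v0 → u < ab A x := by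
    intro x hx h1
    rw [← abv]
    exact ab_lt hv0 h1
  have habc : ∀ x ∈ A, ab A x < (b :: bs).sum + u := by
    intro x hx
    rw [← card]
    exact ab_lt_card hx
  -- dichotomy
  have hbd : ∀ x ∈ A, x < v0 → (bdf u (b :: bs) (ab A x) = u ∧ ab A x < u + b ∧ 2 ≤ b) ∨
      (u + b ≤ bdf u (b :: bs) (ab A x) ∧ u + b ≤ ab A x ∧ 2 ≤ b) := by
    intro x hx h1
    have h2 := habA x hx h1
    have h3 := habc x hx
    rw [List.sum_cons] at h3
    have h5 : bs = [] ∨ 2 ≤ b := hd2
    by_cases h6 : ab A x < u + b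
    · left
      refine ⟨by rw [bdf, if_pos h6], h6, by omega⟩
    · right
      refine ⟨?_, by omega, ?_⟩
      · rw [bdf, if_neg h6]
        exact bdf_ge _ _ _
      · rcases h5 with h5 | h5
        · subst h5
          simp at h3
          omega
        · exact h5
  -- the new relation
  have hKlo : ∀ x ∈ A', ∀ y ∈ A', x ≤ y → y ≤ r → (K' x y ↔ K x y) := by
    intro x hx y hy hxy hyr
    rw [hK' x hx y hy hxy]
    constructor
    · rintro (⟨_, h1⟩ | ⟨_, h1, _⟩ | ⟨h1, _⟩)
      · exact h1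
      · omega
      · omega
    · intro h1
      exact Or.inl ⟨hyr, h1⟩
  have hKhi : ∀ x ∈ A', ∀ y ∈ A, y + 1 ∈ A' → x ≤ r → r ≤ y →
      (K' x (y + 1) ↔ K x r ∨ ab A y < k) := by
    intro x hx y hyA hy hxr hry
    rw [hK' x hx (y + 1) hy (by omega), hk, ab_lt_iff hr hyA, Nat.add_sub_cancel]
    constructor
    · rintro (⟨h1, _⟩ | ⟨_, _, h1 | h1⟩ | ⟨h1, _⟩)
      · omega
      · rcases Nat.eq_or_lt_of_le hry with h2 | h2
        · left; rw [h2]; exact h1
        · exact Or.inr h2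
      · right; omega
      · omega
    · rintro (h1 | h1)
      · rcases Nat.eq_or_lt_of_le hry with h2 | h2
        · exact Or.inr (Or.inl ⟨hxr, by omega, Or.inl (by rw [← h2]; exact h1)⟩)
        · exact Or.inr (Or.inl ⟨hxr, by omega, Or.inr (by omega)⟩)
      · exact Or.inr (Or.inl ⟨hxr, by omega, Or.inr (by omega)⟩)
  have hle : ∀ y ∈ A, r ≤ y → ab A y ≤ k := by
    intro y hy hry
    rcases Nat.eq_or_lt_of_le hry with h2 | h2
    · rw [hk, h2]
    · exact (ab_lt hy h2).le
  by_cases hk1 : k + 1 = u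
  · have hch : ch (b :: bs, u) k = (b :: bs, u) := by
      rw [ch, if_pos (by simpa using hku), if_pos (by simpa using hk1)]
    rw [hch]
    refine ⟨pos, upos, ⟨b, bs, rfl, hd2⟩, by rw [e2]; exact hk1, by rw [e5, card], ?_⟩
    intro x hx y hy hxy hxr
    simp only
    rcases hmem x hx with ⟨hxA, hx1⟩ | ⟨hxA, hx1, hx2⟩ | hx1 | ⟨x', hx1, hx2, hx3⟩
    · have hD := hbd x hxA hx1
      have hR := rel x hxA r hr (by omega) (by omega)
      rw [e4 x hx1]
      rcases hmem y hy with ⟨hyA, hy1⟩ | ⟨hyA, hy1, hy2⟩ | hy1 | ⟨y', hy1, hy2, hy3⟩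
      · rw [hKlo x hx y hy hxy (by omega), e4 y hy1]
        exact rel x hxA y hyA hxy (by omega)
      · have h5 := ab_lt hyA hy1
        have h6 := ab_lt hr hy2
        omega
      · rw [hKlo x hx y hy hxy (by omega), hy1, e2, hR]
        omega
      · subst hy3
        have h5 := hle y' hy1 hy2
        rw [hKhi x hx y' hy1 hy hxr hy2, hR, e1 y' hy2]
        omega
    · have h5 := ab_lt hxA hx1
      have h6 := ab_lt hr hx2
      omega
    · have hD : bdf u (b :: bs) (k + 1) = u := by rw [bdf, if_pos (by omega)]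
      have hR : ¬ K r r := h4 r r hrv hr
      rcases hmem y hy with ⟨hyA, hy1⟩ | ⟨hyA, hy1, hy2⟩ | hy1 | ⟨y', hy1, hy2, hy3⟩
      · omega
      · omega
      · rw [hKlo x hx y hy hxy (by omega), hy1, hx1, e2, hD]
        constructor
        · intro h5; exact absurd h5 hR
        · intro h5; omega
      · subst hy3
        have h5 := hle y' hy1 hy2
        rw [hKhi x hx y' hy1 hy hxr hy2, hx1, e2, hD, e1 y' hy2]
        constructor
        · rintro (h6 | h6)
          · exact absurd h6 hR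
          · omega
        · intro h6; right; omega
    · omega
  · have hch : ch (b :: bs, u) k = ((u - k) :: psh (b - 1) bs, k + 1) := by
      rw [ch, if_pos (by simpa using hku), if_neg (by simpa using hk1)]
      rfl
    rw [hch]
    refine ⟨?_, by simp only; omega, ⟨u - k, psh (b - 1) bs, rfl, Or.inr (by omega)⟩,
      by rw [e2], ?_, ?_⟩
    · simp only
      intro y hy
      rcases List.mem_cons.1 hy with h5 | h5
      · omega
      · rcases mem_psh h5 with h6 | h6
        · omega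
        · exact pos y (List.mem_cons_of_mem _ h6)
    · simp only
      rw [e5, card, List.sum_cons, List.sum_cons, psh_sum]
      omega
    intro x hx y hy hxy hxr
    simp only
    rcases hmem x hx with ⟨hxA, hx1⟩ | ⟨hxA, hx1, hx2⟩ | hx1 | ⟨x', hx1, hx2, hx3⟩
    · have hD := hbd x hxA hx1
      have hxu := habA x hxA hx1
      have hR := rel x hxA r hr (by omega) (by omega)
      have hb2 : 2 ≤ b := by omega
      have hD' : (bdf (k + 1) ((u - k) :: psh (b - 1) bs) (ab A x) = u + 1 ∧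
          bdf u (b :: bs) (ab A x) = u) ∨
          (bdf (k + 1) ((u - k) :: psh (b - 1) bs) (ab A x) = bdf u (b :: bs) (ab A x) ∧
          u + b ≤ bdf u (b :: bs) (ab A x)) := by
        have h5 : bdf (k + 1) ((u - k) :: psh (b - 1) bs) (ab A x) =
            if ab A x < u + b then u + 1 else bdf (u + b) bs (ab A x) := by
          rw [bdf, if_neg (by omega), psh, if_neg (by omega), bdf,
            show k + 1 + (u - k) + (b - 1) = u + b by omega, show k + 1 + (u - k) = u + 1 by omega]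
        rw [h5]
        by_cases h6 : ab A x < u + b
        · left
          rw [if_pos h6, bdf, if_pos h6]
          exact ⟨rfl, rfl⟩
        · right
          rw [if_neg h6, bdf, if_neg h6]
          exact ⟨rfl, bdf_ge _ _ _⟩
      rw [e4 x hx1]
      rcases hmem y hy with ⟨hyA, hy1⟩ | ⟨hyA, hy1, hy2⟩ | hy1 | ⟨y', hy1, hy2, hy3⟩
      · have h5 := rel x hxA y hyA hxy (by omega)
        have h6 := habA y hyA hy1
        rw [hKlo x hx y hy hxy (by omega), e4 y hy1, h5]
        omega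
      · have h5 := rel x hxA y hyA hxy (by omega)
        have h6 := ab_lt hyA hy1
        rw [hKlo x hx y hy hxy (by omega), e3 y hy1 hy2, h5]
        omega
      · rw [hKlo x hx y hy hxy (by omega), hy1, e2, hR]
        omega
      · subst hy3
        have h5 := hle y' hy1 hy2
        rw [hKhi x hx y' hy1 hy hxr hy2, hR, e1 y' hy2]
        omega
    · have h7 := ab_lt hxA hx1
      have hD : bdf (k + 1) ((u - k) :: psh (b - 1) bs) (ab A x + 1) = k + 1 := by
        rw [bdf, if_pos (by omega)]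
      rw [e3 x hx1 hx2, hD]
      rcases hmem y hy with ⟨hyA, hy1⟩ | ⟨hyA, hy1, hy2⟩ | hy1 | ⟨y', hy1, hy2, hy3⟩
      · omega
      · have h6 := ab_lt hr hy2
        rw [hKlo x hx y hy hxy (by omega), e3 y hy1 hy2]
        constructor
        · intro h5; exact absurd h5 (h4 x y hx1 hyA)
        · intro h5; omega
      · rw [hKlo x hx y hy hxy (by omega), hy1, e2]
        constructor
        · intro h5; exact absurd h5 (h4 x r hx1 hr)
        · intro h5; omega
      · subst hy3
        have h5 := hle y' hy1 hy2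
        rw [hKhi x hx y' hy1 hy hxr hy2, e1 y' hy2]
        constructor
        · rintro (h6 | h6)
          · exact absurd h6 (h4 x r hx1 hr)
          · omega
        · intro h6; right; omega
    · have hD : bdf (k + 1) ((u - k) :: psh (b - 1) bs) (k + 1) = k + 1 := by
        rw [bdf, if_pos (by omega)]
      have hR : ¬ K r r := h4 r r hrv hr
      rcases hmem y hy with ⟨hyA, hy1⟩ | ⟨hyA, hy1, hy2⟩ | hy1 | ⟨y', hy1, hy2, hy3⟩
      · omega
      · omega
      · rw [hKlo x hx y hy hxy (by omega), hy1, hx1, e2, hD]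
        constructor
        · intro h5; exact absurd h5 hR
        · intro h5; omega
      · subst hy3
        have h5 := hle y' hy1 hy2
        rw [hKhi x hx y' hy1 hy hxr hy2, hx1, e2, hD, e1 y' hy2]
        constructor
        · rintro (h6 | h6)
          · exact absurd h6 hR
          · omega
        · intro h6; right; omega
    · omega

/-- the case of a site which is not above the last value -/
lemma step_lo {A A' : Finset ℕ} {v0 r : ℕ} {K K' : ℕ → ℕ → Prop} {L : List ℕ} {u : ℕ}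
    (h : RepA A v0 K (L, u)) (hv0 : v0 ∈ A) (hK0 : ∀ x, ¬ K x x) (hr : r ∈ A)
    (hA' : ∀ w, w ∈ A' ↔ (w ∈ A ∧ w < r ∧ w ≠ v0) ∨ w = r ∨ ∃ u ∈ A, r ≤ u ∧ ¬ K r u ∧ w = u + 1)
    (hK' : ∀ x ∈ A', ∀ y ∈ A', x ≤ y → (K' x y ↔ (y ≤ r ∧ K x y) ∨
      (x ≤ r ∧ r < y ∧ (K x (y - 1) ∨ r + 2 ≤ y)) ∨ (r < x ∧ K (x - 1) (y - 1))))
    (hrv : r ≤ v0) : RepA A' r K' (ch (L, u) (ab A r)) := by
  obtain ⟨pos, upos, hd, abv, card, rel⟩ := h
  simp only at pos upos hd abv card rel
  have huk : u ≤ ab A r := by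
    rw [← abv]
    rcases Nat.eq_or_lt_of_le hrv with h1 | h1
    · rw [h1]
    · exact (ab_lt hv0 h1).le
  have hkc : ab A r < u + L.sum := by
    have := ab_lt_card hr
    omega
  obtain ⟨b', bs', s, d1, d2, d3, d4, d5, d6, d7⟩ := dec L u (ab A r) huk hkc
  set k := ab A r with hk
  set T := A.filter fun w => w < r with hT
  set B := A.filter fun w => ¬ K r w with hB
  have hrB : r ∈ B := mem_filter.2 ⟨hr, hK0 r⟩
  have hKr : ∀ y ∈ A, r ≤ y → (K r y ↔ ab A y + 1 < s) := by
    intro y hy hry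
    rw [rel r hr y hy hry hrv, ← hk, d7 k d2, bdf, if_pos d3]
  have hA2 : A' = newS T B r := by
    ext w
    rw [hA', mem_newS]
    simp only [hT, hB, mem_filter]
    constructor
    · rintro (⟨h1, h2, h3⟩ | h1 | ⟨y, h1, h2, h3, h4⟩)
      · exact Or.inl ⟨h1, h2⟩
      · exact Or.inr (Or.inl h1)
      · exact Or.inr (Or.inr ⟨y, ⟨h1, h3⟩, h2, h4⟩)
    · rintro (⟨h1, h2⟩ | h1 | ⟨y, ⟨h1, h3⟩, h2, h4⟩)
      · exact Or.inl ⟨h1, h2, by omega⟩
      · exact Or.inr (Or.inl h1)
      · exact Or.inr (Or.inr ⟨y, h1, h2, h3, h4⟩)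
  have hSlt : ∀ x ∈ T, x < r := fun x hx => (mem_filter.1 hx).2
  have hTc : T.card + 1 + k = A.card := card_below hr
  have hBab : ∀ y ∈ A, r ≤ y → ¬ K r y → ab B y + (s - 1) = ab A y := by
    intro y hy hry hKy
    rw [hKr y hy hry] at hKy
    have h1 : ab A y =
        ((B.filter fun w => y < w) ∪ (A.filter fun w => ab A w < s - 1)).card := by
      show (A.filter fun w => y < w).card = _
      congr 1
      ext w
      simp only [mem_filter, mem_union, hB]
      constructor
      · rintro ⟨h1, h2⟩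
        by_cases h3 : ab A w < s - 1
        · exact Or.inr ⟨h1, h3⟩
        · left
          refine ⟨⟨h1, ?_⟩, h2⟩
          rw [hKr w h1 (by omega)]
          omega
      · rintro (⟨⟨h1, h2⟩, h3⟩ | ⟨h1, h2⟩)
        · exact ⟨h1, h3⟩
        · exact ⟨h1, (ab_lt_iff hy h1).1 (by omega)⟩
    rw [h1, card_union_of_disjoint, cnt A (by omega)]
    · rfl
    · rw [Finset.disjoint_left]
      intro w
      simp only [mem_filter, hB]
      rintro ⟨⟨h2, h3⟩, h4⟩ ⟨_, h5⟩
      rw [hKr w h2 (by omega)] at h3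
      omega
  have e1 : ∀ y ∈ A, r ≤ y → ¬ K r y → ab A' (y + 1) + (s - 1) = ab A y := by
    intro y hy h1 h2
    rw [hA2, ab_newS_hi hSlt h1]
    exact hBab y hy h1 h2
  have eB := hBab r hr le_rfl (hK0 r)
  have e2 : ab A' r + s = k + 2 := by
    rw [hA2, ab_newS_v hSlt hrB]
    omega
  have e3 : ∀ x, x ≤ r → ab A' x + s = ab A x + 2 := by
    intro x h1
    rcases Nat.eq_or_lt_of_le h1 with h2 | h2
    · rw [h2]; exact e2
    · rw [hA2, ab_newS_low hSlt hrB h2, ab_split hr h2, ← hT]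
      omega
  have e5 : A'.card + s = A.card + 2 := by
    rw [hA2, card_newS hSlt hrB]
    omega
  -- the elements of the new set
  have hmem : ∀ w ∈ A', (w ∈ A ∧ w ≤ r) ∨ ∃ y ∈ A, r ≤ y ∧ ¬ K r y ∧ w = y + 1 := by
    intro w hw
    rcases (hA' w).1 hw with ⟨h1, h2, h3⟩ | h1 | h1
    · exact Or.inl ⟨h1, h2.le⟩
    · exact Or.inl ⟨by rw [h1]; exact hr, h1.le⟩
    · exact Or.inr h1
  -- the new relation
  have hKlo : ∀ x ∈ A', ∀ y ∈ A', x ≤ y → y ≤ r → (K' x y ↔ K x y) := by
    intro x hx y hy hxy hyr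
    rw [hK' x hx y hy hxy]
    constructor
    · rintro (⟨_, h1⟩ | ⟨_, h1, _⟩ | ⟨h1, _⟩)
      · exact h1
      · omega
      · omega
    · intro h1
      exact Or.inl ⟨hyr, h1⟩
  have hKhi : ∀ x ∈ A', ∀ y ∈ A, y + 1 ∈ A' → x ≤ r → r ≤ y →
      (K' x (y + 1) ↔ K x r ∨ ab A y < k) := by
    intro x hx y hyA hy hxr hry
    rw [hK' x hx (y + 1) hy (by omega), hk, ab_lt_iff hr hyA, Nat.add_sub_cancel]
    constructor
    · rintro (⟨h1, _⟩ | ⟨_, _, h1 | h1⟩ | ⟨h1, _⟩)
      · omega
      · rcases Nat.eq_or_lt_of_le hry with h2 | h2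
        · left; rw [h2]; exact h1
        · exact Or.inr h2
      · right; omega
      · omega
    · rintro (h1 | h1)
      · rcases Nat.eq_or_lt_of_le hry with h2 | h2
        · exact Or.inr (Or.inl ⟨hxr, by omega, Or.inl (by rw [← h2]; exact h1)⟩)
        · exact Or.inr (Or.inl ⟨hxr, by omega, Or.inr (by omega)⟩)
      · exact Or.inr (Or.inl ⟨hxr, by omega, Or.inr (by omega)⟩)
  have hle : ∀ y ∈ A, r ≤ y → ab A y ≤ k := by
    intro y hy hry
    rcases Nat.eq_or_lt_of_le hry with h2 | h2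
    · rw [hk, h2]
    · exact (ab_lt hy h2).le
  have hge : ∀ x ∈ A, x ≤ r → k ≤ ab A x := by
    intro x _ hxr
    rcases Nat.eq_or_lt_of_le hxr with h2 | h2
    · rw [hk, h2]
    · exact (ab_lt hr h2).le
  have key : ∀ (L' : List ℕ) (u' : ℕ), u' + s = k + 2 →
      (∀ x ∈ A, x ≤ r → (bdf s (b' :: bs') (ab A x) ≤ k + 1 ∧ bdf u' L' (ab A' x) = u') ∨
        (bdf u' L' (ab A' x) + s = bdf s (b' :: bs') (ab A x) + 2 ∧
          k + 1 < bdf s (b' :: bs') (ab A x))) →
      ∀ x ∈ A', ∀ y ∈ A', x ≤ y → x ≤ r → (K' x y ↔ ab A' y + 1 < bdf u' L' (ab A' x)) := by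
    intro L' u' hu' hDD x hx y hy hxy hxr
    have hxA : x ∈ A := by
      rcases hmem x hx with ⟨h1, _⟩ | ⟨z, _, h2, _, h3⟩
      · exact h1
      · omega
    have hD := hDD x hxA hxr
    have hkx := hge x hxA hxr
    have hR := rel x hxA r hr hxr (by omega)
    rw [d7 _ (by omega), ← hk] at hR
    rcases hmem y hy with ⟨hyA, hy1⟩ | ⟨y', hy1, hy2, hy3, hy4⟩
    · have hR2 := rel x hxA y hyA hxy (by omega)
      rw [d7 _ (by omega)] at hR2
      have h5 := e3 y hy1
      have h6 := hge y hyA hy1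
      rw [hKlo x hx y hy hxy hy1, hR2]
      omega
    · subst hy4
      have h5 := hle y' hy1 hy2
      have h6 := e1 y' hy1 hy2 hy3
      have h7 := hy3
      rw [hKr y' hy1 hy2] at h7
      rw [hKhi x hx y' hy1 hy hxr hy2, hR]
      omega
  have hch : ch (L, u) k = nxt u L k := by
    rw [ch, if_neg (by simpa using huk)]
  rw [hch, d6]
  by_cases hc : s + b' - k = 1
  · rw [if_pos hc]
    refine ⟨?_, by simp only; omega, ?_, by simp only; omega, ?_,
      key (mrg bs') (b' + 1) (by omega) ?_⟩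
    · simp only
      intro y hy
      rcases mem_mrg hy with h1 | h1
      · exact h1
      · exact pos y (d4 y h1)
    · simp only
      cases hbs : bs' with
      | nil => exact ⟨1, [], rfl, Or.inl rfl⟩
      | cons b1 bs1 =>
        refine ⟨b1 + 1, bs1, rfl, Or.inr ?_⟩
        have := pos b1 (d4 b1 (by rw [hbs]; simp))
        omega
    · simp only
      rw [mrg_sum]
      omega
    · intro x hxA hxr
      have hkx := hge x hxA hxr
      have h3 := e3 x hxr
      rcases Nat.eq_or_lt_of_le hxr with h2 | h2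
      · left
        have h5 : ab A x = k := by rw [h2]
        refine ⟨by rw [bdf, if_pos (by omega)]; omega, ?_⟩
        cases bs' with
        | nil => rw [mrg, bdf, if_pos (by omega)]
        | cons b1 bs1 => rw [mrg, bdf, if_pos (by omega)]
      · have h5 := ab_lt hr h2
        have h6 := ab_lt_card hxA
        cases hbs : bs' with
        | nil =>
          rw [hbs] at d5
          simp at d5
          omega
        | cons b1 bs1 =>
          have hb1 := pos b1 (d4 b1 (by rw [hbs]; simp))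
          rw [bdf, if_neg (by omega), bdf, mrg, bdf]
          by_cases h7 : ab A x < s + b' + b1
          · left
            rw [if_pos h7, if_pos (by omega)]
            exact ⟨by omega, rfl⟩
          · right
            rw [if_neg h7, if_neg (by omega)]
            have h8 := bdf_shift bs1 (b' + 1 + (b1 + 1)) (ab A' x) s
            have h9 := bdf_shift bs1 (s + b' + b1) (ab A x) 2
            rw [h3, show b' + 1 + (b1 + 1) + s = s + b' + b1 + 2 by omega, h9] at h8
            have h10 := bdf_ge bs1 (s + b' + b1) (ab A x)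
            omega
  · rw [if_neg hc]
    refine ⟨?_, by simp only; omega, ⟨s + b' - k, bs', rfl, Or.inr (by omega)⟩,
      by simp only; omega, ?_,
      key ((s + b' - k) :: bs') (b' + 2 - (s + b' - k)) (by omega) ?_⟩
    · simp only
      intro y hy
      rcases List.mem_cons.1 hy with h1 | h1
      · omega
      · exact pos y (d4 y h1)
    · simp only
      rw [List.sum_cons]
      omega
    · intro x hxA hxr
      have hkx := hge x hxA hxr
      have h3 := e3 x hxr
      rw [bdf, bdf]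
      by_cases h7 : ab A x < s + b'
      · left
        rw [if_pos h7, if_pos (by omega)]
        exact ⟨by omega, rfl⟩
      · right
        rw [if_neg h7, if_neg (by omega)]
        have h8 := bdf_shift bs' (b' + 2 - (s + b' - k) + (s + b' - k)) (ab A' x) s
        have h9 := bdf_shift bs' (s + b') (ab A x) 2
        rw [h3, show b' + 2 - (s + b' - k) + (s + b' - k) + s = s + b' + 2 by omega, h9] at h8
        have h10 := bdf_ge bs' (s + b') (ab A x)
        omega

/-- the representation -/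
def RepX (m : ℕ) (τ : Equiv.Perm (Fin (m + 1))) (s : List ℕ × ℕ) : Prop :=
  RepA (act BA m τ) (τ (Fin.last m)) (KA τ) s

lemma fin1_lt (i j : Fin 1) : ¬ i < j := by omega

lemma act_one (B : (n : ℕ) → Equiv.Perm (Fin n) → ℕ → Prop) (h : ∀ u, ¬ B 1 1 u) :
    act B 0 1 = {0, 1} := by
  ext u
  simp only [mem_act, mem_insert, mem_singleton]
  constructor
  · rintro ⟨h1, _⟩
    omega
  · intro h1
    exact ⟨by omega, h u⟩

lemma KA_self {n : ℕ} (τ : Equiv.Perm (Fin n)) (x : ℕ) : ¬ KA τ x x := by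
  rintro ⟨i, j, _, h2, h3, h4⟩
  omega

lemma rep_step (h : S_XA1) {m : ℕ} (τ : Equiv.Perm (Fin (m + 1))) (s : List ℕ × ℕ)
    (hV : VA (m + 1) τ) (hR : RepX m τ s) (v : Fin (m + 2)) (hv : (v : ℕ) ∈ act BA m τ) :
    RepX (m + 1) (snocP v τ) (ch s (ab (act BA m τ) v)) := by
  obtain ⟨_, h2, h3, h4⟩ := h
  obtain ⟨h5, h6⟩ := h4 m τ hV
  obtain ⟨L, u⟩ := s
  unfold RepX
  rw [sv_last]
  have hA' := h2 m v τ hv
  have hK' : ∀ x ∈ act BA (m + 1) (snocP v τ), ∀ y ∈ act BA (m + 1) (snocP v τ), x ≤ y →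
      (KA (snocP v τ) x y ↔ (y ≤ (v : ℕ) ∧ KA τ x y) ∨
      (x ≤ (v : ℕ) ∧ (v : ℕ) < y ∧ (KA τ x (y - 1) ∨ (v : ℕ) + 2 ≤ y)) ∨
      ((v : ℕ) < x ∧ KA τ (x - 1) (y - 1))) := by
    intro x _ y hy hxy
    have hy2 := ((mem_act BA).1 hy).1
    exact h3 (m + 1) v τ x y hxy (by omega)
  rcases Nat.lt_or_ge (τ (Fin.last m) : ℕ) v with h7 | h7
  · obtain ⟨b, bs, hL, _⟩ := hR.hd
    simp only at hL
    subst hL
    exact step_hi hR h5 h6 hv hA' hK' h7
  · exact step_lo hR h5 (KA_self τ) hv hA' hK' h7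

end XA2

open XA2 in
/-- site trees = block trees -/
theorem t_XA2 (h : S_XA1) : S_XA := by
  intro n
  apply cardV_eq VA BA h.1 TA RepX
  · intro m τ s hV hR
    refine ⟨fun r => ch s (ab (act BA m τ) r), ?_, ?_⟩
    · intro v hv
      exact rep_step h τ s hV hR v hv
    · intro f
      obtain ⟨L, u⟩ := s
      obtain ⟨b, bs, hL, _⟩ := hR.hd
      simp only at hL
      subst hL
      rw [(sum_ab (act BA m τ)).2.2 (fun z => f (ch (b :: bs, u) z)), hR.card]
      exact sum_ch f b bs u hR.pos hR.upos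
  · refine ⟨?_, ?_⟩
    · intro i j k _ h
      exact absurd h (fin1_lt _ _)
    · intro i j k l h
      exact absurd h (fin1_lt _ _)
  · have hB : ∀ u, ¬ BA 1 1 u := by
      rintro u (⟨i, j, h1, _, _⟩ | ⟨i, j, k, h, _⟩)
      · have := i.2
        have := j.2
        omega
      · exact absurd h (fin1_lt _ _)
    have hv0 : (((1 : Equiv.Perm (Fin (0 + 1))) (Fin.last 0) : Fin (0 + 1)) : ℕ) = 0 := by
      have := ((1 : Equiv.Perm (Fin (0 + 1))) (Fin.last 0)).2
      omega
    have ab0 : ab {0, 1} 0 = 1 := by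
      unfold ab
      rfl
    have ab1 : ab {0, 1} 1 = 0 := by
      unfold ab
      rfl
    unfold RepX
    rw [act_one BA hB, hv0]
    refine ⟨by simp, by simp, ⟨1, [], rfl, Or.inl rfl⟩, ab0, by simp, ?_⟩
    intro x hx y hy hxy hx0
    have hx1 : x = 0 := by omega
    subst hx1
    simp only [mem_insert, mem_singleton] at hy
    have hK : ¬ KA (1 : Equiv.Perm (Fin (0 + 1))) 0 y := by
      rintro ⟨i, j, h1, _⟩
      exact absurd h1 (fin1_lt _ _)
    have hbd : bdf 1 [1] (ab {0, 1} 0) = 1 := by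
      rw [ab0]
      rfl
    rw [hbd]
    constructor
    · intro h1; exact absurd h1 hK
    · intro h1; omega

end Pool.Agent.H109.GW
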