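import Pool.Agent.H109.GW.Stm

set_option autoImplicit false

/-! Permutation-level facts for `4213`. -/

namespace Pool.Agent.H109.GW

open Finset Pool.Agent.R121 Pool.Agent.R121.Fish

attribute [local instance 10] Classical.propDecidable

namespace XB1

lemma avB_snocP {n : ℕ} (v : Fin (n + 1)) (τ : Equiv.Perm (Fin n)) :
    AvB (snocP v τ) ↔ AvB τ ∧ ¬ PB τ v := by
  constructor
  · intro H
    constructor
    · intro i j k l h1 h2 h3 ⟨h4, h5, h6⟩
      apply H i.castSucc j.castSucc k.castSucc l.castSucc (by simpa using h1) (by simpa using h2)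
        (by simpa using h3)
      rw [sv_cast, sv_cast, sv_cast, sv_cast]
      split_ifs <;> omega
    · rintro ⟨i, j, k, h1, h2, h3, h4, h5⟩
      apply H i.castSucc j.castSucc k.castSucc (Fin.last n) (by simpa using h1) (by simpa using h2)
        (Fin.castSucc_lt_last k)
      rw [sv_cast, sv_cast, sv_cast, sv_last]
      split_ifs <;> omega
  · rintro ⟨H, hb⟩ i j k l h1 h2 h3 ⟨h4, h5, h6⟩
    induction k using Fin.lastCases with
    | last => exact absurd (lt_of_lt_of_le h3 (Fin.le_last _)) (lt_irrefl _)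
    | cast k =>
      induction j using Fin.lastCases with
      | last => exact absurd (lt_of_lt_of_le h2 (Fin.le_last _)) (lt_irrefl _)
      | cast j =>
        induction i using Fin.lastCases with
        | last => exact absurd (lt_of_lt_of_le h1 (Fin.le_last _)) (lt_irrefl _)
        | cast i =>
          simp only [Fin.castSucc_lt_castSucc_iff] at h1 h2
          induction l using Fin.lastCases with
          | last =>
            rw [sv_cast, sv_cast] at h4
            rw [sv_cast, sv_last] at h5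
            rw [sv_cast, sv_last] at h6
            exact hb ⟨i, j, k, h1, h2, by split_ifs at h4 <;> omega, by split_ifs at h5 <;> omega,
              by split_ifs at h6 <;> omega⟩
          | cast l =>
            simp only [Fin.castSucc_lt_castSucc_iff] at h3
            rw [sv_cast, sv_cast] at h4 h5 h6
            exact H i j k l h1 h2 h3 ⟨by split_ifs at h4 <;> omega, by split_ifs at h5 <;> omega,
              by split_ifs at h6 <;> omega⟩

lemma vB_snocP (n : ℕ) (v : Fin (n + 1)) (τ : Equiv.Perm (Fin n)) :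
    VB (n + 1) (snocP v τ) ↔ VB n τ ∧ ¬ BB n τ v := by
  unfold VB BB
  rw [fsh_snocP, avB_snocP]
  tauto

lemma pB_snocP {n : ℕ} (v : Fin (n + 1)) (τ : Equiv.Perm (Fin n)) (u : ℕ) :
    PB (snocP v τ) u ↔ (u ≤ v ∧ PB τ u) ∨ (v < u ∧ (PB τ (u - 1) ∨ KB τ v (u - 1))) := by
  constructor
  · rintro ⟨i, j, k, h1, h2, h3, h4, h5⟩
    induction j using Fin.lastCases with
    | last => exact absurd (lt_of_lt_of_le h2 (Fin.le_last _)) (lt_irrefl _)
    | cast j =>
      induction i using Fin.lastCases with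
      | last => exact absurd (lt_of_lt_of_le h1 (Fin.le_last _)) (lt_irrefl _)
      | cast i =>
        simp only [Fin.castSucc_lt_castSucc_iff] at h1
        induction k using Fin.lastCases with
        | last =>
          rw [sv_last, sv_cast] at h3
          rw [sv_cast] at h4 h5
          right
          refine ⟨by split_ifs at h3 h4 <;> omega, Or.inr ⟨i, j, h1, ?_, ?_, ?_⟩⟩ <;>
            split_ifs at h3 h4 h5 <;> omega
        | cast k =>
          simp only [Fin.castSucc_lt_castSucc_iff] at h2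
          rw [sv_cast, sv_cast] at h3
          rw [sv_cast] at h4 h5
          by_cases h6 : u ≤ v
          · refine Or.inl ⟨h6, ⟨i, j, k, h1, h2, ?_, ?_, ?_⟩⟩
            · split_ifs at h3 <;> omega
            · split_ifs at h4 <;> omega
            · split_ifs at h5 <;> omega
          · refine Or.inr ⟨by omega, Or.inl ⟨i, j, k, h1, h2, ?_, ?_, ?_⟩⟩
            · split_ifs at h3 <;> omega
            · split_ifs at h4 <;> omega
            · split_ifs at h5 <;> omega
  · rintro (⟨h0, i, j, k, h1, h2, h3, h4, h5⟩ | ⟨h0, ⟨i, j, k, h1, h2, h3, h4, h5⟩ |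
      ⟨i, j, h1, h2, h3, h4⟩⟩)
    · refine ⟨i.castSucc, j.castSucc, k.castSucc, by simpa using h1, by simpa using h2, ?_, ?_, ?_⟩
      · rw [sv_cast, sv_cast]
        split_ifs <;> omega
      · rw [sv_cast]
        split_ifs <;> omega
      · rw [sv_cast]
        split_ifs <;> omega
    · refine ⟨i.castSucc, j.castSucc, k.castSucc, by simpa using h1, by simpa using h2, ?_, ?_, ?_⟩
      · rw [sv_cast, sv_cast]
        split_ifs <;> omega
      · rw [sv_cast]
        split_ifs <;> omega
      · rw [sv_cast]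
        split_ifs <;> omega
    · refine ⟨i.castSucc, j.castSucc, Fin.last _, by simpa using h1, Fin.castSucc_lt_last j,
        ?_, ?_, ?_⟩
      · rw [sv_cast, sv_last]
        split_ifs <;> omega
      · rw [sv_cast]
        split_ifs <;> omega
      · rw [sv_cast]
        split_ifs <;> omega

lemma not_kB_self {n : ℕ} (τ : Equiv.Perm (Fin n)) (x : ℕ) : ¬ KB τ x x := by
  rintro ⟨i, j, _, h2, h3, _⟩
  omega

lemma actB_snocP {m : ℕ} (v : Fin (m + 2)) (τ : Equiv.Perm (Fin (m + 1)))
    (hv : (v : ℕ) ∈ act BB m τ) (w : ℕ) :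
    w ∈ act BB (m + 1) (snocP v τ) ↔
      (w ∈ act BB m τ ∧ w < v ∧ w ≠ τ (Fin.last m)) ∨ w = v ∨
      ∃ u ∈ act BB m τ, (v : ℕ) ≤ u ∧ ¬ KB τ v u ∧ w = u + 1 := by
  have hv2 := v.2
  have hv1 : ¬ FB τ v ∧ ¬ PB τ v := by
    rw [mem_act, BB] at hv
    tauto
  simp only [mem_act, BB, fb_snocP, pB_snocP]
  constructor
  · rintro ⟨h1, h2⟩
    push Not at h2
    obtain ⟨⟨h3, h4⟩, h5, h6⟩ := h2
    rcases lt_trichotomy w v with h7 | h7 | h7
    · left
      refine ⟨⟨by omega, ?_⟩, h7, (h3 h7).2⟩
      rintro (h8 | h8)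
      · exact (h3 h7).1 h8
      · exact h5 h7.le h8
    · exact Or.inr (Or.inl h7)
    · right; right
      refine ⟨w - 1, ⟨by omega, ?_⟩, by omega, (h6 h7).2, by omega⟩
      rintro (h8 | h8)
      · exact h4 h7 h8
      · exact (h6 h7).1 h8
  · rintro (⟨⟨h1, h2⟩, h3, h4⟩ | h1 | ⟨u, ⟨h1, h2⟩, h3, h4, h5⟩)
    · refine ⟨by omega, ?_⟩
      push Not at h2 ⊢
      exact ⟨⟨fun _ => ⟨h2.1, h4⟩, fun h => by omega⟩, fun _ => h2.2, fun h => by omega⟩
    · subst h1
      refine ⟨by omega, ?_⟩
      push Not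
      exact ⟨⟨fun h => by omega, fun h => by omega⟩, fun _ => hv1.2, fun h => by omega⟩
    · subst h5
      refine ⟨by omega, ?_⟩
      push Not at h2 ⊢
      refine ⟨⟨fun h => by omega, fun _ => by simpa using h2.1⟩, fun h => by omega,
        fun _ => ⟨by simpa using h2.2, by simpa using h4⟩⟩

lemma kB_snocP {n : ℕ} (v : Fin (n + 1)) (τ : Equiv.Perm (Fin n)) (x y : ℕ) (hxy : x ≤ y)
    (hy : y ≤ n + 1) :
    KB (snocP v τ) x y ↔ (y ≤ v ∧ KB τ x y) ∨
      (x ≤ v ∧ (v : ℕ) < y ∧ (KB τ x (y - 1) ∨ y < n + 1)) ∨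
      ((v : ℕ) < x ∧ KB τ (x - 1) (y - 1)) := by
  constructor
  · rintro ⟨i, j, h1, h2, h3, h4⟩
    induction i using Fin.lastCases with
    | last => exact absurd (lt_of_lt_of_le h1 (Fin.le_last _)) (lt_irrefl _)
    | cast i =>
      rw [sv_cast] at h4
      induction j using Fin.lastCases with
      | last =>
        rw [sv_last] at h2 h3
        right; left
        refine ⟨h2, h3, Or.inr ?_⟩
        have := (τ i).2
        split_ifs at h4 <;> omega
      | cast j =>
        simp only [Fin.castSucc_lt_castSucc_iff] at h1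
        rw [sv_cast] at h2 h3
        by_cases h5 : y ≤ v
        · refine Or.inl ⟨h5, i, j, h1, ?_, ?_, ?_⟩
          · split_ifs at h2 h3 <;> omega
          · split_ifs at h2 h3 <;> omega
          · split_ifs at h4 <;> omega
        · by_cases h6 : x ≤ v
          · refine Or.inr (Or.inl ⟨h6, by omega, Or.inl ⟨i, j, h1, ?_, ?_, ?_⟩⟩)
            · split_ifs at h2 h3 <;> omega
            · split_ifs at h2 h3 <;> omega
            · split_ifs at h4 <;> omega
          · refine Or.inr (Or.inr ⟨by omega, i, j, h1, ?_, ?_, ?_⟩)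
            · split_ifs at h2 h3 <;> omega
            · split_ifs at h2 h3 <;> omega
            · split_ifs at h4 <;> omega
  · rintro (⟨h0, i, j, h1, h2, h3, h4⟩ | ⟨h0, h0', ⟨i, j, h1, h2, h3, h4⟩ | h1⟩ |
      ⟨h0, i, j, h1, h2, h3, h4⟩)
    · refine ⟨i.castSucc, j.castSucc, by simpa using h1, ?_, ?_, ?_⟩ <;>
        (rw [sv_cast]; split_ifs <;> omega)
    · refine ⟨i.castSucc, j.castSucc, by simpa using h1, ?_, ?_, ?_⟩ <;>
        (rw [sv_cast]; split_ifs <;> omega)
    · let i : Fin n := τ.symm ⟨y - 1, by omega⟩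
      have hi : (τ i : ℕ) = y - 1 := by simp [i]
      refine ⟨i.castSucc, Fin.last n, Fin.castSucc_lt_last i, ?_, ?_, ?_⟩
      · rw [sv_last]
        exact h0
      · rw [sv_last]
        exact h0'
      · rw [sv_cast]
        split_ifs <;> omega
    · refine ⟨i.castSucc, j.castSucc, by simpa using h1, ?_, ?_, ?_⟩ <;>
        (rw [sv_cast]; split_ifs <;> omega)

lemma last_mem_actB {m : ℕ} (τ : Equiv.Perm (Fin (m + 1))) (h : VB (m + 1) τ) :
    (τ (Fin.last m) : ℕ) ∈ act BB m τ := by
  rw [mem_act]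
  refine ⟨by have := (τ (Fin.last m)).2; omega, ?_⟩
  rintro (h1 | ⟨i, j, k, h1, h2, h3, h4, h5⟩)
  · exact not_fb_last τ h1
  · have hk : k ≠ Fin.last m := by
      rintro rfl
      omega
    have hk' : k < Fin.last m := lt_of_le_of_ne (Fin.le_last _) hk
    have hi : i ≠ Fin.last m := by
      rintro rfl
      exact absurd (lt_of_lt_of_le h1 (Fin.le_last _)) (lt_irrefl _)
    have := val_ne τ hi
    exact h.2 i j k (Fin.last m) h1 h2 hk' ⟨h3, h4, by omega⟩

lemma not_kB_of_last {m : ℕ} (τ : Equiv.Perm (Fin (m + 1))) (x y : ℕ)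
    (hx : (τ (Fin.last m) : ℕ) < x) (hy : y ∈ act BB m τ) : ¬ KB τ x y := by
  rintro ⟨i, j, h1, h2, h3, h4⟩
  rw [mem_act] at hy
  apply hy.2
  right
  have hj : j ≠ Fin.last m := by
    rintro rfl
    omega
  exact ⟨i, j, Fin.last m, h1, lt_of_le_of_ne (Fin.le_last _) hj, by omega, h3, h4⟩

end XB1

theorem t_XB1 : S_XB1 :=
  ⟨XB1.vB_snocP, fun _ v τ hv w => XB1.actB_snocP v τ hv w,
    fun _ v τ x y hxy hy => XB1.kB_snocP v τ x y hxy hy,
    fun _ τ h => ⟨XB1.last_mem_actB τ h, fun x y hx hy => XB1.not_kB_of_last τ x y hx hy⟩⟩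

end Pool.Agent.H109.GW
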