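import Pool.Agent.H109.GW.Stm

set_option autoImplicit false

/-! The site tree of the Fishburn permutations avoiding 4213 is the block tree `TB` (helper48 for helper109). -/

namespace Pool.Agent.H109.GW

open Finset Pool.Agent.R121 Pool.Agent.R121.Fish

attribute [local instance 10] Classical.propDecidable

namespace XB2

/-- relative start of the block of the position `j` -/
def st : List ℕ → ℕ → ℕ
  | [], _ => 0
  | b :: bs, j => if j < b then 0 else b + st bs (j - b)

/-- number of the sites outside of the blocks at the last value -/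
def ee (star : Bool) : ℕ := if star then 1 else 0

/-- the position `k` does not kill the position `l` -/
def NK (s : List ℕ × ℕ × Bool) (k l : ℕ) : Prop :=
  k < s.2.1 ∨ (s.2.1 + ee s.2.2 ≤ k ∧
    s.2.1 + ee s.2.2 + st s.1 (k - (s.2.1 + ee s.2.2)) ≤ l) ∨ l = 0 ∨ (s.2.2 = true ∧ l = s.2.1)

/-- the blocks after the death of the last value -/
def rst : List ℕ → Bool → List ℕ
  | bs, true => bs
  | [], false => []
  | b :: bs, false => psh (b - 1) bs

/-- the children in the blocks -/
def low (e : ℕ) : ℕ → List ℕ → ℕ → List ℕ × ℕ × Bool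
  | _, [], _ => ([], 1, true)
  | p, b :: bs, k =>
    if k < p + b then ((p + b - k) :: bs, k - p + 2 + e, false) else low e (p + b) bs k

/-- the child at the position `k` -/
def cs (s : List ℕ × ℕ × Bool) (k : ℕ) : List ℕ × ℕ × Bool :=
  if k = 0 then (psh (s.2.1 - 1) (rst s.1 s.2.2), 1, true)
  else if k < s.2.1 then ((s.2.1 - k) :: rst s.1 s.2.2, k + 1, false)
  else if s.2.2 = true ∧ k = s.2.1 then (s.1, 2, true)
  else low (ee s.2.2) (s.2.1 + ee s.2.2) s.1 k

/-- good states -/
def OKs (s : List ℕ × ℕ × Bool) : Prop :=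
  (∀ b ∈ s.1, 1 ≤ b) ∧ 1 ≤ s.2.1 ∧ (s.2.2 = false → s.1 ≠ [])

/-- number of sites -/
def sz (s : List ℕ × ℕ × Bool) : ℕ := s.1.sum + s.2.1 + ee s.2.2

lemma st_le : ∀ (bs : List ℕ) (j : ℕ), st bs j ≤ j
  | [], _ => Nat.zero_le _
  | b :: bs, j => by
    have ih := st_le bs (j - b)
    unfold st
    split_ifs <;> omega

lemma psh_pos {a : ℕ} {bs : List ℕ} (h : ∀ b ∈ bs, 1 ≤ b) : ∀ b ∈ psh a bs, 1 ≤ b := by
  unfold psh
  split_ifs with h1
  · exact h
  · intro b hb
    rcases List.mem_cons.1 hb with h2 | h2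
    · omega
    · exact h b h2

lemma psh_sum (a : ℕ) (bs : List ℕ) : (psh a bs).sum = a + bs.sum := by
  unfold psh
  split_ifs with h1
  · omega
  · simp

lemma rst_pos {bs : List ℕ} {star : Bool} (h : ∀ b ∈ bs, 1 ≤ b) : ∀ b ∈ rst bs star, 1 ≤ b := by
  cases star
  · cases bs with
    | nil => exact h
    | cons b bs => exact psh_pos fun c hc => h c (List.mem_cons_of_mem _ hc)
  · cases bs <;> exact h

lemma rst_sum {bs : List ℕ} {star : Bool} (h : ∀ b ∈ bs, 1 ≤ b) (h2 : star = false → bs ≠ []) :
    (rst bs star).sum + 1 = bs.sum + ee star := by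
  cases star
  · cases bs with
    | nil => exact absurd rfl (h2 rfl)
    | cons b bs =>
      have h3 := h b List.mem_cons_self
      change (psh (b - 1) bs).sum + 1 = (b :: bs).sum + 0
      rw [psh_sum, List.sum_cons]
      omega
  · cases bs <;> rfl

lemma st_psh (a : ℕ) (bs : List ℕ) (j : ℕ) : st (psh a bs) j = st (a :: bs) j := by
  unfold psh
  split_ifs with h1
  · subst h1
    conv_rhs => unfold st
    simp
  · rfl

lemma low_spec (e : ℕ) : ∀ (bs : List ℕ) (p k : ℕ), (∀ b ∈ bs, 1 ≤ b) → p ≤ k → k < p + bs.sum →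
    ∃ (c : ℕ) (cs' : List ℕ), low e p bs k = (c :: cs', k - (p + st bs (k - p)) + 2 + e, false) ∧
      1 ≤ c ∧ (∀ b ∈ cs', 1 ≤ b) ∧ c + cs'.sum + k = p + bs.sum ∧
      ∀ K L, k ≤ L → L ≤ K → (p + st bs (K - p) ≤ L ↔ k + st (c :: cs') (K - k) ≤ L)
  | [], p, k, _, h1, h2 => by
    simp at h2
    omega
  | b :: bs, p, k, hb, h1, h2 => by
    rw [List.sum_cons] at h2
    by_cases hk : k < p + b
    · refine ⟨p + b - k, bs, ?_, by omega, fun c hc => hb c (List.mem_cons_of_mem _ hc), ?_, ?_⟩
      · unfold low st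
        rw [if_pos hk, if_pos (by omega)]
        simp
      · rw [List.sum_cons]
        omega
      · intro K L hkL hLK
        unfold st
        by_cases hK : K < p + b
        · rw [if_pos (by omega), if_pos (by omega)]
          omega
        · rw [if_neg (by omega), if_neg (by omega)]
          have e1 : K - p - b = K - k - (p + b - k) := by omega
          rw [e1]
          omega
    · obtain ⟨c, cs', h3, h4, h5, h6, h7⟩ := low_spec e bs (p + b) k
        (fun c hc => hb c (List.mem_cons_of_mem _ hc)) (by omega) (by omega)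
      refine ⟨c, cs', ?_, h4, h5, ?_, ?_⟩
      · unfold low
        rw [if_neg hk, h3]
        conv_rhs => unfold st
        rw [if_neg (by omega)]
        have e1 : k - p - b = k - (p + b) := by omega
        rw [e1, ← add_assoc]
      · rw [List.sum_cons]
        omega
      · intro K L hkL hLK
        rw [← h7 K L hkL hLK]
        conv_lhs => unfold st
        rw [if_neg (by omega)]
        have e1 : K - p - b = K - (p + b) := by omega
        rw [e1, ← add_assoc]

/-- the four cases -/
lemma cs_cases (s : List ℕ × ℕ × Bool) (hs : OKs s) (k : ℕ) (hk : k < sz s) :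
    (k = 0 ∧ cs s k = (psh (s.2.1 - 1) (rst s.1 s.2.2), 1, true)) ∨
    (0 < k ∧ k < s.2.1 ∧ cs s k = ((s.2.1 - k) :: rst s.1 s.2.2, k + 1, false)) ∨
    (s.2.2 = true ∧ k = s.2.1 ∧ cs s k = (s.1, 2, true)) ∨
    (s.2.1 + ee s.2.2 ≤ k ∧ ∃ (c : ℕ) (cs' : List ℕ), cs s k = (c :: cs',
      k - (s.2.1 + ee s.2.2 + st s.1 (k - (s.2.1 + ee s.2.2))) + 2 + ee s.2.2, false) ∧
      1 ≤ c ∧ (∀ b ∈ cs', 1 ≤ b) ∧ c + cs'.sum + k = s.2.1 + ee s.2.2 + s.1.sum ∧
      ∀ K L, k ≤ L → L ≤ K → (s.2.1 + ee s.2.2 + st s.1 (K - (s.2.1 + ee s.2.2)) ≤ L ↔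
        k + st (c :: cs') (K - k) ≤ L)) := by
  obtain ⟨h1, h2, h3⟩ := hs
  by_cases e1 : k = 0
  · left
    exact ⟨e1, by unfold cs; rw [if_pos e1]⟩
  right
  by_cases e2 : k < s.2.1
  · left
    exact ⟨by omega, e2, by unfold cs; rw [if_neg e1, if_pos e2]⟩
  right
  by_cases e3 : s.2.2 = true ∧ k = s.2.1
  · left
    exact ⟨e3.1, e3.2, by unfold cs; rw [if_neg e1, if_neg e2, if_pos e3]⟩
  right
  have e4 : s.2.1 + ee s.2.2 ≤ k := by
    unfold ee
    split_ifs with h
    · have : k ≠ s.2.1 := fun hh => e3 ⟨h, hh⟩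
      omega
    · omega
  refine ⟨e4, ?_⟩
  obtain ⟨c, cs', h4, h5⟩ := low_spec (ee s.2.2) s.1 (s.2.1 + ee s.2.2) k h1 e4
    (by unfold sz at hk; omega)
  exact ⟨c, cs', by unfold cs; rw [if_neg e1, if_neg e2, if_neg e3, h4], h5⟩

lemma ok_cs (s : List ℕ × ℕ × Bool) (hs : OKs s) (k : ℕ) (hk : k < sz s) : OKs (cs s k) := by
  rcases cs_cases s hs k hk with ⟨_, h⟩ | ⟨_, _, h⟩ | ⟨_, _, h⟩ | ⟨_, c, cs', h, h1, h2, _⟩
  · rw [h]
    exact ⟨psh_pos (rst_pos hs.1), le_rfl, fun hh => by cases hh⟩
  · rw [h]
    refine ⟨?_, by simp, fun _ => by simp⟩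
    intro b hb
    rcases List.mem_cons.1 hb with h2 | h2
    · omega
    · exact rst_pos hs.1 b h2
  · rw [h]
    exact ⟨hs.1, by simp, fun hh => by cases hh⟩
  · rw [h]
    refine ⟨?_, ?_, fun _ => by simp⟩
    · intro b hb
      rcases List.mem_cons.1 hb with h3 | h3
      · omega
      · exact h2 b h3
    · change 1 ≤ k - (s.2.1 + ee s.2.2 + st s.1 (k - (s.2.1 + ee s.2.2))) + 2 + ee s.2.2
      omega

lemma sz_cs (s : List ℕ × ℕ × Bool) (hs : OKs s) (k : ℕ) (hk : k < sz s) :
    sz (cs s k) + k + (if k < s.2.1 then 1 else 0) = sz s + (cs s k).2.1 := by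
  have hu := hs.2.1
  have hr := rst_sum hs.1 hs.2.2
  rcases cs_cases s hs k hk with ⟨h0, h⟩ | ⟨h0, h1, h⟩ | ⟨h0, h1, h⟩ | ⟨h0, c, cs', h, h1, h2, h3, _⟩
  · rw [h, if_pos (by omega)]
    unfold sz
    simp only [psh_sum]
    change _ + 1 + 1 + k + 1 = _
    omega
  · rw [h, if_pos h1]
    unfold sz
    simp only [List.sum_cons]
    change _ + (k + 1) + 0 + k + 1 = _
    omega
  · rw [h, if_neg (by omega)]
    unfold sz
    rw [h0]
    change s.1.sum + 2 + 1 + k + 0 = s.1.sum + s.2.1 + 1 + 2
    omega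
  · rw [h, if_neg (by omega)]
    unfold sz
    simp only [List.sum_cons]
    change _ + 0 + k + 0 = _
    omega

lemma count_cs (s : List ℕ × ℕ × Bool) (hs : OKs s) (k : ℕ) (hk : k < sz s) :
    ((range (k + 1)).filter (NK s k)).card = (cs s k).2.1 := by
  have hu := hs.2.1
  rcases cs_cases s hs k hk with ⟨h0, h⟩ | ⟨h0, h1, h⟩ | ⟨h0, h1, h⟩ | ⟨h0, c, cs', h, h1, h2, h3, _⟩
  · rw [h]
    have e : (range (k + 1)).filter (NK s k) = {0} := by
      ext l
      simp only [mem_filter, mem_range, mem_singleton, NK]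
      constructor
      · rintro ⟨h1, _⟩
        omega
      · rintro rfl
        exact ⟨by omega, by simp⟩
    rw [e, card_singleton]
  · rw [h]
    have e : (range (k + 1)).filter (NK s k) = range (k + 1) := by
      refine filter_true_of_mem fun l _ => Or.inl h1
    rw [e, card_range]
  · rw [h]
    have e : (range (k + 1)).filter (NK s k) = {0, s.2.1} := by
      ext l
      simp only [mem_filter, mem_range, mem_insert, mem_singleton, NK, ee, h0]
      constructor
      · rintro ⟨_, h2 | ⟨h2, _⟩ | h2 | h2⟩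
        · omega
        · simp only [if_true] at h2
          omega
        · exact Or.inl h2
        · exact Or.inr h2.2
      · rintro (h2 | h2)
        · exact ⟨by omega, Or.inr (Or.inr (Or.inl h2))⟩
        · exact ⟨by omega, Or.inr (Or.inr (Or.inr ⟨trivial, h2⟩))⟩
    rw [e, card_pair (by omega)]
  · rw [h]
    simp only
    obtain ⟨q, hq⟩ : ∃ q, q = s.2.1 + ee s.2.2 + st s.1 (k - (s.2.1 + ee s.2.2)) := ⟨_, rfl⟩
    have hqk : q ≤ k := by
      have := st_le s.1 (k - (s.2.1 + ee s.2.2))
      omega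
    rw [← hq]
    cases hst : s.2.2
    · rw [hst] at hq h0
      have e : (range (k + 1)).filter (NK s k) = insert 0 (Icc q k) := by
        ext l
        simp only [mem_filter, mem_range, mem_insert, mem_Icc, NK, hst]
        rw [← hq]
        constructor
        · rintro ⟨h4, h5 | ⟨_, h5⟩ | h5 | h5⟩
          · omega
          · exact Or.inr ⟨h5, by omega⟩
          · exact Or.inl h5
          · exact absurd h5.1 (by simp)
        · rintro (h4 | ⟨h4, h5⟩)
          · exact ⟨by omega, Or.inr (Or.inr (Or.inl h4))⟩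
          · exact ⟨by omega, Or.inr (Or.inl ⟨h0, h4⟩)⟩
      rw [e, card_insert_of_notMem, Nat.card_Icc]
      · change k + 1 - q + 1 = k - q + 2 + 0
        omega
      · rw [mem_Icc]
        omega
    · rw [hst] at hq h0
      have h00 : s.2.1 + 1 ≤ k := h0
      have e : (range (k + 1)).filter (NK s k) = insert 0 (insert s.2.1 (Icc q k)) := by
        ext l
        simp only [mem_filter, mem_range, mem_insert, mem_Icc, NK, hst]
        rw [← hq]
        constructor
        · rintro ⟨h4, h5 | ⟨_, h5⟩ | h5 | h5⟩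
          · omega
          · exact Or.inr (Or.inr ⟨h5, by omega⟩)
          · exact Or.inl h5
          · exact Or.inr (Or.inl h5.2)
        · rintro (h4 | h4 | ⟨h4, h5⟩)
          · exact ⟨by omega, Or.inr (Or.inr (Or.inl h4))⟩
          · exact ⟨by omega, Or.inr (Or.inr (Or.inr ⟨trivial, h4⟩))⟩
          · exact ⟨by omega, Or.inr (Or.inl ⟨h0, h4⟩)⟩
      have hq1 : s.2.1 + 1 ≤ q := by
        change q = s.2.1 + 1 + _ at hq
        omega
      rw [e, card_insert_of_notMem, card_insert_of_notMem, Nat.card_Icc]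
      · change k + 1 - q + 1 + 1 = k - q + 2 + 1
        omega
      · rw [mem_Icc]
        omega
      · rw [mem_insert, mem_Icc]
        omega

lemma NK_mk (bs : List ℕ) (u : ℕ) (star : Bool) (k l : ℕ) : NK (bs, u, star) k l ↔
    k < u ∨ (u + ee star ≤ k ∧ u + ee star + st bs (k - (u + ee star)) ≤ l) ∨ l = 0 ∨
      (star = true ∧ l = u) := Iff.rfl

lemma rst_st (bs : List ℕ) (u : ℕ) (star : Bool) (hs : OKs (bs, u, star)) (K : ℕ) (hK : u < K)
    (L : ℕ) (hL : u < L) :
    (u + ee star + st bs (K - (u + ee star)) ≤ L ↔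
      u + 1 + st (rst bs star) (K - (u + 1)) ≤ L) := by
  cases star
  · cases bs with
    | nil => exact absurd rfl (hs.2.2 rfl)
    | cons b bs =>
      have h3 : 1 ≤ b := hs.1 b List.mem_cons_self
      change (u + 0 + st (b :: bs) (K - (u + 0)) ≤ L ↔
        u + 1 + st (psh (b - 1) bs) (K - (u + 1)) ≤ L)
      rw [st_psh]
      unfold st
      by_cases hKb : K - u < b
      · rw [if_pos (by omega), if_pos (by omega)]
        omega
      · rw [if_neg (by omega), if_neg (by omega)]
        have e1 : K - (u + 0) - b = K - (u + b) := by omega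
        have e2 : K - (u + 1) - (b - 1) = K - (u + b) := by omega
        rw [e1, e2]
        omega
  · cases bs <;> rfl

lemma nk_hi (s : List ℕ × ℕ × Bool) (K L : ℕ) (hK : s.2.1 ≤ K) (hL : L < s.2.1) :
    NK s K L ↔ L = 0 := by
  unfold NK
  constructor
  · rintro (h | h | h | h)
    · omega
    · omega
    · exact h
    · omega
  · intro h
    exact Or.inr (Or.inr (Or.inl h))

lemma nk_cs (s : List ℕ × ℕ × Bool) (hs : OKs s) (k : ℕ) (hk : k < sz s) (K L : ℕ)
    (hkL : k ≤ L) (hLK : L ≤ K) (hne : k < s.2.1 → K ≠ s.2.1 ∧ L ≠ s.2.1) (K' L' : ℕ)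
    (hK' : K' + k + (if k < s.2.1 ∧ s.2.1 < K then 1 else 0) = K + (cs s k).2.1)
    (hL' : L' + k + (if k < s.2.1 ∧ s.2.1 < L then 1 else 0) = L + (cs s k).2.1) :
    NK s K L ↔ NK (cs s k) K' L' := by
  have hu := hs.2.1
  rcases cs_cases s hs k hk with ⟨h0, h⟩ | ⟨h0, h1, h⟩ | ⟨h0, h1, h⟩ | ⟨h0, c, cs', h, h1, h2, h3, h4⟩
  · rw [h] at hK' hL' ⊢
    obtain ⟨bs, u, star⟩ := s
    simp only at hne hK' hL' hu ⊢
    rw [NK_mk, NK_mk, st_psh]
    have hee : ee true = 1 := rfl
    rw [hee]
    by_cases hKu : u < K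
    · rw [if_pos ⟨by omega, hKu⟩] at hK'
      have e1 : K' = K := by omega
      subst e1
      have e2 : st ((u - 1) :: rst bs star) (K' - (1 + 1)) =
          (u - 1) + st (rst bs star) (K' - (u + 1)) := by
        conv_lhs => unfold st
        rw [if_neg (by omega)]
        have : K' - (1 + 1) - (u - 1) = K' - (u + 1) := by omega
        rw [this]
      rw [e2]
      by_cases hLu : u < L
      · rw [if_pos ⟨by omega, hLu⟩] at hL'
        have e3 := rst_st bs u star hs K' hKu L hLu
        have e4 : u + ee star ≤ K' := by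
          cases star
          · exact hKu.le
          · exact hKu
        have e5 : (star = true ∧ L = u) ↔ False := by
          constructor
          · rintro ⟨_, h⟩
            omega
          · exact False.elim
        rw [e5]
        simp only [true_and, or_false]
        omega
      · have hu0 : k < u := by omega
        have hLne := (hne hu0).2
        have e5 : (star = true ∧ L = u) ↔ False := by
          constructor
          · rintro ⟨_, h⟩
            omega
          · exact False.elim
        rw [e5]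
        rw [if_neg (by omega)] at hL'
        simp only [true_and, or_false]
        omega
    · rw [if_neg (by omega)] at hK'
      rw [if_neg (by omega)] at hL'
      have e2 : 2 ≤ K' → K' ≤ u → st ((u - 1) :: rst bs star) (K' - (1 + 1)) = 0 := by
        intro h4 h5
        unfold st
        rw [if_pos (by omega)]
      have hKne := (hne (by omega)).1
      have h6 : K < u := by omega
      constructor
      · intro _
        by_cases hL0 : L = 0
        · exact Or.inr (Or.inr (Or.inr ⟨rfl, by omega⟩))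
        · refine Or.inr (Or.inl ⟨by omega, ?_⟩)
          rw [e2 (by omega) (by omega)]
          omega
      · intro _
        exact Or.inl h6
  · rw [h] at hK' hL' ⊢
    obtain ⟨bs, u, star⟩ := s
    simp only at hne hK' hL' hu h1 ⊢
    rw [NK_mk, NK_mk]
    have hee : ee false = 0 := rfl
    rw [hee]
    by_cases hKu : u < K
    · rw [if_pos ⟨by omega, hKu⟩] at hK'
      have e1 : K' = K := by omega
      subst e1
      have e2 : st ((u - k) :: rst bs star) (K' - (k + 1 + 0)) =
          (u - k) + st (rst bs star) (K' - (u + 1)) := by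
        conv_lhs => unfold st
        rw [if_neg (by omega)]
        have : K' - (k + 1 + 0) - (u - k) = K' - (u + 1) := by omega
        rw [this]
      rw [e2]
      have e5 : (star = true ∧ L = u) ↔ False := by
        constructor
        · rintro ⟨_, h⟩
          have := (hne h1).2
          omega
        · exact False.elim
      rw [e5]
      by_cases hLu : u < L
      · rw [if_pos ⟨by omega, hLu⟩] at hL'
        have e3 := rst_st bs u star hs K' hKu L hLu
        have e4 : u + ee star ≤ K' := by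
          cases star
          · exact hKu.le
          · exact hKu
        simp only [Bool.false_eq_true, false_and, or_false]
        omega
      · rw [if_neg (by omega)] at hL'
        have := (hne h1).2
        simp only [Bool.false_eq_true, false_and, or_false]
        omega
    · rw [if_neg (by omega)] at hK'
      rw [if_neg (by omega)] at hL'
      have hKne := (hne (by omega)).1
      have h6 : K < u := by omega
      constructor
      · intro _
        refine Or.inr (Or.inl ⟨by omega, ?_⟩)
        unfold st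
        rw [if_pos (by omega)]
        omega
      · intro _
        exact Or.inl h6
  · rw [h] at hK' hL' ⊢
    obtain ⟨bs, u, star⟩ := s
    simp only at hne hK' hL' hu h0 h1 ⊢
    subst h0
    rw [NK_mk, NK_mk]
    have hee : ee true = 1 := rfl
    rw [hee]
    rw [if_neg (by omega)] at hK' hL'
    have e1 : K' - (2 + 1) = K - (u + 1) := by omega
    rw [e1]
    simp only [true_and]
    omega
  · rw [h] at hK' hL' ⊢
    obtain ⟨bs, u, star⟩ := s
    simp only at hne hK' hL' hu h0 h1 h3 h4 ⊢
    obtain ⟨U, hU⟩ : ∃ U, U = k - (u + ee star + st bs (k - (u + ee star))) + 2 + ee star :=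
      ⟨_, rfl⟩
    rw [← hU] at hK' hL' ⊢
    rw [NK_mk, NK_mk]
    rw [if_neg (by omega)] at hK' hL'
    have hee : ee false = 0 := rfl
    rw [hee]
    have e1 : K' - (U + 0) = K - k := by omega
    rw [e1]
    have e2 := h4 K L hkL hLK
    have e5 : (star = true ∧ L = u) ↔ False := by
      constructor
      · rintro ⟨h5, h6⟩
        rw [h5] at h0
        change u + 1 ≤ k at h0
        omega
      · exact False.elim
    rw [e5]
    simp only [Bool.false_eq_true, false_and, or_false]
    omega

lemma sum_low (f : List ℕ × ℕ × Bool → ℤ) (e : ℕ) : ∀ (bs : List ℕ) (p : ℕ),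
    ∑ j ∈ range bs.sum, f (low e p bs (p + j)) = DB f e bs
  | [], p => by
    unfold DB
    simp
  | b :: bs, p => by
    rw [List.sum_cons, sum_range_add]
    unfold DB
    congr 1
    · have e1 : ∀ j ∈ range b, f (low e p (b :: bs) (p + j)) =
          f ((b - j) :: bs, j + 2 + e, false) := by
        intro j hj
        rw [mem_range] at hj
        unfold low
        rw [if_pos (by omega)]
        have e2 : p + b - (p + j) = b - j := by omega
        have e3 : p + j - p = j := by omega
        rw [e2, e3]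
      rw [sum_congr rfl e1]
      refine sum_nbij' (fun j => b - j) (fun c => b - c) ?_ ?_ ?_ ?_ ?_
      · intro j hj
        rw [mem_range] at hj
        rw [mem_Icc]
        omega
      · intro c hc
        rw [mem_Icc] at hc
        rw [mem_range]
        omega
      · intro j hj
        rw [mem_range] at hj
        omega
      · intro c hc
        rw [mem_Icc] at hc
        omega
      · intro j hj
        rw [mem_range] at hj
        have e2 : b + 2 + e - (b - j) = j + 2 + e := by omega
        rw [e2]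
    · rw [← sum_low f e bs (p + b)]
      refine sum_congr rfl fun j _ => ?_
      conv_lhs => unfold low
      rw [if_neg (by omega), ← add_assoc]

lemma sum_cs (f : List ℕ × ℕ × Bool → ℤ) (s : List ℕ × ℕ × Bool) (hs : OKs s) :
    ∑ k ∈ range (sz s), f (cs s k) = TB f s := by
  obtain ⟨bs, u, star⟩ := s
  have hu : 1 ≤ u := hs.2.1
  have e0 : sz (bs, u, star) = u + (ee star + bs.sum) := by
    unfold sz
    simp only
    omega
  rw [e0, sum_range_add, sum_range_add]
  have e1 : ∑ k ∈ range u, f (cs (bs, u, star) k) =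
      ∑ a ∈ range (u - 1), f ((a + 1) :: rst bs star, u - a, false) +
        f (psh (u - 1) (rst bs star), 1, true) := by
    obtain ⟨w, rfl⟩ : ∃ w, u = w + 1 := ⟨u - 1, by omega⟩
    rw [sum_range_succ', Nat.add_sub_cancel]
    congr 1
    rw [← sum_range_reflect]
    refine sum_congr rfl fun j hj => ?_
    rw [mem_range] at hj
    unfold cs
    rw [if_neg (by omega), if_pos (by simp only; omega)]
    simp only
    have e2 : w + 1 - (w - 1 - j + 1) = j + 1 := by omega
    have e3 : w - 1 - j + 1 + 1 = w + 1 - j := by omega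
    rw [e2, e3]
  have e2 : ∑ x ∈ range bs.sum, f (cs (bs, u, star) (u + (ee star + x))) =
      DB f (ee star) bs := by
    rw [← sum_low f (ee star) bs (u + ee star)]
    refine sum_congr rfl fun j _ => ?_
    have hc : ¬ (star = true ∧ u + (ee star + j) = u) := by
      rintro ⟨h1, h2⟩
      rw [h1] at h2
      change u + (1 + j) = u at h2
      omega
    unfold cs
    rw [if_neg (by omega), if_neg (by simp only; omega), if_neg hc, ← add_assoc]
  rw [e1, e2]
  cases star
  · cases bs with
    | nil => exact absurd rfl (hs.2.2 rfl)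
    | cons b bs =>
      change _ + (∑ x ∈ range 0, _ + _) = _
      rw [range_zero, sum_empty, zero_add]
      rfl
  · have e3 : ∑ x ∈ range (ee true), f (cs (bs, u, true) (u + x)) = f (bs, 2, true) := by
      change ∑ x ∈ range 1, f (cs (bs, u, true) (u + x)) = _
      rw [sum_range_one, add_zero]
      unfold cs
      rw [if_neg (by omega), if_neg (by simp only; omega), if_pos ⟨rfl, rfl⟩]
    rw [e3]
    have e4 : rst bs true = bs := by cases bs <;> rfl
    rw [e4]
    cases bs <;> (unfold TB; change _ + (_ + DB f 1 _) = _; ring)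

/-- the state describes the sites and the relation `KB` -/
def Rep (m : ℕ) (τ : Equiv.Perm (Fin (m + 1))) (s : List ℕ × ℕ × Bool) : Prop :=
  OKs s ∧ (act BB m τ).card = sz s ∧ ab (act BB m τ) (τ (Fin.last m)) = s.2.1 ∧
  ∀ x ∈ act BB m τ, ∀ y ∈ act BB m τ, x ≤ y →
    (¬ KB τ x y ↔ NK s (ab (act BB m τ) x) (ab (act BB m τ) y))

lemma top_mem {m : ℕ} (τ : Equiv.Perm (Fin (m + 1))) : m + 1 ∈ act BB m τ := by
  rw [mem_act]
  refine ⟨by omega, ?_⟩
  rintro (⟨i, j, h1, h2, h3⟩ | ⟨i, j, k, h1, h2, h3, h4, h5⟩)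
  · have := (τ i).2
    omega
  · have := (τ i).2
    omega

lemma ab_zero {m : ℕ} (τ : Equiv.Perm (Fin (m + 1))) {y : ℕ} (hy : y ∈ act BB m τ) :
    ab (act BB m τ) y = 0 ↔ y = m + 1 := by
  have h1 := ((mem_act BB).1 hy).1
  constructor
  · intro h
    by_contra hne
    have := ab_lt (top_mem τ) (show y < m + 1 by omega)
    omega
  · rintro rfl
    unfold ab
    rw [card_eq_zero, filter_eq_empty_iff]
    intro u hu
    have := ((mem_act BB).1 hu).1
    omega

lemma not_kb_self {n : ℕ} (τ : Equiv.Perm (Fin n)) (x : ℕ) : ¬ KB τ x x := by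
  rintro ⟨i, j, h1, h2, h3, h4⟩
  omega

/-- ranks after the insertion -/
lemma ranks {A U S : Finset ℕ} {v lv : ℕ} (hv : v ∈ A) (hlv : lv ∈ A) (hvU : v ∈ U)
    (hU : ∀ u ∈ U, v ≤ u) (hS : S = A.filter fun w => w < v ∧ w ≠ lv) :
    ab (newS S U v) v = U.card ∧
    (newS S U v).card + ab A v + (if lv < v then 1 else 0) = A.card + U.card ∧
    ∀ w ∈ S, ab (newS S U v) w + ab A v + (if lv < v ∧ w < lv then 1 else 0) =
      ab A w + U.card := by
  have hSlt : ∀ x ∈ S, x < v := by
    intro x hx
    rw [hS, mem_filter] at hx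
    exact hx.2.1
  have hUf : U.filter (fun u => v ≤ u) = U := filter_true_of_mem hU
  have hUc : ab U v + 1 = U.card := by
    have := card_up hvU
    rw [hUf] at this
    omega
  refine ⟨?_, ?_, ?_⟩
  · rw [ab_newS_v hSlt hvU, hUc]
  · rw [card_newS hSlt hvU]
    have h1 := card_below hv
    by_cases hl : lv < v
    · rw [if_pos hl]
      have h2 : A.filter (fun u => u < v) = insert lv S := by
        ext x
        rw [hS, mem_insert, mem_filter, mem_filter]
        constructor
        · rintro ⟨h3, h4⟩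
          by_cases hx : x = lv
          · exact Or.inl hx
          · exact Or.inr ⟨h3, h4, hx⟩
        · rintro (h3 | h3)
          · rw [h3]
            exact ⟨hlv, hl⟩
          · exact ⟨h3.1, h3.2.1⟩
      have h3 : lv ∉ S := by
        rw [hS, mem_filter]
        rintro ⟨_, _, h4⟩
        exact h4 rfl
      rw [h2, card_insert_of_notMem h3] at h1
      omega
    · rw [if_neg hl]
      have h2 : A.filter (fun u => u < v) = S := by
        ext x
        rw [hS, mem_filter, mem_filter]
        constructor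
        · rintro ⟨h3, h4⟩
          exact ⟨h3, h4, by omega⟩
        · rintro ⟨h3, h4, _⟩
          exact ⟨h3, h4⟩
      rw [h2] at h1
      omega
  · intro w hw
    have hwv := hSlt w hw
    have hT : (newS S U v).filter (fun x => w < x) = newS (S.filter fun x => w < x) U v := by
      ext x
      rw [mem_filter, mem_newS, mem_newS, mem_filter]
      constructor
      · rintro ⟨h1 | h1 | h1, h2⟩
        · exact Or.inl ⟨h1, h2⟩
        · exact Or.inr (Or.inl h1)
        · exact Or.inr (Or.inr h1)
      · rintro (h1 | h1 | ⟨u, h1, h2, h3⟩)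
        · exact ⟨Or.inl h1.1, h1.2⟩
        · exact ⟨Or.inr (Or.inl h1), by omega⟩
        · exact ⟨Or.inr (Or.inr ⟨u, h1, h2, h3⟩), by omega⟩
    have hT2 : ab (newS S U v) w = (S.filter fun x => w < x).card + (ab U v + 2) := by
      have h1 : ab (newS S U v) w = ((newS S U v).filter fun x => w < x).card := rfl
      rw [h1, hT, card_newS _ hvU]
      intro x hx
      exact hSlt x (mem_filter.1 hx).1
    have hB : ab A w = (A.filter fun x => w < x ∧ x < v).card + (ab A v + 1) := by
      rw [← card_up hv, ← card_union_of_disjoint]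
      · have h1 : ab A w = (A.filter fun x => w < x).card := rfl
        rw [h1]
        congr 1
        ext x
        rw [mem_union, mem_filter, mem_filter, mem_filter]
        constructor
        · rintro ⟨h2, h3⟩
          by_cases hx : x < v
          · exact Or.inl ⟨h2, h3, hx⟩
          · exact Or.inr ⟨h2, by omega⟩
        · rintro (h2 | h2)
          · exact ⟨h2.1, h2.2.1⟩
          · exact ⟨h2.1, by omega⟩
      · rw [Finset.disjoint_left]
        intro x hx hx2
        rw [mem_filter] at hx hx2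
        omega
    by_cases hl : lv < v ∧ w < lv
    · rw [if_pos hl]
      have h2 : (A.filter fun x => w < x ∧ x < v) = insert lv (S.filter fun x => w < x) := by
        ext x
        rw [hS, mem_insert, mem_filter, mem_filter, mem_filter]
        constructor
        · rintro ⟨h3, h4, h5⟩
          by_cases hx : x = lv
          · exact Or.inl hx
          · exact Or.inr ⟨⟨h3, h5, hx⟩, h4⟩
        · rintro (h3 | h3)
          · rw [h3]
            exact ⟨hlv, hl.2, hl.1⟩
          · exact ⟨h3.1.1, h3.2, h3.1.2.1⟩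
      have h3 : lv ∉ S.filter fun x => w < x := by
        rw [hS, mem_filter, mem_filter]
        rintro ⟨⟨_, _, h4⟩, _⟩
        exact h4 rfl
      rw [h2, card_insert_of_notMem h3] at hB
      omega
    · rw [if_neg hl]
      have h2 : (A.filter fun x => w < x ∧ x < v) = S.filter fun x => w < x := by
        ext x
        rw [hS, mem_filter, mem_filter, mem_filter]
        constructor
        · rintro ⟨h3, h4, h5⟩
          refine ⟨⟨h3, h5, ?_⟩, h4⟩
          rintro rfl
          exact hl ⟨h5, h4⟩
        · rintro ⟨⟨h3, h4, _⟩, h5⟩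
          exact ⟨h3, h5, h4⟩
      rw [h2] at hB
      omega

lemma rep_step (h : S_XB1) {m : ℕ} (τ : Equiv.Perm (Fin (m + 1))) (s : List ℕ × ℕ × Bool)
    (hV : VB (m + 1) τ) (hR : Rep m τ s) (v : Fin (m + 2)) (hv : (v : ℕ) ∈ act BB m τ) :
    Rep (m + 1) (snocP v τ) (cs s (ab (act BB m τ) v)) := by
  obtain ⟨hs, hc, hl, hK⟩ := hR
  obtain ⟨f1, f2, f3, f4⟩ := h
  have hLm := (f4 m τ hV).1
  have hV' : VB (m + 1 + 1) (snocP v τ) := by
    rw [f1]
    exact ⟨hV, ((mem_act BB).1 hv).2⟩
  have hf2 := f2 m v τ hv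
  have hf4 := (f4 (m + 1) (snocP v τ) hV').2
  rw [sv_last] at hf4
  unfold Rep
  rw [sv_last]
  have hz' : ∀ y ∈ act BB (m + 1) (snocP v τ), ab (act BB (m + 1) (snocP v τ)) y = 0 ↔
      y = m + 2 := fun y hy => ab_zero (snocP v τ) hy
  have hle' : ∀ y ∈ act BB (m + 1) (snocP v τ), y ≤ m + 2 := fun y hy => by
    have := ((mem_act BB).1 hy).1
    omega
  generalize act BB (m + 1) (snocP v τ) = A' at hf2 hf4 hz' hle' ⊢
  generalize act BB m τ = A at hc hl hK hLm hv hf2 ⊢
  obtain ⟨lv, hlv⟩ : ∃ lv, lv = (τ (Fin.last m) : ℕ) := ⟨_, rfl⟩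
  rw [← hlv] at hl hLm hf2
  obtain ⟨k, hk⟩ : ∃ k, k = ab A v := ⟨_, rfl⟩
  have hkc : k < sz s := by
    rw [hk, ← hc]
    exact ab_lt_card hv
  have hcount := count_cs s hs k hkc
  have hszc := sz_cs s hs k hkc
  obtain ⟨U, hU⟩ : ∃ U, U = A.filter fun u => (v : ℕ) ≤ u ∧ ¬ KB τ v u := ⟨_, rfl⟩
  obtain ⟨S, hS⟩ : ∃ S, S = A.filter fun w => w < (v : ℕ) ∧ w ≠ lv := ⟨_, rfl⟩
  have hvU : (v : ℕ) ∈ U := by
    rw [hU, mem_filter]
    exact ⟨hv, le_rfl, not_kb_self τ v⟩
  have hUge : ∀ u ∈ U, (v : ℕ) ≤ u := by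
    intro u hu
    rw [hU, mem_filter] at hu
    exact hu.2.1
  have hUcard : U.card = (cs s k).2.1 := by
    rw [← hcount]
    have h1 : U.image (ab A) = (range (k + 1)).filter (NK s k) := by
      ext l
      rw [mem_image, mem_filter, mem_range]
      constructor
      · rintro ⟨u, hu, rfl⟩
        rw [hU, mem_filter] at hu
        obtain ⟨hu1, hu2, hu3⟩ := hu
        refine ⟨?_, ?_⟩
        · rcases Nat.eq_or_lt_of_le hu2 with h2 | h2
          · rw [← h2, hk]
            omega
          · have := ab_lt hu1 h2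
            omega
        · rw [hk]
          exact (hK v hv u hu1 hu2).1 hu3
      · rintro ⟨h2, h3⟩
        have h4 : l ∈ A.image (ab A) := by
          rw [(sum_ab A).2.1, mem_range, hc]
          omega
        obtain ⟨u, hu, rfl⟩ := mem_image.1 h4
        have hvu : (v : ℕ) ≤ u := by
          by_contra hlt
          have := ab_lt hv (not_le.1 hlt)
          omega
        refine ⟨u, ?_, rfl⟩
        rw [hU, mem_filter]
        refine ⟨hu, hvu, (hK v hv u hu hvu).2 ?_⟩
        rw [← hk]
        exact h3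
    rw [← h1, card_image_of_injOn]
    intro a ha b hb hab
    have ha' : a ∈ U := ha
    have hb' : b ∈ U := hb
    rw [hU, mem_filter] at ha' hb'
    exact (sum_ab A).1 ha'.1 hb'.1 hab
  have hA' : A' = newS S U v := by
    ext w
    rw [hf2, mem_newS, hS, mem_filter]
    constructor
    · rintro (h1 | h1 | ⟨u, h1, h2, h3, h4⟩)
      · exact Or.inl h1
      · exact Or.inr (Or.inl h1)
      · refine Or.inr (Or.inr ⟨u, ?_, h2, h4⟩)
        rw [hU, mem_filter]
        exact ⟨h1, h2, h3⟩
    · rintro (h1 | h1 | ⟨u, h1, h2, h3⟩)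
      · exact Or.inl h1
      · exact Or.inr (Or.inl h1)
      · rw [hU, mem_filter] at h1
        exact Or.inr (Or.inr ⟨u, h1.1, h1.2.1, h1.2.2, h3⟩)
  obtain ⟨r1, r2, r3⟩ := ranks hv hLm hvU hUge hS
  rw [← hA'] at r1 r2 r3
  rw [← hk] at r2 r3 ⊢
  rw [hUcard] at r1 r2 r3
  have hlvv : lv < v ↔ k < s.2.1 := by
    rw [← hl, hk]
    exact (ab_lt_iff hLm hv).symm
  -- sites up to the new value
  have hw : ∀ w ∈ A', w ≤ v → w ∈ A ∧ (k < s.2.1 → ab A w ≠ s.2.1) ∧ k ≤ ab A w ∧
      ab A' w + k + (if k < s.2.1 ∧ s.2.1 < ab A w then 1 else 0) = ab A w + (cs s k).2.1 := by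
    intro w hwA hwv
    rw [hA', mem_newS] at hwA
    rcases hwA with h1 | h1 | ⟨u, h1, h2, h3⟩
    · have h2 := r3 w h1
      rw [hS, mem_filter] at h1
      have h3 : lv < v ∧ w < lv ↔ k < s.2.1 ∧ s.2.1 < ab A w := by
        rw [hlvv, ← hl]
        exact and_congr_right fun _ => (ab_lt_iff h1.1 hLm).symm
      refine ⟨h1.1, ?_, ?_, ?_⟩
      · intro _ h4
        rw [← hl] at h4
        exact h1.2.2 ((sum_ab A).1 h1.1 hLm h4)
      · have := ab_lt hv h1.2.1
        omega
      · rw [← h2]
        by_cases h5 : lv < v ∧ w < lv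
        · rw [if_pos h5, if_pos (h3.1 h5)]
        · rw [if_neg h5, if_neg (fun h6 => h5 (h3.2 h6))]
    · rw [h1, r1, ← hk]
      refine ⟨hv, fun h2 => h2.ne, le_rfl, ?_⟩
      rw [if_neg (by omega)]
      omega
    · omega
  have hvA' : (v : ℕ) ∈ A' := by
    rw [hA', mem_newS]
    exact Or.inr (Or.inl rfl)
  refine ⟨ok_cs s hs k hkc, ?_, r1, ?_⟩
  · by_cases h1 : lv < v
    · rw [if_pos h1] at r2
      rw [if_pos (hlvv.1 h1)] at hszc
      omega
    · rw [if_neg h1] at r2
      rw [if_neg (fun h2 => h1 (hlvv.2 h2))] at hszc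
      omega
  · intro x hx y hy hxy
    by_cases hxv : (v : ℕ) < x
    · refine ⟨fun _ => Or.inl ?_, fun _ => hf4 x y hxv hy⟩
      rw [← r1]
      exact ab_lt hx hxv
    · rw [f3 (m + 1) v τ x y hxy (hle' y hy)]
      obtain ⟨hx1, hx2, hx3, hx4⟩ := hw x hx (not_lt.1 hxv)
      by_cases hyv : y ≤ v
      · obtain ⟨hy1, hy2, hy3, hy4⟩ := hw y hy hyv
        have h1 : (y ≤ v ∧ KB τ x y) ∨ (x ≤ v ∧ (v : ℕ) < y ∧ (KB τ x (y - 1) ∨ y < m + 1 + 1)) ∨
            ((v : ℕ) < x ∧ KB τ (x - 1) (y - 1)) ↔ KB τ x y := by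
          constructor
          · rintro (h2 | h2 | h2)
            · exact h2.2
            · omega
            · omega
          · intro h2
            exact Or.inl ⟨hyv, h2⟩
        rw [h1, hK x hx1 y hy1 hxy]
        refine nk_cs s hs k hkc (ab A x) (ab A y) hy3 ?_ (fun h2 => ⟨hx2 h2, hy2 h2⟩) _ _ hx4 hy4
        rcases Nat.eq_or_lt_of_le hxy with h2 | h2
        · rw [h2]
        · exact (ab_lt hy1 h2).le
      · have h1 : (y ≤ v ∧ KB τ x y) ∨ (x ≤ v ∧ (v : ℕ) < y ∧ (KB τ x (y - 1) ∨ y < m + 1 + 1)) ∨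
            ((v : ℕ) < x ∧ KB τ (x - 1) (y - 1)) ↔ y ≠ m + 2 := by
          constructor
          · rintro (h2 | h2 | h2) h3
            · exact hyv h2.1
            · obtain ⟨_, _, h4 | h4⟩ := h2
              · obtain ⟨i, j, h5, h6, h7, h8⟩ := h4
                have := (τ i).2
                omega
              · omega
            · omega
          · intro h2
            have := hle' y hy
            exact Or.inr (Or.inl ⟨not_lt.1 hxv, not_le.1 hyv, Or.inr (by omega)⟩)
        have h2 : (cs s k).2.1 ≤ ab A' x := by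
          rw [← r1]
          rcases Nat.eq_or_lt_of_le (not_lt.1 hxv) with h3 | h3
          · rw [h3]
          · exact (ab_lt hvA' h3).le
        have h3 : ab A' y < (cs s k).2.1 := by
          rw [← r1]
          exact ab_lt hy (not_le.1 hyv)
        rw [h1, nk_hi _ _ _ h2 h3, hz' y hy, not_not]

lemma act_one (B : (n : ℕ) → Equiv.Perm (Fin n) → ℕ → Prop) (h : ∀ u, ¬ B 1 1 u) :
    act B 0 1 = {0, 1} := by
  ext u
  simp only [mem_act, mem_insert, mem_singleton]
  constructor
  · rintro ⟨h1, _⟩
    omega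
  · intro h1
    exact ⟨by omega, h u⟩

lemma fin1_lt (i j : Fin 1) : ¬ i < j := by
  intro h
  rw [Fin.lt_def] at h
  omega

lemma rep_one : Rep 0 1 ([], 1, true) := by
  have hB : ∀ u, ¬ BB 1 1 u := by
    rintro u (⟨i, j, h1, _, _⟩ | ⟨i, j, k, h, _⟩)
    · have := i.2
      have := j.2
      omega
    · exact absurd h (fin1_lt _ _)
  have a0 : ab {0, 1} 0 = 1 := by
    unfold ab
    rfl
  have a1 : ab {0, 1} 1 = 0 := by
    unfold ab
    rfl
  unfold Rep
  rw [act_one BB hB]
  refine ⟨⟨by simp, le_rfl, fun h => by cases h⟩, ?_, ?_, ?_⟩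
  · rfl
  · exact a0
  · intro x hx y hy hxy
    have h1 : ¬ KB (1 : Equiv.Perm (Fin (0 + 1))) x y := by
      rintro ⟨i, j, h, _⟩
      exact absurd h (fin1_lt _ _)
    refine ⟨fun _ => ?_, fun _ => h1⟩
    rw [NK_mk]
    simp only [mem_insert, mem_singleton] at hx hy
    rcases hy with rfl | rfl
    · rw [a0]
      exact Or.inr (Or.inr (Or.inr ⟨rfl, rfl⟩))
    · rw [a1]
      exact Or.inr (Or.inr (Or.inl rfl))

end XB2

open XB2 in
/-- the site tree of 4213 is the block tree `TB` -/
theorem t_XB2 (h : S_XB1) : S_XB := by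
  intro n
  apply cardV_eq VB BB h.1 TB Rep
  · intro m τ s hV hR
    refine ⟨fun u => cs s (ab (act BB m τ) u), fun v hv => rep_step h τ s hV hR v hv, ?_⟩
    intro f
    rw [(sum_ab (act BB m τ)).2.2 (fun z => f (cs s z)), hR.2.1]
    exact sum_cs f s hR.1
  · refine ⟨?_, ?_⟩
    · intro i j k _ h
      exact absurd h (fin1_lt _ _)
    · intro i j k l h
      exact absurd h (fin1_lt _ _)
  · exact rep_one

end Pool.Agent.H109.GW
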