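import Pool.Agent.H109.GW.Stm

set_option autoImplicit false

/-! The facts on the permutations avoiding 4132. -/

namespace Pool.Agent.H109.GW

open Finset Pool.Agent.R121 Pool.Agent.R121.Fish

attribute [local instance 10] Classical.propDecidable

namespace XC1

lemma avC_snocP {n : ℕ} (v : Fin (n + 1)) (τ : Equiv.Perm (Fin n)) :
    AvC (snocP v τ) ↔ AvC τ ∧ ¬ PC τ v := by
  constructor
  · intro H
    constructor
    · intro i j k l h1 h2 h3 ⟨h4, h5, h6⟩
      apply H i.castSucc j.castSucc k.castSucc l.castSucc (by simpa using h1) (by simpa using h2)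
        (by simpa using h3)
      rw [sv_cast, sv_cast, sv_cast, sv_cast]
      split_ifs <;> omega
    · rintro ⟨i, j, k, h1, h2, h3, h4, h5⟩
      apply H i.castSucc j.castSucc k.castSucc (Fin.last n) (by simpa using h1) (by simpa using h2)
        (Fin.castSucc_lt_last k)
      rw [sv_cast, sv_cast, sv_cast, sv_last]
      split_ifs <;> omega
  · rintro ⟨H, hb⟩ i j k l h1 h2 h3 ⟨h4, h5, h6⟩
    induction k using Fin.lastCases with
    | last => exact absurd (lt_of_lt_of_le h3 (Fin.le_last _)) (lt_irrefl _)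
    | cast k =>
      induction j using Fin.lastCases with
      | last => exact absurd (lt_of_lt_of_le h2 (Fin.le_last _)) (lt_irrefl _)
      | cast j =>
        induction i using Fin.lastCases with
        | last => exact absurd (lt_of_lt_of_le h1 (Fin.le_last _)) (lt_irrefl _)
        | cast i =>
          simp only [Fin.castSucc_lt_castSucc_iff] at h1 h2
          induction l using Fin.lastCases with
          | last =>
            rw [sv_cast, sv_last] at h4
            rw [sv_last, sv_cast] at h5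
            rw [sv_cast, sv_cast] at h6
            exact hb ⟨i, j, k, h1, h2, by split_ifs at h4 <;> omega, by split_ifs at h5 <;> omega,
              by split_ifs at h6 <;> omega⟩
          | cast l =>
            simp only [Fin.castSucc_lt_castSucc_iff] at h3
            rw [sv_cast, sv_cast] at h4 h5 h6
            exact H i j k l h1 h2 h3 ⟨by split_ifs at h4 <;> omega, by split_ifs at h5 <;> omega,
              by split_ifs at h6 <;> omega⟩

lemma vC_snocP (n : ℕ) (v : Fin (n + 1)) (τ : Equiv.Perm (Fin n)) :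
    VC (n + 1) (snocP v τ) ↔ VC n τ ∧ ¬ BC n τ v := by
  unfold VC BC
  rw [fsh_snocP, avC_snocP]
  tauto

lemma pC_snocP {n : ℕ} (v : Fin (n + 1)) (τ : Equiv.Perm (Fin n)) (u : ℕ) :
    PC (snocP v τ) u ↔ (u ≤ v ∧ (PC τ u ∨ KC τ u v)) ∨ (v < u ∧ PC τ (u - 1)) := by
  constructor
  · rintro ⟨i, j, k, h1, h2, h3, h4, h5⟩
    induction j using Fin.lastCases with
    | last => exact absurd (lt_of_lt_of_le h2 (Fin.le_last _)) (lt_irrefl _)
    | cast j =>
      induction i using Fin.lastCases with
      | last => exact absurd (lt_of_lt_of_le h1 (Fin.le_last _)) (lt_irrefl _)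
      | cast i =>
        simp only [Fin.castSucc_lt_castSucc_iff] at h1
        induction k using Fin.lastCases with
        | last =>
          rw [sv_cast] at h3
          rw [sv_last] at h4
          rw [sv_last, sv_cast] at h5
          left
          refine ⟨h4, Or.inr ⟨i, j, h1, ?_, ?_⟩⟩
          · split_ifs at h3 <;> omega
          · split_ifs at h5 <;> omega
        | cast k =>
          simp only [Fin.castSucc_lt_castSucc_iff] at h2
          rw [sv_cast] at h3 h4
          rw [sv_cast, sv_cast] at h5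
          by_cases h6 : u ≤ v
          · exact Or.inl ⟨h6, Or.inl ⟨i, j, k, h1, h2, by split_ifs at h3 <;> omega,
              by split_ifs at h4 <;> omega, by split_ifs at h5 <;> omega⟩⟩
          · exact Or.inr ⟨by omega, ⟨i, j, k, h1, h2, by split_ifs at h3 <;> omega,
              by split_ifs at h4 <;> omega, by split_ifs at h5 <;> omega⟩⟩
  · rintro (⟨h0, ⟨i, j, k, h1, h2, h3, h4, h5⟩ | ⟨i, j, h1, h2, h3⟩⟩ |
      ⟨h0, ⟨i, j, k, h1, h2, h3, h4, h5⟩⟩)
    · refine ⟨i.castSucc, j.castSucc, k.castSucc, by simpa using h1, by simpa using h2, ?_, ?_, ?_⟩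
      · rw [sv_cast]
        split_ifs <;> omega
      · rw [sv_cast]
        split_ifs <;> omega
      · rw [sv_cast, sv_cast]
        split_ifs <;> omega
    · refine ⟨i.castSucc, j.castSucc, Fin.last _, by simpa using h1,
        Fin.castSucc_lt_last j, ?_, ?_, ?_⟩
      · rw [sv_cast]
        split_ifs <;> omega
      · rw [sv_last]
        exact h0
      · rw [sv_cast, sv_last]
        split_ifs <;> omega
    · refine ⟨i.castSucc, j.castSucc, k.castSucc, by simpa using h1, by simpa using h2, ?_, ?_, ?_⟩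
      · rw [sv_cast]
        split_ifs <;> omega
      · rw [sv_cast]
        split_ifs <;> omega
      · rw [sv_cast, sv_cast]
        split_ifs <;> omega

lemma actC_snocP {m : ℕ} (v : Fin (m + 2)) (τ : Equiv.Perm (Fin (m + 1)))
    (hv : (v : ℕ) ∈ act BC m τ) (w : ℕ) :
    w ∈ act BC (m + 1) (snocP v τ) ↔
      (w ∈ act BC m τ ∧ w ≤ v ∧ ¬ KC τ w v ∧ (w < v → w ≠ τ (Fin.last m))) ∨
      ∃ u ∈ act BC m τ, (v : ℕ) ≤ u ∧ w = u + 1 := by
  have hv2 := v.2
  have hv1 : ¬ FB τ v ∧ ¬ PC τ v := by
    rw [mem_act, BC] at hv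
    tauto
  simp only [mem_act, BC, fb_snocP, pC_snocP]
  constructor
  · rintro ⟨h1, h2⟩
    push Not at h2
    obtain ⟨⟨h3, h4⟩, h5, h6⟩ := h2
    rcases lt_trichotomy w v with h7 | h7 | h7
    · left
      refine ⟨⟨by omega, ?_⟩, h7.le, (h5 h7.le).2, fun _ => (h3 h7).2⟩
      rintro (h8 | h8)
      · exact (h3 h7).1 h8
      · exact (h5 h7.le).1 h8
    · left
      have h8 := h5 h7.le
      subst h7
      exact ⟨⟨hv2, not_or.2 hv1⟩, le_rfl, h8.2, fun h => absurd h (lt_irrefl _)⟩
    · right
      refine ⟨w - 1, ⟨by omega, ?_⟩, by omega, by omega⟩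
      rintro (h8 | h8)
      · exact h4 h7 h8
      · exact h6 h7 h8
  · rintro (⟨⟨h1, h2⟩, h3, h4, h5⟩ | ⟨u, ⟨h1, h2⟩, h3, h4⟩)
    · refine ⟨by omega, ?_⟩
      push Not at h2 ⊢
      exact ⟨⟨fun h => ⟨h2.1, h5 h⟩, fun h => by omega⟩, fun _ => ⟨h2.2, h4⟩, fun h => by omega⟩
    · subst h4
      refine ⟨by omega, ?_⟩
      push Not at h2 ⊢
      refine ⟨⟨fun h => by omega, fun _ => by simpa using h2.1⟩, fun h => by omega,
        fun _ => by simpa using h2.2⟩

lemma kC_snocP {n : ℕ} (v : Fin (n + 1)) (τ : Equiv.Perm (Fin n)) (y q : ℕ) (hyq : y ≤ q)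
    (hq : q ≤ n + 1) :
    KC (snocP v τ) y q ↔ (q ≤ v ∧ KC τ y q) ∨ (y ≤ v ∧ (v : ℕ) < q ∧ KC τ y (q - 1)) ∨
      ((v : ℕ) < y ∧ (q < n + 1 ∨ KC τ (y - 1) (q - 1))) := by
  have hv := v.2
  constructor
  · rintro ⟨i, j, h1, h2, h3⟩
    induction i using Fin.lastCases with
    | last => exact absurd (lt_of_lt_of_le h1 (Fin.le_last _)) (lt_irrefl _)
    | cast i =>
      have hi := (τ i).2
      rw [sv_cast] at h3
      induction j using Fin.lastCases with
      | last =>
        rw [sv_last] at h2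
        right; right
        refine ⟨h2, Or.inl ?_⟩
        split_ifs at h3 <;> omega
      | cast j =>
        simp only [Fin.castSucc_lt_castSucc_iff] at h1
        rw [sv_cast] at h2
        rcases Nat.lt_or_ge (v : ℕ) q with h4 | h4
        · rcases Nat.lt_or_ge (v : ℕ) y with h5 | h5
          · right; right
            refine ⟨h5, Or.inr ⟨i, j, h1, ?_, ?_⟩⟩
            · split_ifs at h2 <;> omega
            · split_ifs at h3 <;> omega
          · right; left
            refine ⟨h5, h4, i, j, h1, ?_, ?_⟩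
            · split_ifs at h2 <;> omega
            · split_ifs at h3 <;> omega
        · left
          refine ⟨h4, i, j, h1, ?_, ?_⟩
          · split_ifs at h2 <;> omega
          · split_ifs at h3 <;> omega
  · rintro (⟨h0, i, j, h1, h2, h3⟩ | ⟨h0, h00, i, j, h1, h2, h3⟩ | ⟨h0, h1 | ⟨i, j, h1, h2, h3⟩⟩)
    · refine ⟨i.castSucc, j.castSucc, by simpa using h1, ?_, ?_⟩
      · rw [sv_cast]
        split_ifs <;> omega
      · rw [sv_cast]
        split_ifs <;> omega
    · refine ⟨i.castSucc, j.castSucc, by simpa using h1, ?_, ?_⟩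
      · rw [sv_cast]
        split_ifs <;> omega
      · rw [sv_cast]
        split_ifs <;> omega
    · let i : Fin n := τ.symm ⟨n - 1, by omega⟩
      have hi : (τ i : ℕ) = n - 1 := by simp [i]
      refine ⟨i.castSucc, Fin.last n, Fin.castSucc_lt_last i, ?_, ?_⟩
      · rw [sv_last]
        exact h0
      · rw [sv_cast]
        split_ifs <;> omega
    · refine ⟨i.castSucc, j.castSucc, by simpa using h1, ?_, ?_⟩
      · rw [sv_cast]
        split_ifs <;> omega
      · rw [sv_cast]
        split_ifs <;> omega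

lemma kC_lo {m : ℕ} (τ : Equiv.Perm (Fin (m + 1))) (y q : ℕ) (hy : y ∈ act BC m τ)
    (h1 : y ≤ τ (Fin.last m)) (h2 : (τ (Fin.last m) : ℕ) ≤ q) : ¬ KC τ y q := by
  rintro ⟨i, j, h3, h4, h5⟩
  rw [mem_act, BC] at hy
  apply hy.2
  right
  have hj : j ≠ Fin.last m := by
    rintro rfl
    omega
  have hj2 : j < Fin.last m := lt_of_le_of_ne (Fin.le_last _) hj
  have hi : i ≠ Fin.last m := (h3.trans hj2).ne
  have h6 := val_ne τ hi
  exact ⟨i, j, Fin.last m, h3, hj2, h4, h1, by omega⟩

lemma kC_hi {m : ℕ} (τ : Equiv.Perm (Fin (m + 1))) (y q : ℕ) (h1 : (τ (Fin.last m) : ℕ) < y)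
    (h2 : y ≤ q) (h3 : q < m + 1) : KC τ y q := by
  let i : Fin (m + 1) := τ.symm ⟨m, by omega⟩
  have hi : (τ i : ℕ) = m := by simp [i]
  have hi2 : i ≠ Fin.last m := by
    intro h
    rw [h] at hi
    omega
  exact ⟨i, Fin.last m, lt_of_le_of_ne (Fin.le_last _) hi2, h1, by omega⟩

end XC1

theorem t_XC1 : S_XC1 := by
  refine ⟨fun n v τ => XC1.vC_snocP n v τ, fun m v τ hv w => XC1.actC_snocP v τ hv w,
    fun n v τ y q h1 h2 => XC1.kC_snocP v τ y q h1 h2,
    fun m τ y q h1 h2 h3 => XC1.kC_lo τ y q h1 h2 h3,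
    fun m τ y q h1 h2 h3 => XC1.kC_hi τ y q h1 h2 h3⟩

end Pool.Agent.H109.GW
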