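import Pool.Agent.H109.GW.Stm

/-! Fishburn permutations avoiding 4132: the site tree is the block tree (helper840 for helper109). -/

set_option autoImplicit false

namespace Pool.Agent.H109.GW

open Finset Pool.Agent.R121 Pool.Agent.R121.Fish

attribute [local instance 10] Classical.propDecidable

namespace XC2

/-- the sites of `A` below `x` are partitioned into groups (from above) of the sizes given by the list -/
def Grp (A : Finset ℕ) (K : ℕ → ℕ → Prop) : List ℕ → ℕ → Prop
  | [], x => ∀ y ∈ A, x ≤ y
  | g :: w, x => ∃ x', x' ≤ x ∧ (A.filter fun y => x' ≤ y ∧ y < x).card = g ∧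
      (∀ y ∈ A, ∀ r ∈ A, x' ≤ y → y ≤ r → r < x → K y r) ∧
      (∀ y ∈ A, ∀ r ∈ A, y < x' → x' ≤ r → r < x → ¬ K y r) ∧ Grp A K w x'

lemma Grp.agr {A A' : Finset ℕ} {K K' : ℕ → ℕ → Prop} {w : List ℕ} :
    ∀ {x : ℕ}, Grp A K w x → (∀ y, y < x → (y ∈ A ↔ y ∈ A')) →
    (∀ y q, y ∈ A → q ∈ A → y ≤ q → q < x → (K y q ↔ K' y q)) → Grp A' K' w x := by
  induction w with
  | nil =>
    intro x h hA _ y hy
    by_contra hlt
    have := h y ((hA y (by omega)).2 hy)
    omega
  | cons g w ih =>
    rintro x ⟨x', hx, hc, h1, h2, h3⟩ hA hK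
    refine ⟨x', hx, ?_, ?_, ?_, ih h3 (fun y hy => hA y (by omega))
      (fun y q hy hq h4 h5 => hK y q hy hq h4 (by omega))⟩
    · rw [← hc]
      congr 1
      ext y
      simp only [mem_filter]
      constructor
      · rintro ⟨h4, h5, h6⟩
        exact ⟨(hA y h6).2 h4, h5, h6⟩
      · rintro ⟨h4, h5, h6⟩
        exact ⟨(hA y h6).1 h4, h5, h6⟩
    · intro y hy r hr h4 h5 h6
      have hy' := (hA y (by omega)).2 hy
      have hr' := (hA r h6).2 hr
      exact (hK y r hy' hr' h5 h6).1 (h1 y hy' r hr' h4 h5 h6)
    · intro y hy r hr h4 h5 h6 h7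
      have hy' := (hA y (by omega)).2 hy
      have hr' := (hA r h6).2 hr
      exact h2 y hy' r hr' h4 h5 h6 ((hK y r hy' hr' (by omega) h6).2 h7)

lemma Grp.ext {A : Finset ℕ} {K : ℕ → ℕ → Prop} {w : List ℕ} {x x₂ : ℕ} (h : Grp A K w x)
    (hx : x ≤ x₂) (hA : ∀ y ∈ A, x ≤ y → x₂ ≤ y) : Grp A K w x₂ := by
  cases w with
  | nil =>
    intro y hy
    exact hA y hy (h y hy)
  | cons g w =>
    obtain ⟨x', hx', hc, h1, h2, h3⟩ := h
    have hlt : ∀ y ∈ A, y < x₂ → y < x := by
      intro y hy h4
      by_contra h5
      have := hA y hy (by omega)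
      omega
    refine ⟨x', by omega, ?_, fun y hy r hr h4 h5 h6 => h1 y hy r hr h4 h5 (hlt r hr h6),
      fun y hy r hr h4 h5 h6 => h2 y hy r hr h4 h5 (hlt r hr h6), h3⟩
    rw [← hc]
    congr 1
    ext y
    simp only [mem_filter]
    constructor
    · rintro ⟨h4, h5, h6⟩
      exact ⟨h4, h5, hlt y h4 h6⟩
    · rintro ⟨h4, h5, h6⟩
      exact ⟨h4, h5, by omega⟩

lemma ab_split {A : Finset ℕ} {x' x r : ℕ} (hr1 : x' ≤ r) :
    (hr2 : r < x) → ab A r = ab (A.filter fun y => x' ≤ y ∧ y < x) r +
      (A.filter fun y => x ≤ y).card := by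
  intro hr2
  unfold ab
  have h1 := card_filter_add_card_filter_not (s := A.filter fun u => r < u) (fun y => y < x)
  rw [← h1]
  congr 2
  · ext y
    simp only [mem_filter]
    constructor
    · rintro ⟨⟨h2, h3⟩, h4⟩
      exact ⟨⟨h2, by omega, h4⟩, h3⟩
    · rintro ⟨⟨h2, h3, h4⟩, h5⟩
      exact ⟨⟨h2, h5⟩, h4⟩
  · ext y
    simp only [mem_filter]
    constructor
    · rintro ⟨⟨h2, h3⟩, h4⟩
      exact ⟨h2, by omega⟩
    · rintro ⟨h2, h3⟩
      exact ⟨⟨h2, by omega⟩, by omega⟩

lemma sum_Icc1 (g t : ℕ) (F : ℕ → ℤ) : ∑ c ∈ Icc 1 g, F (g - c + t) = ∑ k ∈ range g, F (k + t) := by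
  refine sum_nbij' (fun c => g - c) (fun k => g - k) ?_ ?_ ?_ ?_ ?_
  · intro c hc
    rw [mem_Icc] at hc
    rw [mem_range]
    omega
  · intro k hk
    rw [mem_range] at hk
    rw [mem_Icc]
    omega
  · intro c hc
    rw [mem_Icc] at hc
    try dsimp only
    omega
  · intro k hk
    rw [mem_range] at hk
    try dsimp only
    omega
  · intro c _
    rfl

lemma sum_Icc2 (u : ℕ) (F : ℕ → ℤ) : ∑ c ∈ Icc 2 u, F c = ∑ k ∈ range (u - 1), F (k + 2) := by
  refine sum_nbij' (fun c => c - 2) (fun k => k + 2) ?_ ?_ ?_ ?_ ?_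
  · intro c hc
    rw [mem_Icc] at hc
    rw [mem_range]
    omega
  · intro k hk
    rw [mem_range] at hk
    rw [mem_Icc]
    omega
  · intro c hc
    rw [mem_Icc] at hc
    try dsimp only
    omega
  · intro k hk
    try dsimp only
    omega
  · intro c hc
    rw [mem_Icc] at hc
    try dsimp only
    congr 1
    omega

abbrev St : Type := List ℕ × ℕ × Bool

/-- the children below `x` -/
lemma low {A : Finset ℕ} {K : ℕ → ℕ → Prop} {w : List ℕ} : ∀ {x : ℕ}, Grp A K w x →
    ∃ c : ℕ → St, (∀ r ∈ A, r < x → K r r ∧ ∃ w', c r = (w', (A.filter fun y => r ≤ y).card, false) ∧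
      Grp (A.filter fun y => y < r ∧ ¬ K y r) K w' r) ∧
    ∀ f : St → ℤ, ∑ r ∈ A.filter (fun y => y < x), f (c r) =
      DC f ((A.filter fun y => x ≤ y).card + 1) w := by
  induction w with
  | nil =>
    intro x h
    have h0 : ∀ y ∈ A, ¬ y < x := fun y hy => not_lt.2 (h y hy)
    refine ⟨fun _ => ([], 0, false), fun r hr hrx => absurd hrx (h0 r hr), fun f => ?_⟩
    rw [filter_false_of_mem h0, sum_empty]
    rfl
  | cons g w ih =>
    rintro x ⟨x', hx, hc, h1, h2, h3⟩
    obtain ⟨c, hc1, hc2⟩ := ih h3
    refine ⟨fun r => if r < x' then c r else (w, (A.filter fun y => r ≤ y).card, false), ?_, ?_⟩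
    · intro r hr hrx
      by_cases hrx' : r < x'
      · simp only [if_pos hrx']
        exact hc1 r hr hrx'
      · simp only [if_neg hrx']
        refine ⟨h1 r hr r hr (by omega) le_rfl hrx, w, rfl, ?_⟩
        refine Grp.ext (x := x') (Grp.agr h3 ?_ (fun _ _ _ _ _ _ => Iff.rfl)) (by omega) ?_
        · intro y hy
          rw [mem_filter]
          exact ⟨fun h4 => ⟨h4, by omega, h2 y h4 r hr hy (by omega) hrx⟩, fun h4 => h4.1⟩
        · intro y hy h4
          rw [mem_filter] at hy
          exact absurd (h1 y hy.1 r hr h4 hy.2.1.le hrx) hy.2.2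
    · intro f
      have hB : ∀ r ∈ A.filter (fun y => x' ≤ y ∧ y < x),
          f (w, (A.filter fun y => r ≤ y).card, false) =
            (fun k => f (w, k + ((A.filter fun y => x ≤ y).card + 1), false))
              (ab (A.filter fun y => x' ≤ y ∧ y < x) r) := by
        intro r hr
        rw [mem_filter] at hr
        rw [card_up hr.1, ab_split hr.2.1 hr.2.2]
        rfl
      have hcard : (A.filter fun y => x' ≤ y).card = g + (A.filter fun y => x ≤ y).card := by
        rw [← hc, ← card_filter_add_card_filter_not (s := A.filter fun u => x' ≤ u) (fun y => y < x)]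
        congr 2
        · ext y
          simp only [mem_filter]
          tauto
        · ext y
          simp only [mem_filter]
          constructor
          · rintro ⟨⟨h4, h5⟩, h6⟩
            exact ⟨h4, by omega⟩
          · rintro ⟨h4, h5⟩
            exact ⟨⟨h4, by omega⟩, by omega⟩
      have hsplit : A.filter (fun y => y < x) =
          (A.filter (fun y => x' ≤ y ∧ y < x)) ∪ (A.filter (fun y => y < x')) := by
        ext y
        simp only [mem_union, mem_filter]
        constructor
        · rintro ⟨h4, h5⟩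
          by_cases h6 : y < x'
          · exact Or.inr ⟨h4, h6⟩
          · exact Or.inl ⟨h4, by omega, h5⟩
        · rintro (⟨h4, h5, h6⟩ | ⟨h4, h5⟩)
          · exact ⟨h4, h6⟩
          · exact ⟨h4, by omega⟩
      rw [hsplit, sum_union]
      · have e1 : ∑ r ∈ A.filter (fun y => x' ≤ y ∧ y < x),
            f (if r < x' then c r else (w, (A.filter fun y => r ≤ y).card, false)) =
            ∑ k ∈ range g, f (w, k + ((A.filter fun y => x ≤ y).card + 1), false) := by
          rw [← hc, ← (sum_ab (A.filter fun y => x' ≤ y ∧ y < x)).2.2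
            (fun k => f (w, k + ((A.filter fun y => x ≤ y).card + 1), false))]
          refine sum_congr rfl fun r hr => ?_
          refine Eq.trans ?_ (hB r hr)
          rw [mem_filter] at hr
          rw [if_neg (by omega)]
        have e2 : ∑ r ∈ A.filter (fun y => y < x'),
            f (if r < x' then c r else (w, (A.filter fun y => r ≤ y).card, false)) =
            DC f (g + ((A.filter fun y => x ≤ y).card + 1)) w := by
          have e3 := hc2 f
          rw [hcard, add_assoc] at e3
          rw [← e3]
          refine sum_congr rfl fun r hr => ?_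
          rw [mem_filter] at hr
          rw [if_pos hr.2]
        rw [e1, e2, DC, sum_Icc1 g _ (fun k => f (w, k, false))]
      · rw [Finset.disjoint_left]
        intro y
        simp only [mem_filter]
        rintro ⟨_, h4, _⟩ ⟨_, h5⟩
        omega

/-- the representation -/
def Rep (m : ℕ) (τ : Equiv.Perm (Fin (m + 1))) (s : St) : Prop :=
  s.2.1 = ab (act BC m τ) (τ (Fin.last m)) ∧
  (s.2.2 = true ↔ (τ (Fin.last m) : ℕ) ∈ act BC m τ) ∧
  Grp (act BC m τ) (KC τ) s.1 (τ (Fin.last m))

lemma top_mem {m : ℕ} (τ : Equiv.Perm (Fin (m + 1))) : m + 1 ∈ act BC m τ := by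
  rw [mem_act]
  refine ⟨by omega, ?_⟩
  rintro (⟨i, j, h1, h2, h3⟩ | ⟨i, j, k, h1, h2, h3, h4, h5⟩)
  · have := (τ i).2
    omega
  · have := (τ k).2
    omega

lemma kc_top {m : ℕ} (τ : Equiv.Perm (Fin (m + 1))) (y : ℕ) : ¬ KC τ y (m + 1) := by
  rintro ⟨i, j, h1, h2, h3⟩
  have := (τ i).2
  omega

lemma child (h : S_XC1) {m : ℕ} (τ : Equiv.Perm (Fin (m + 1))) (v : Fin (m + 2))
    (hv : (v : ℕ) ∈ act BC m τ) {w' : List ℕ} {u' : ℕ} {fl : Bool}
    (hu : u' = ((act BC m τ).filter fun y => (v : ℕ) ≤ y).card)
    (hfl : fl = true ↔ ¬ KC τ v v)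
    (hG : Grp ((act BC m τ).filter fun y => y < (v : ℕ) ∧ ¬ KC τ y v ∧ y ≠ τ (Fin.last m))
      (KC τ) w' v) : Rep (m + 1) (snocP v τ) (w', u', fl) := by
  have hF2 := h.2.1 m v τ hv
  unfold Rep
  rw [sv_last]
  refine ⟨?_, ?_, ?_⟩
  · dsimp only
    rw [hu, ← card_image_succ ((act BC m τ).filter fun y => (v : ℕ) ≤ y)]
    unfold ab
    congr 1
    ext y
    simp only [mem_filter, mem_image, hF2]
    constructor
    · rintro ⟨u, ⟨h1, h2⟩, rfl⟩
      exact ⟨Or.inr ⟨u, h1, h2, rfl⟩, by omega⟩
    · rintro ⟨⟨h1, h2, _⟩ | ⟨u, h1, h2, h3⟩, h4⟩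
      · omega
      · exact ⟨u, ⟨h1, h2⟩, h3.symm⟩
  · dsimp only
    rw [hfl, hF2]
    constructor
    · intro h1
      exact Or.inl ⟨hv, le_rfl, h1, fun h2 => absurd h2 (lt_irrefl _)⟩
    · rintro (h1 | ⟨u, h1, h2, h3⟩)
      · exact h1.2.2.1
      · omega
  · dsimp only
    refine Grp.agr hG ?_ ?_
    · intro y hy
      rw [hF2, mem_filter]
      constructor
      · rintro ⟨h1, _, h2, h3⟩
        exact Or.inl ⟨h1, hy.le, h2, fun _ => h3⟩
      · rintro (⟨h1, _, h2, h3⟩ | ⟨u, h1, h2, h3⟩)
        · exact ⟨h1, hy, h2, h3 hy⟩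
        · omega
    · intro y q _ _ h1 h2
      have hv2 := v.2
      rw [h.2.2.1 (m + 1) v τ y q h1 (by omega)]
      constructor
      · intro h3
        exact Or.inl ⟨h2.le, h3⟩
      · rintro (h3 | h3 | h3)
        · exact h3.2
        · omega
        · omega

lemma step (h : S_XC1) (m : ℕ) (τ : Equiv.Perm (Fin (m + 1))) (s : St) (hR : Rep m τ s) :
    ∃ c : ℕ → St, (∀ v : Fin (m + 2), (v : ℕ) ∈ act BC m τ → Rep (m + 1) (snocP v τ) (c v)) ∧
      ∀ f : St → ℤ, ∑ u ∈ act BC m τ, f (c u) = TC f s := by
  obtain ⟨w, u, fl⟩ := s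
  obtain ⟨hu, hfl, hG⟩ := hR
  dsimp only at hu hfl hG
  have hF4 := h.2.2.2.1 m τ
  have hF5 := h.2.2.2.2 m τ
  have htop := top_mem τ
  have hLt : (τ (Fin.last m) : ℕ) < m + 1 := (τ (Fin.last m)).2
  have hAle : ∀ y ∈ act BC m τ, y < m + 2 := fun y hy => ((mem_act BC).1 hy).1
  obtain ⟨c0, hc1, hc2⟩ := low hG
  have hchild := @child h m τ
  set A := act BC m τ with hA
  set L : ℕ := (τ (Fin.last m) : ℕ) with hL
  have htc : (A.filter fun y => m + 1 ≤ y).card = 1 := by
    rw [card_eq_one]
    refine ⟨m + 1, ?_⟩
    ext y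
    rw [mem_filter, mem_singleton]
    constructor
    · rintro ⟨h1, h2⟩
      have := hAle y h1
      omega
    · rintro rfl
      exact ⟨htop, le_rfl⟩
  have hB : (A.filter fun y => L + 1 ≤ y ∧ y < m + 1).card + 1 = u := by
    have h1 := card_filter_add_card_filter_not (s := A.filter fun y => L < y) (fun y => y < m + 1)
    have h2 : ((A.filter fun y => L < y).filter fun y => y < m + 1) =
        A.filter fun y => L + 1 ≤ y ∧ y < m + 1 := by
      ext y
      simp only [mem_filter]
      constructor
      · rintro ⟨⟨h3, h4⟩, h5⟩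
        exact ⟨h3, by omega, h5⟩
      · rintro ⟨h3, h4, h5⟩
        exact ⟨⟨h3, by omega⟩, h5⟩
    have h3 : ((A.filter fun y => L < y).filter fun y => ¬ y < m + 1) =
        A.filter fun y => m + 1 ≤ y := by
      ext y
      simp only [mem_filter]
      constructor
      · rintro ⟨⟨h3, h4⟩, h5⟩
        exact ⟨h3, by omega⟩
      · rintro ⟨h3, h4⟩
        exact ⟨⟨h3, by omega⟩, by omega⟩
    rw [h2, h3, htc] at h1
    rw [h1, hu]
    rfl
  refine ⟨fun r => if r < L then c0 r else if r = L then (w, u + 1, true) else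
    if r < m + 1 then (w, (A.filter fun y => r ≤ y).card, false) else (psh (u - 1) w, 1, true),
    ?_, ?_⟩
  · intro v hv
    have hv2 := v.2
    by_cases h1 : (v : ℕ) < L
    · simp only [if_pos h1]
      obtain ⟨h2, w', h3, h4⟩ := hc1 v hv h1
      rw [h3]
      refine hchild v hv rfl ?_ ?_
      · constructor
        · intro h5
          exact absurd h5 (by simp)
        · intro h5
          exact absurd h2 h5
      · refine Grp.agr h4 ?_ (fun _ _ _ _ _ _ => Iff.rfl)
        intro y hy
        rw [mem_filter, mem_filter]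
        constructor
        · rintro ⟨h5, h6, h7⟩
          exact ⟨h5, h6, h7, by omega⟩
        · rintro ⟨h5, h6, h7, _⟩
          exact ⟨h5, h6, h7⟩
    · simp only [if_neg h1]
      by_cases h2 : (v : ℕ) = L
      · simp only [if_pos h2]
        refine hchild v hv ?_ ?_ ?_
        · rw [card_up hv, hu, h2]
        · constructor
          · intro _
            rw [h2]
            exact hF4 L L (h2 ▸ hv) le_rfl le_rfl
          · intro _
            rfl
        · rw [h2]
          refine Grp.agr hG ?_ (fun _ _ _ _ _ _ => Iff.rfl)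
          intro y hy
          rw [mem_filter]
          exact ⟨fun h3 => ⟨h3, hy, hF4 y L h3 hy.le le_rfl, by omega⟩, fun h3 => h3.1⟩
      · simp only [if_neg h2]
        by_cases h3 : (v : ℕ) < m + 1
        · simp only [if_pos h3]
          refine hchild v hv rfl ?_ ?_
          · constructor
            · intro h5
              exact absurd h5 (by simp)
            · intro h5
              exact absurd (hF5 v v (by omega) le_rfl h3) h5
          · refine Grp.ext (x := L) (Grp.agr hG ?_ (fun _ _ _ _ _ _ => Iff.rfl)) (by omega) ?_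
            · intro y hy
              rw [mem_filter]
              exact ⟨fun h4 => ⟨h4, by omega, hF4 y v h4 hy.le (by omega), by omega⟩, fun h4 => h4.1⟩
            · intro y hy h4
              rw [mem_filter] at hy
              obtain ⟨h5, h6, h7, h8⟩ := hy
              exact absurd (hF5 y v (by omega) h6.le h3) h7
        · simp only [if_neg h3]
          have h4 : (v : ℕ) = m + 1 := by omega
          refine hchild v hv ?_ ?_ ?_
          · rw [h4, htc]
          · constructor
            · intro _
              rw [h4]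
              exact kc_top τ _
            · intro _
              rfl
          · rw [h4]
            have hG' : Grp (A.filter fun y => y < m + 1 ∧ ¬ KC τ y (m + 1) ∧ y ≠ L) (KC τ) w L := by
              refine Grp.agr hG ?_ (fun _ _ _ _ _ _ => Iff.rfl)
              intro y hy
              rw [mem_filter]
              exact ⟨fun h5 => ⟨h5, by omega, kc_top τ y, by omega⟩, fun h5 => h5.1⟩
            have hset : ((A.filter fun y => y < m + 1 ∧ ¬ KC τ y (m + 1) ∧ y ≠ L).filter
                fun y => L ≤ y ∧ y < m + 1) = A.filter fun y => L + 1 ≤ y ∧ y < m + 1 := by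
              ext y
              simp only [mem_filter]
              constructor
              · rintro ⟨⟨h5, h6, h7, h8⟩, h9, _⟩
                exact ⟨h5, by omega, h6⟩
              · rintro ⟨h5, h6, h7⟩
                exact ⟨⟨h5, h7, kc_top τ y, by omega⟩, by omega, h7⟩
            unfold psh
            split_ifs with h5
            · refine Grp.ext (x := L) hG' (by omega) ?_
              intro y hy h6
              by_contra h7
              have h8 : (A.filter fun y => L + 1 ≤ y ∧ y < m + 1).card = 0 := by omega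
              rw [card_eq_zero, ← hset] at h8
              have h9 : y ∈ ((A.filter fun y => y < m + 1 ∧ ¬ KC τ y (m + 1) ∧ y ≠ L).filter
                fun y => L ≤ y ∧ y < m + 1) := mem_filter.2 ⟨hy, h6, by omega⟩
              rw [h8] at h9
              exact absurd h9 (notMem_empty _)
            · refine ⟨L, by omega, ?_, ?_, ?_, hG'⟩
              · rw [hset]
                omega
              · intro y hy r hr h6 h7 h8
                rw [mem_filter] at hy
                exact hF5 y r (by omega) h7 h8
              · intro y hy r hr h6 h7 h8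
                rw [mem_filter] at hy
                exact hF4 y r hy.1 h6.le h7
  · intro f
    have hsp : A = (A.filter fun y => y < L) ∪ ((A.filter fun y => y = L) ∪
        ((A.filter fun y => L + 1 ≤ y ∧ y < m + 1) ∪ {m + 1})) := by
      ext y
      simp only [mem_union, mem_filter, mem_singleton]
      constructor
      · intro hy
        have := hAle y hy
        rcases lt_trichotomy y L with h1 | h1 | h1
        · exact Or.inl ⟨hy, h1⟩
        · exact Or.inr (Or.inl ⟨hy, h1⟩)
        · by_cases h2 : y < m + 1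
          · exact Or.inr (Or.inr (Or.inl ⟨hy, by omega, h2⟩))
          · exact Or.inr (Or.inr (Or.inr (by omega)))
      · rintro (h1 | h1 | h1 | h1)
        · exact h1.1
        · exact h1.1
        · exact h1.1
        · rw [h1]
          exact htop
    have e1 : ∑ r ∈ A.filter (fun y => y < L), f (if r < L then c0 r else if r = L then
        (w, u + 1, true) else if r < m + 1 then (w, (A.filter fun y => r ≤ y).card, false) else
        (psh (u - 1) w, 1, true)) = DC f ((A.filter fun y => L ≤ y).card + 1) w := by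
      rw [← hc2 f]
      refine sum_congr rfl fun r hr => ?_
      rw [mem_filter] at hr
      rw [if_pos hr.2]
    have e2 : ∑ r ∈ A.filter (fun y => y = L), f (if r < L then c0 r else if r = L then
        (w, u + 1, true) else if r < m + 1 then (w, (A.filter fun y => r ≤ y).card, false) else
        (psh (u - 1) w, 1, true)) = if fl = true then f (w, u + 1, true) else 0 := by
      by_cases hm : L ∈ A
      · have : A.filter (fun y => y = L) = {L} := by
          ext y
          rw [mem_filter, mem_singleton]
          exact ⟨fun h1 => h1.2, fun h1 => ⟨h1 ▸ hm, h1⟩⟩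
        rw [this, sum_singleton, if_neg (lt_irrefl _), if_pos rfl, if_pos (hfl.2 hm)]
      · have : A.filter (fun y => y = L) = ∅ := by
          rw [filter_eq_empty_iff]
          intro y hy h1
          exact hm (h1 ▸ hy)
        rw [this, sum_empty, if_neg (fun h1 => hm (hfl.1 h1))]
    have e3 : ∑ r ∈ A.filter (fun y => L + 1 ≤ y ∧ y < m + 1), f (if r < L then c0 r else
        if r = L then (w, u + 1, true) else if r < m + 1 then
        (w, (A.filter fun y => r ≤ y).card, false) else
        (psh (u - 1) w, 1, true)) = ∑ u2 ∈ Icc 2 u, f (w, u2, false) := by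
      rw [sum_Icc2 u (fun k => f (w, k, false))]
      have h1 : u - 1 = (A.filter fun y => L + 1 ≤ y ∧ y < m + 1).card := by omega
      rw [h1, ← (sum_ab (A.filter fun y => L + 1 ≤ y ∧ y < m + 1)).2.2
        (fun k => f (w, k + 2, false))]
      refine sum_congr rfl fun r hr => ?_
      rw [mem_filter] at hr
      rw [if_neg (by omega), if_neg (by omega), if_pos hr.2.2, card_up hr.1,
        ab_split hr.2.1 hr.2.2, htc]
    have e5 : (A.filter fun y => L ≤ y).card = u + if fl = true then 1 else 0 := by
      by_cases hm : L ∈ A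
      · rw [card_up hm, if_pos (hfl.2 hm), hu]
      · rw [if_neg (fun h1 => hm (hfl.1 h1)), hu, add_zero]
        unfold ab
        congr 1
        ext y
        rw [mem_filter, mem_filter]
        constructor
        · rintro ⟨h1, h2⟩
          refine ⟨h1, lt_of_le_of_ne h2 ?_⟩
          rintro rfl
          exact hm h1
        · rintro ⟨h1, h2⟩
          exact ⟨h1, h2.le⟩
    have e4 : ∑ r ∈ ({m + 1} : Finset ℕ), f (if r < L then c0 r else
        if r = L then (w, u + 1, true) else if r < m + 1 then
        (w, (A.filter fun y => r ≤ y).card, false) else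
        (psh (u - 1) w, 1, true)) = f (psh (u - 1) w, 1, true) := by
      rw [sum_singleton, if_neg (by omega), if_neg (by omega), if_neg (by omega)]
    have hd1 : Disjoint (A.filter fun y => L + 1 ≤ y ∧ y < m + 1) ({m + 1} : Finset ℕ) := by
      rw [Finset.disjoint_left]
      intro y hy h1
      rw [mem_filter] at hy
      rw [mem_singleton] at h1
      omega
    have hd2 : Disjoint (A.filter fun y => y = L)
        ((A.filter fun y => L + 1 ≤ y ∧ y < m + 1) ∪ {m + 1}) := by
      rw [Finset.disjoint_left]
      intro y hy h1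
      rw [mem_filter] at hy
      rw [mem_union, mem_filter, mem_singleton] at h1
      omega
    have hd3 : Disjoint (A.filter fun y => y < L) ((A.filter fun y => y = L) ∪
        ((A.filter fun y => L + 1 ≤ y ∧ y < m + 1) ∪ {m + 1})) := by
      rw [Finset.disjoint_left]
      intro y hy h1
      rw [mem_filter] at hy
      rw [mem_union, mem_union, mem_filter, mem_filter, mem_singleton] at h1
      omega
    have hs : ∀ F : ℕ → ℤ, ∑ r ∈ A, F r = ∑ r ∈ A.filter (fun y => y < L), F r +
        (∑ r ∈ A.filter (fun y => y = L), F r +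
          (∑ r ∈ A.filter (fun y => L + 1 ≤ y ∧ y < m + 1), F r + ∑ r ∈ ({m + 1} : Finset ℕ), F r)) := by
      intro F
      rw [← sum_union hd1, ← sum_union hd2, ← sum_union hd3, ← hsp]
    rw [hs, e1, e2, e3, e4, e5]
    cases fl with
    | false =>
      simp [TC]
      try ring
    | true =>
      simp [TC]
      try ring

end XC2

theorem t_XC2 (h : S_XC1) : S_XC := by
  intro n
  refine cardV_eq VC BC h.1 TC XC2.Rep (fun m τ s _ hR => XC2.step h m τ s hR) ([], 1, true) ?_ ?_ n
  · constructor
    · intro i j k hij _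
      have := i.2
      have := j.2
      omega
    · intro i j k l hij
      have h1 := i.2
      have h2 := j.2
      rw [Fin.lt_def] at hij
      omega
  · have hBC : ∀ u, ¬ BC 1 1 u := by
      rintro u (⟨i, j, h1, _, _⟩ | ⟨i, j, k, h1, _⟩)
      · have := i.2
        have := j.2
        omega
      · have h2 := i.2
        have h3 := j.2
        rw [Fin.lt_def] at h1
        omega
    have hL : (((1 : Equiv.Perm (Fin (0 + 1))) (Fin.last 0) : Fin (0 + 1)) : ℕ) = 0 := rfl
    unfold XC2.Rep
    rw [hL]
    refine ⟨?_, ?_, ?_⟩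
    · have : act BC 0 1 = {0, 1} := by
        ext y
        rw [mem_act, mem_insert, mem_singleton]
        constructor
        · rintro ⟨h1, _⟩
          omega
        · intro h1
          exact ⟨by omega, hBC y⟩
      rw [this]
      rfl
    · constructor
      · intro _
        rw [mem_act]
        exact ⟨by omega, hBC 0⟩
      · intro _
        rfl
    · intro y _
      exact Nat.zero_le y

end Pool.Agent.H109.GW
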