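import Pool.Agent.H109.GW.Stm

set_option autoImplicit false

/-! Task ev of the project GW: the evaluation homomorphism `ℤ⟦z⟧⟦ξ⟧ → ℤ[x]⟦z⟧`, `ξ ↦ z (x - 1) / (1 - z)`. -/

namespace Pool.Agent.H109.GW

namespace ev

/-- the element `z (x - 1) / (1 - z)` -/
noncomputable def x0 : Rx := PowerSeries.X * (xx - 1) * PowerSeries.mk 1

/-- evaluation of polynomials -/
noncomputable def E : Polynomial (PowerSeries ℤ) →+* Rx := Polynomial.eval₂RingHom up x0

lemma E_C (f : PowerSeries ℤ) : E (Polynomial.C f) = up f := by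
  unfold E
  simp

lemma E_X : E Polynomial.X = x0 := by
  unfold E
  simp

/-- polynomials divisible by a high power of the variable -/
lemma E_low (N : ℕ) (p : Polynomial (PowerSeries ℤ)) (h : ∀ d < N, p.coeff d = 0) :
    ∀ m < N, PowerSeries.coeff m (E p) = 0 := by
  obtain ⟨r, hr⟩ := Polynomial.X_pow_dvd_iff.2 h
  have h1 : E p = PowerSeries.X ^ N * (((xx - 1) * PowerSeries.mk 1) ^ N * E r) := by
    rw [hr, map_mul, map_pow, E_X]
    unfold x0
    rw [mul_assoc PowerSeries.X, mul_pow PowerSeries.X, mul_assoc]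
  exact PowerSeries.X_pow_dvd_iff.1 ⟨_, h1⟩

/-- the evaluation of power series -/
noncomputable def Ph (f : Rxi) : Rx :=
  PowerSeries.mk fun n => PowerSeries.coeff n (E (PowerSeries.trunc (n + 1) f))

lemma Ph_eq (f : Rxi) (p : Polynomial (PowerSeries ℤ)) (m : ℕ)
    (h : ∀ d ≤ m, p.coeff d = PowerSeries.coeff d f) :
    PowerSeries.coeff m (Ph f) = PowerSeries.coeff m (E p) := by
  unfold Ph
  rw [PowerSeries.coeff_mk]
  have h1 := E_low (m + 1) (PowerSeries.trunc (m + 1) f - p) (fun d hd => by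
    rw [Polynomial.coeff_sub, PowerSeries.coeff_trunc, if_pos hd, h d (by omega), sub_self]) m
    (Nat.lt_succ_self m)
  rw [map_sub, map_sub] at h1
  exact sub_eq_zero.1 h1

lemma Ph_C (f : PowerSeries ℤ) : Ph (PowerSeries.C f) = up f := by
  ext1 m
  rw [Ph_eq (PowerSeries.C f) (Polynomial.C f) m (fun d _ => by
    rw [Polynomial.coeff_C, PowerSeries.coeff_C]), E_C]

lemma Ph_X : Ph PowerSeries.X = x0 := by
  ext1 m
  rw [Ph_eq PowerSeries.X Polynomial.X m (fun d _ => by
    rw [Polynomial.coeff_X, PowerSeries.coeff_X]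
    by_cases hd : d = 1
    · rw [if_pos hd, if_pos hd.symm]
    · rw [if_neg hd, if_neg (Ne.symm hd)]), E_X]

lemma Ph_one : Ph 1 = 1 := by
  ext1 m
  rw [Ph_eq 1 1 m (fun d _ => by rw [Polynomial.coeff_one, PowerSeries.coeff_one]), map_one]

lemma Ph_zero : Ph 0 = 0 := by
  ext1 m
  rw [Ph_eq 0 0 m (fun d _ => by rw [Polynomial.coeff_zero, map_zero]), map_zero]

lemma Ph_add (f g : Rxi) : Ph (f + g) = Ph f + Ph g := by
  ext1 m
  have hf := Ph_eq f (PowerSeries.trunc (m + 1) f) m (fun d hd => by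
    rw [PowerSeries.coeff_trunc, if_pos (by omega)])
  have hg := Ph_eq g (PowerSeries.trunc (m + 1) g) m (fun d hd => by
    rw [PowerSeries.coeff_trunc, if_pos (by omega)])
  rw [Ph_eq (f + g) (PowerSeries.trunc (m + 1) f + PowerSeries.trunc (m + 1) g) m (fun d hd => by
    rw [Polynomial.coeff_add, PowerSeries.coeff_trunc, PowerSeries.coeff_trunc, if_pos (by omega),
      if_pos (by omega), map_add]), map_add, map_add, map_add, hf, hg]

lemma Ph_mul (f g : Rxi) : Ph (f * g) = Ph f * Ph g := by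
  ext1 m
  have hf : ∀ i ≤ m, PowerSeries.coeff i (Ph f) =
      PowerSeries.coeff i (E (PowerSeries.trunc (m + 1) f)) := fun i hi =>
    Ph_eq f (PowerSeries.trunc (m + 1) f) i (fun d hd => by
      rw [PowerSeries.coeff_trunc, if_pos (by omega)])
  have hg : ∀ i ≤ m, PowerSeries.coeff i (Ph g) =
      PowerSeries.coeff i (E (PowerSeries.trunc (m + 1) g)) := fun i hi =>
    Ph_eq g (PowerSeries.trunc (m + 1) g) i (fun d hd => by
      rw [PowerSeries.coeff_trunc, if_pos (by omega)])
  have hp : ∀ d ≤ m, (PowerSeries.trunc (m + 1) f * PowerSeries.trunc (m + 1) g).coeff d =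
      PowerSeries.coeff d (f * g) := by
    intro d hd
    rw [Polynomial.coeff_mul, PowerSeries.coeff_mul]
    refine Finset.sum_congr rfl fun p hp => ?_
    have := Finset.HasAntidiagonal.mem_antidiagonal.1 hp
    rw [PowerSeries.coeff_trunc, PowerSeries.coeff_trunc, if_pos (by omega), if_pos (by omega)]
  rw [Ph_eq (f * g) (PowerSeries.trunc (m + 1) f * PowerSeries.trunc (m + 1) g) m hp, map_mul,
    PowerSeries.coeff_mul, PowerSeries.coeff_mul]
  refine Finset.sum_congr rfl fun p hp => ?_
  have := Finset.HasAntidiagonal.mem_antidiagonal.1 hp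
  rw [hf p.1 (by omega), hg p.2 (by omega)]

/-- the homomorphism -/
noncomputable def PhHom : Rxi →+* Rx where
  toFun := Ph
  map_one' := Ph_one
  map_mul' := Ph_mul
  map_zero' := Ph_zero
  map_add' := Ph_add

lemma at1_up (f : PowerSeries ℤ) : at1 (up f) = f := by
  unfold at1 up
  ext m
  simp

lemma at1_x0 : at1 x0 = 0 := by
  have h : at1 xx = 1 := by
    unfold at1 xx
    simp
  unfold x0
  rw [map_mul, map_mul, map_sub, h, map_one, sub_self, mul_zero, zero_mul]

lemma at1_E (p : Polynomial (PowerSeries ℤ)) : at1 (E p) = p.coeff 0 := by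
  have h : at1.comp E = (Polynomial.evalRingHom 0 : Polynomial (PowerSeries ℤ) →+* PowerSeries ℤ) := by
    apply Polynomial.ringHom_ext
    · intro a
      rw [RingHom.comp_apply, E_C, at1_up]
      simp
    · rw [RingHom.comp_apply, E_X, at1_x0]
      simp
  have h2 : at1 (E p) = (at1.comp E) p := rfl
  rw [h2, h]
  simp [Polynomial.coeff_zero_eq_eval_zero]

end ev

open ev in
theorem t_ev : S_ev := by
  refine ⟨PhHom, Ph_C, ?_, ?_⟩
  · show (1 - PowerSeries.X) * Ph PowerSeries.X = _
    rw [Ph_X]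
    unfold x0
    have h : (PowerSeries.mk 1 : Rx) * (1 - PowerSeries.X) = 1 :=
      PowerSeries.mk_one_mul_one_sub_eq_one _
    linear_combination (PowerSeries.X * (xx - 1)) * h
  · intro f
    ext1 m
    show PowerSeries.coeff m (at1 (Ph f)) = _
    have h1 : PowerSeries.coeff m (at1 (Ph f)) =
        PowerSeries.coeff m (at1 (E (PowerSeries.trunc (m + 1) f))) := by
      unfold at1
      rw [PowerSeries.coeff_map, PowerSeries.coeff_map]
      apply congrArg
      exact Ph_eq f (PowerSeries.trunc (m + 1) f) m (fun d hd => by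
        rw [PowerSeries.coeff_trunc, if_pos (by omega)])
    rw [h1, at1_E, PowerSeries.coeff_trunc, if_pos (by omega), PowerSeries.coeff_zero_eq_constantCoeff]

end Pool.Agent.H109.GW
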