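import Pool.Agent.H109.GW.Stm

set_option autoImplicit false

/-! UNIQ: uniqueness of the solution of the functional equation (helper356). -/

namespace Pool.Agent.H109.GW

namespace uniq

theorem up_const (F : PowerSeries ℤ) :
    PowerSeries.constantCoeff (up F) = Polynomial.C (PowerSeries.constantCoeff F) := by
  unfold up
  rw [← PowerSeries.coeff_zero_eq_constantCoeff_apply, PowerSeries.coeff_map,
    PowerSeries.coeff_zero_eq_constantCoeff_apply]

theorem xx_const : PowerSeries.constantCoeff xx = (Polynomial.X : Polynomial ℤ) :=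
  PowerSeries.constantCoeff_C Polynomial.X

theorem X_sub_one_ne : (Polynomial.X - 1 : Polynomial ℤ) ≠ 0 := by
  have h := Polynomial.X_sub_C_ne_zero (1 : ℤ)
  rwa [Polynomial.C_1] at h

theorem const_a {F : PowerSeries ℤ} {a : Rx} (hF : PowerSeries.constantCoeff F = 1)
    (h : PowerSeries.X * xx * (1 - PowerSeries.X * xx) * a ^ 2 -
      up F * (1 - PowerSeries.X * xx) * (xx - 1 + PowerSeries.X) * a +
      up F * (1 - PowerSeries.X) * (xx - 1) = 0) : PowerSeries.constantCoeff a = 1 := by
  have h1 := congrArg PowerSeries.constantCoeff h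
  simp only [map_add, map_sub, map_mul, map_pow, map_one, map_zero, PowerSeries.constantCoeff_X,
    up_const, xx_const, hF] at h1
  have h2 : (Polynomial.X - 1 : Polynomial ℤ) * (PowerSeries.constantCoeff a - 1) = 0 := by
    linear_combination -h1
  rcases mul_eq_zero.1 h2 with h3 | h3
  · exact absurd h3 X_sub_one_ne
  · exact sub_eq_zero.1 h3

theorem step {F G : PowerSeries ℤ} {a b : Rx} (hG : PowerSeries.constantCoeff G = 1)
    (ha : PowerSeries.constantCoeff a = 1) (haF : at1 a = F) (hbG : at1 b = G)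
    (h : PowerSeries.X * xx * (1 - PowerSeries.X * xx) * a ^ 2 -
      up F * (1 - PowerSeries.X * xx) * (xx - 1 + PowerSeries.X) * a +
      up F * (1 - PowerSeries.X) * (xx - 1) = 0)
    (h' : PowerSeries.X * xx * (1 - PowerSeries.X * xx) * b ^ 2 -
      up G * (1 - PowerSeries.X * xx) * (xx - 1 + PowerSeries.X) * b +
      up G * (1 - PowerSeries.X) * (xx - 1) = 0) (n : ℕ)
    (hn : PowerSeries.X ^ n ∣ a - b) : PowerSeries.X ^ (n + 1) ∣ a - b := by
  obtain ⟨d, hd⟩ := hn
  have hab : a = b + PowerSeries.X ^ n * d := by rw [← hd]; ring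
  have hX : at1 (PowerSeries.X ^ n) = PowerSeries.X ^ n := by
    unfold at1
    rw [map_pow, PowerSeries.map_X]
  have hX' : up (PowerSeries.X ^ n) = PowerSeries.X ^ n := by
    unfold up
    rw [map_pow, PowerSeries.map_X]
  obtain ⟨e, he⟩ : ∃ e : PowerSeries ℤ, e = at1 d := ⟨_, rfl⟩
  have hFG : F = G + PowerSeries.X ^ n * e := by
    rw [← haF, ← hbG, hab, map_add, map_mul, hX, he]
  have hup : up F = up G + PowerSeries.X ^ n * up e := by
    rw [hFG, map_add, map_mul, hX']
  have key : (PowerSeries.X : Rx) ^ n * (PowerSeries.X * xx * (1 - PowerSeries.X * xx) * (a + b) * d -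
      (1 - PowerSeries.X * xx) * (xx - 1 + PowerSeries.X) * (up e * a + up G * d) +
      (1 - PowerSeries.X) * (xx - 1) * up e) = 0 := by
    have e1 : PowerSeries.X ^ n * d = a - b := hd.symm
    have e2 : PowerSeries.X ^ n * up e = up F - up G := by rw [hup]; ring
    linear_combination (PowerSeries.X * xx * (1 - PowerSeries.X * xx) * (a + b) -
      (1 - PowerSeries.X * xx) * (xx - 1 + PowerSeries.X) * up G) * e1 +
      (-(1 - PowerSeries.X * xx) * (xx - 1 + PowerSeries.X) * a +
        (1 - PowerSeries.X) * (xx - 1)) * e2 + h - h'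
  have hne : (PowerSeries.X : Rx) ^ n ≠ 0 := pow_ne_zero n PowerSeries.X_ne_zero
  have key2 := (mul_eq_zero.1 key).resolve_left hne
  have h1 := congrArg PowerSeries.constantCoeff key2
  simp only [map_add, map_sub, map_mul, map_one, map_zero, PowerSeries.constantCoeff_X,
    up_const, xx_const, hG, ha] at h1
  have h2 : (Polynomial.X - 1 : Polynomial ℤ) * PowerSeries.constantCoeff d = 0 := by
    linear_combination -h1
  have h3 := (mul_eq_zero.1 h2).resolve_left X_sub_one_ne
  obtain ⟨c, hc⟩ := PowerSeries.X_dvd_iff.2 h3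
  exact ⟨c, by rw [hd, hc, pow_succ, mul_assoc]⟩

end uniq

open uniq in
theorem t_uniq : S_uniq := by
  intro F G hF hG ⟨a, haF, h⟩ ⟨b, hbG, h'⟩
  have ha := const_a hF h
  have hdiv : ∀ n : ℕ, PowerSeries.X ^ n ∣ a - b := by
    intro n
    induction n with
    | zero => rw [pow_zero]; exact one_dvd _
    | succ n ih => exact step hG ha haF hbG h h' n ih
  have hab : a = b := by
    rw [← sub_eq_zero]
    ext1 n
    rw [map_zero]
    exact PowerSeries.X_pow_dvd_iff.1 (hdiv (n + 1)) n (Nat.lt_succ_self n)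
  rw [← haF, ← hbG, hab]

end Pool.Agent.H109.GW
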